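import Pool.Agent.Work.MP_096b72_nt.Hedge.Fin

set_option autoImplicit false

namespace Pool.Agent.Work.MP_096b72_nt.Hedge.AllNOld

/-- For every prime `p > 3` and every `n ≥ 1`, with `S N = ∑_{k<N} (5k+1) C(2k,k)^2 C(3k,k) / (-192)^k`,
`(-192)^(n-1) (S (p n) - p (p/3) S n) / ((p n)^3 C(2n-1,n-1))` is congruent modulo `p` to
`(5/18) C(2n-1,n-1) C(3n-1,n-1) B_{p-2}(1/3)`. -/
theorem result :
    ∀ p : ℕ, p.Prime → 3 < p → ∀ n : ℕ, 1 ≤ n → ∀ (S : ℕ → ℚ) (X R : ℚ),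
      (∀ N : ℕ, S N = ∑ k ∈ Finset.range N, (5 * (k : ℚ) + 1) / (-192 : ℚ) ^ k *
        (((Nat.choose (2 * k) k : ℕ) : ℚ) ^ 2 * ((Nat.choose (3 * k) k : ℕ) : ℚ))) →
      X = (-192 : ℚ) ^ (n - 1) *
        (S (p * n) - (p : ℚ) * ((jacobiSym (p : ℤ) 3 : ℤ) : ℚ) * S n) /
          (((p : ℚ) * (n : ℚ)) ^ 3 * ((Nat.choose (2 * n - 1) (n - 1) : ℕ) : ℚ)) →
      R = (5 / 18 : ℚ) * ((Nat.choose (2 * n - 1) (n - 1) : ℕ) : ℚ) *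
        ((Nat.choose (3 * n - 1) (n - 1) : ℕ) : ℚ) *
          (Polynomial.bernoulli (p - 2)).eval (1 / 3 : ℚ) →
      X - R = 0 ∨ 1 ≤ padicValRat p (X - R) :=
  Pool.Agent.Work.MP_096b72_nt.Hedge.all_n

end Pool.Agent.Work.MP_096b72_nt.Hedge.AllNOld
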