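import Pool.Agent.Work.MP_096b72_nt.Final

-- merged part: Pool.Agent.Work.MP_096b72_nt.Hedge.SDiv
section
-- merged part: Pool.Agent.Work.MP_096b72_nt.Hedge.Defs
section
/-! Definitions for the congruence between the truncated sums up to `p n` and up to `n`
(paper proof: h67_096b72_hedge.md in the team store). -/

set_option autoImplicit false

namespace Pool.Agent.Work.MP_096b72_nt.Hedge

open Finset

noncomputable section

variable (p : ℕ) [Fact p.Prime]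

/-- The inverse of an integer prime to `p`, and zero for multiples of `p`. -/
def iz (d : ℤ) : ℤ_[p] := Ring.inverse (d : ℤ_[p])

/-- The inverse of `-3`. -/
def ww : ℤ_[p] := iz p (-3)

/-- Harmonic sum over the units. -/
def H1 (n : ℕ) : ℤ_[p] := ∑ i ∈ range n, iz p ((i : ℤ) + 1)

/-- Harmonic sum of order two over the units. -/
def Hb (n : ℕ) : ℤ_[p] := ∑ i ∈ range n, iz p ((i : ℤ) + 1) ^ 2

/-- Odd harmonic sum over the units. -/
def O1 (n : ℕ) : ℤ_[p] := ∑ i ∈ range n, iz p (2 * (i : ℤ) + 1)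

/-- First order term of the unit product. -/
def pii (n : ℕ) : ℤ_[p] := 4 * O1 p n - 3 * H1 p n

/-- Unit part of `ff`. -/
def uf (N i : ℕ) : ℤ_[p] := 1 + 4 * N * iz p (2 * (i : ℤ) + 1 - 2 * N)

/-- Unit part of `gg`. -/
def ug (N i : ℕ) : ℤ_[p] := 1 - 3 * N * iz p ((i : ℤ) + 2 * N)

/-- Unit part of `AA`. -/
def PP (N L : ℕ) : ℤ_[p] := ∏ i ∈ range L, (uf p N i * ug p N (i + 1))

/-- Unit part of `kk`. -/
def rho (N : ℕ) : ℤ_[p] := ∏ i ∈ range N, ((1 + N * iz p i) ^ 2 * (1 + 2 * (N * iz p i)))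

/-- The whole unit factor. -/
def cc (n L : ℕ) : ℤ_[p] := iz p 64 ^ (p * n - n) * rho p (p * n) * PP p (p * n) L

/-- Odd part of the powers of the square root of `ww`, times that root. -/
def od (k : ℕ) : ℤ_[p] := if k % 2 = 1 then ww p ^ ((k + 1) / 2) else 0

/-- Even part of the powers of the square root of `ww`. -/
def ev (k : ℕ) : ℤ_[p] := if k % 2 = 0 then ww p ^ (k / 2) else 0

/-- Odd part of a binomial expansion. -/
def Od (m : ℕ) : ℤ_[p] := ∑ k ∈ range (m + 1), (m.choose k : ℤ_[p]) * od p k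

/-- Even part of a binomial expansion. -/
def Ev (m : ℕ) : ℤ_[p] := ∑ k ∈ range (m + 1), (m.choose k : ℤ_[p]) * ev p k

/-- A block of the arctangent series. -/
def blk (l : ℕ) : ℤ_[p] := ∑ r ∈ range p, od p (p * l + r) * iz p ((p * l + r : ℕ) : ℤ)

/-- The difference of two truncated sums of the arctangent series. -/
def Th (χ : ℤ) (f : ℕ → ℤ_[p]) (l : ℕ) : ℤ_[p] := ∑ j ∈ range l, (blk p j + χ * od p j * f j)

/-- Finite polylogarithm, odd terms. -/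
def s1 (h k : ℕ) : ℤ_[p] := ∑ r ∈ range h, (-3) ^ r * iz p (2 * (r : ℤ) + 1) ^ k

/-- Finite polylogarithm, even terms. -/
def s2 (h k : ℕ) : ℤ_[p] := ∑ r ∈ range h, (-3) ^ (r + 1) * iz p (2 * (r : ℤ) + 2) ^ k

/-- Slope of the even blocks. -/
def sle (h : ℕ) (χ : ℤ) (a : ℤ_[p]) : ℤ_[p] := -2 * χ * (a * s2 p h 1 + s2 p h 2)

/-- Slope of the odd blocks. -/
def slo (h : ℕ) (a : ℤ_[p]) : ℤ_[p] := -2 * (a * s1 p h 1 + s1 p h 2)

/-- Slope of `Th` at even points. -/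
def gm (h : ℕ) (χ : ℤ) (a : ℤ_[p]) : ℤ_[p] := iz p 4 * (sle p h χ a + slo p h a + χ * a ^ 2)

/-- Slope of `Th` at odd points. -/
def dl (h : ℕ) (χ : ℤ) (a : ℤ_[p]) : ℤ_[p] := iz p 2 * (sle p h χ a - 3 * gm p h χ a)

/-- Second order constant, lower half. -/
def X1 (h : ℕ) (q : ℤ_[p]) : ℤ_[p] :=
  ∑ r ∈ range h, (-3) ^ r * iz p (2 * (r : ℤ) + 1) * (pii p r - 6 * q)

/-- Second order constant, upper half. -/
def X2 (h : ℕ) (q : ℤ_[p]) : ℤ_[p] :=
  ∑ k ∈ range h, (-3) ^ (h + 1 + k) * iz p (2 * ((h + 1 + k : ℕ) : ℤ) + 1) *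
    (pii p (h + 1 + k) - 6 * q)

/-- Reduction modulo `p`. -/
def red : ℤ_[p] →+* KK p := (psi p).comp (PadicInt.toZModPow 3)

/-- The dual sum. -/
def UU (N : ℕ) : ℚ_[p] := ∑ l ∈ range N, (-3) ^ l * vv ℚ_[p] N l * AA ℚ_[p] N l

/-- The common denominator of the dual terms. -/
def KC (n : ℕ) : ℕ := (2 * n - 1).choose (n - 1) * (3 * n - 1).choose (n - 1)

/-- The `p`-adic constants. -/
structure Dat (h : ℕ) (χ : ℤ) (a q lam : ℤ_[p]) (f : ℕ → ℤ_[p]) : Prop where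
  hp : p = 2 * h + 1
  h3 : 3 < p
  hχ : (p % 3 = 1 ∧ χ = 1) ∨ (p % 3 = 2 ∧ χ = -1)
  ha : χ * ww p ^ h = 1 + p * a
  hq : (2 : ℤ_[p]) ^ (2 * h) = 1 + p * q
  f1 : ∀ o : ℕ, (1 + p * a) ^ o = 1 + p * o * f o
  f2 : ∀ o o' : ℕ, 1 ≤ o → 1 ≤ o' →
    (p : ℤ_[p]) ^ 2 * (o - o') ∣ 2 * (f o - f o') - a ^ 2 * p * (o - o')
  f3 : f 1 = a
  l1 : (p : ℤ_[p]) ∣ lam - q
  l2 : ∀ m : ℕ, (p : ℤ_[p]) * (p * m) ^ 2 ∣
    2 * ((1 + p * q) ^ m - 1 - p * m * lam) - (p * m * lam) ^ 2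

end

end Pool.Agent.Work.MP_096b72_nt.Hedge
end

-- merged part: Pool.Agent.Work.MP_096b72_nt.Hedge.Iz
section
/-! Basic facts on `iz`, `ww` and `red`. -/

set_option autoImplicit false

namespace Pool.Agent.Work.MP_096b72_nt.Hedge

open Finset

variable {p : ℕ} [hpp : Fact p.Prime] {h : ℕ} {χ : ℤ} {a q lam : ℤ_[p]} {f : ℕ → ℤ_[p]}

theorem isUnit_cast {d : ℤ} : IsUnit (d : ℤ_[p]) ↔ ¬ (p : ℤ) ∣ d := by
  rw [PadicInt.isUnit_iff, ← PadicInt.norm_int_lt_one_iff_dvd, not_lt]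
  exact ⟨fun k => k.ge, fun k => le_antisymm (PadicInt.norm_le_one _) k⟩

theorem iz_mul {d : ℤ} (hd : ¬ (p : ℤ) ∣ d) : (d : ℤ_[p]) * iz p d = 1 :=
  Ring.mul_inverse_cancel _ (isUnit_cast.2 hd)

theorem iz_dvd {d : ℤ} (hd : (p : ℤ) ∣ d) : iz p d = 0 :=
  Ring.inverse_non_unit _ fun k => isUnit_cast.1 k hd

theorem iz_mul_iz (c d : ℤ) : iz p (c * d) = iz p c * iz p d := by
  rw [iz, iz, iz, Int.cast_mul, Ring.mul_inverse_rev, mul_comm]

theorem iz_one : iz p 1 = 1 := by simp [iz]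

theorem iz_neg (d : ℤ) : iz p (-d) = -iz p d := by
  by_cases hd : (p : ℤ) ∣ d
  · rw [iz_dvd hd, iz_dvd (dvd_neg.2 hd), neg_zero]
  · have h1 := iz_mul hd
    have h2 := iz_mul (p := p) (d := -d) (by rwa [dvd_neg])
    push_cast at h2
    linear_combination (-iz p (-d)) * h1 + (-iz p d) * h2

theorem iz_shift (d : ℤ) {e : ℤ} (he : (p : ℤ) ∣ e) :
    iz p (d + e) = iz p d - e * iz p d * iz p (d + e) := by
  by_cases hd : (p : ℤ) ∣ d
  · rw [iz_dvd hd, iz_dvd (dvd_add hd he)]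
    ring
  · have h1 := iz_mul hd
    have h2 := iz_mul (p := p) (d := d + e) (by rwa [dvd_add_left he])
    push_cast at h2
    linear_combination (-iz p (d + e)) * h1 + iz p d * h2

theorem iz_cong {c d : ℤ} (hcd : (p : ℤ) ∣ c - d) : (p : ℤ_[p]) ∣ iz p c - iz p d := by
  have h1 := iz_shift d hcd
  rw [add_sub_cancel] at h1
  obtain ⟨k, hk⟩ := hcd
  refine ⟨-(k * iz p d * iz p c), ?_⟩
  rw [hk] at h1
  push_cast at h1
  linear_combination h1

omit hpp in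
theorem nd_lt {d : ℤ} (h0 : 0 < d) (h1 : d < p) : ¬ (p : ℤ) ∣ d := fun k =>
  absurd (Int.le_of_dvd h0 k) (not_le.2 h1)

theorem two_iz (h3 : 3 < p) : 2 * iz p 2 = 1 := by
  simpa using iz_mul (p := p) (d := 2) (nd_lt (by norm_num) (by omega))

theorem four_iz (h3 : 3 < p) : 4 * iz p 4 = 1 := by
  have h1 := iz_mul_iz (p := p) 2 2
  have h2 := two_iz h3
  norm_num at h1
  linear_combination 4 * h1 + (2 * iz p 2 + 1) * h2

theorem iz64 (h3 : 3 < p) : 2 ^ 6 * iz p 64 = 1 := by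
  have h1 := iz_mul_iz (p := p) 4 4
  have h2 := iz_mul_iz (p := p) 4 16
  have h4 := four_iz h3
  norm_num at h1 h2
  rw [h2, h1]
  linear_combination (16 * iz p 4 ^ 2 + 4 * iz p 4 + 1) * h4

theorem ww_mul (h3 : 3 < p) : -3 * ww p = 1 := by
  simpa [ww] using iz_mul (p := p) (d := -3) (by rw [dvd_neg]; exact nd_lt (by norm_num) (by omega))

theorem ww_pow (h3 : 3 < p) (k : ℕ) : (-3) ^ k * ww p ^ k = 1 := by
  rw [← mul_pow, ww_mul h3, one_pow]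

theorem dvd_of_two (h3 : 3 < p) {d x : ℤ_[p]} (hx : d ∣ 2 * x) : d ∣ x := by
  have := hx.mul_left (iz p 2)
  rwa [← mul_assoc, mul_comm (iz p 2), two_iz h3, one_mul] at this

theorem p_ne0 : (p : ℤ_[p]) ≠ 0 := Nat.cast_ne_zero.2 hpp.out.ne_zero

theorem iz_coe {d : ℤ} (hd : ¬ (p : ℤ) ∣ d) : ((iz p d : ℤ_[p]) : ℚ_[p]) = (d : ℚ_[p])⁻¹ := by
  have h1 := congrArg (fun x : ℤ_[p] => (x : ℚ_[p])) (iz_mul hd)
  simp only [PadicInt.coe_mul, PadicInt.coe_intCast, PadicInt.coe_one] at h1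
  exact eq_inv_of_mul_eq_one_right h1

theorem red_p : red p (p : ℤ_[p]) = 0 := by
  rw [map_natCast]
  exact CharP.cast_eq_zero _ p

theorem red_eq_zero {x : ℤ_[p]} : red p x = 0 ↔ (p : ℤ_[p]) ∣ x := by
  refine ⟨fun hx => ?_, fun ⟨y, hy⟩ => by rw [hy, map_mul, red_p, zero_mul]⟩
  by_contra k
  rw [← PadicInt.norm_lt_one_iff_dvd, not_lt] at k
  have hu : IsUnit x := PadicInt.isUnit_iff.2 (le_antisymm (PadicInt.norm_le_one _) k)
  exact (hu.map (red p)).ne_zero hx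

theorem red_eq {x y : ℤ_[p]} : red p x = red p y ↔ (p : ℤ_[p]) ∣ x - y := by
  rw [← red_eq_zero, map_sub, sub_eq_zero]

theorem red_iz (d : ℤ) : red p (iz p d) = (d : KK p)⁻¹ := by
  by_cases hd : (p : ℤ) ∣ d
  · rw [iz_dvd hd, map_zero, (CharP.intCast_eq_zero_iff (KK p) p d).2 hd, inv_zero]
  · have h1 := congrArg (red p) (iz_mul hd)
    rw [map_mul, map_intCast, map_one] at h1
    exact eq_inv_of_mul_eq_one_right h1

theorem toZ_iz (d : ℤ) : PadicInt.toZModPow 3 (iz p d) = io p d := by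
  by_cases hd : (p : ℤ) ∣ d
  · rw [iz_dvd hd, map_zero, io, Ring.inverse_non_unit]
    intro k
    have := (k.map (psi p)).ne_zero
    rw [psi_int] at this
    exact this ((CharP.intCast_eq_zero_iff (KK p) p d).2 hd)
  · have h1 := congrArg (PadicInt.toZModPow 3) (iz_mul hd)
    rw [map_mul, map_intCast, map_one] at h1
    have h2 := io_mul hd
    linear_combination io p d * h1 - PadicInt.toZModPow 3 (iz p d) * h2

theorem Dat.chi_sq (D : Dat p h χ a q lam f) : (χ : ℤ_[p]) ^ 2 = 1 := by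
  rcases D.hχ with ⟨-, rfl⟩ | ⟨-, rfl⟩ <;> simp

theorem Dat.ww_h (D : Dat p h χ a q lam f) : ww p ^ h = χ * (1 + p * a) := by
  linear_combination χ * D.ha - ww p ^ h * D.chi_sq

theorem Dat.f_cong (D : Dat p h χ a q lam f) {o o' : ℕ} (ho : 1 ≤ o) (ho' : 1 ≤ o') :
    (p : ℤ_[p]) * (o - o') ∣ f o - f o' := by
  obtain ⟨e, he⟩ := D.f2 o o' ho ho'
  exact dvd_of_two D.h3 ⟨p * e + a ^ 2, by linear_combination he⟩

/-- Fermat for `ww`. -/
theorem Dat.ww_p (D : Dat p h χ a q lam f) (k : ℕ) : (p : ℤ_[p]) ∣ ww p ^ (p * k) - ww p ^ k := by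
  have h1 : ww p ^ p = ww p * (1 + p * a) ^ 2 := by
    have h2 : ww p ^ p = ww p * (ww p ^ h) ^ 2 := by
      rw [← pow_mul, ← pow_succ', mul_comm h 2, ← D.hp]
    rw [h2, D.ww_h, mul_pow, D.chi_sq, one_mul]
  rw [pow_mul]
  exact dvd_trans ⟨ww p * (2 * a + p * a ^ 2), by rw [h1]; ring⟩ (sub_dvd_pow_sub_pow _ _ k)

end Pool.Agent.Work.MP_096b72_nt.Hedge
end

-- merged part: Pool.Agent.Work.MP_096b72_nt.Hedge.Log
section
/-! The `p`-adic logarithm of a principal unit, without series.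

PLAN. `dvd_of_forall`: if `d = 0` then `p ^ J ∣ x` for all `J`, so `x = 0` (norm at most `p ^ (-J)`); otherwise
`d` is a unit times `p ^ v` (`PadicInt.unitCoeff_spec`), take `J = v`.
`exists_f`: `j.succ.factorial ∣ p ^ j * unit`: there is `c j : ℤ_[p]` with `c j * (j + 1)! = p ^ j`, and `p ^ 2 ∣ c j` for `2 ≤ j`
(valuation of `(j + 1)!` is at most `j / (p - 1) ≤ j / 4`: `sub_one_mul_padicValNat_factorial`; or induction). Put
`f o = ∑ j ∈ range o, c j * a ^ (j + 1) * (o - 1).descFactorial j`; the binomial theorem and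
`(j + 1)! * o.choose (j + 1) = o * (o - 1).descFactorial j` give the first claim (cancel `(j + 1)!`, `ℤ_[p]` is a domain of characteristic zero).
The sum may be extended to any `range M`, `o ≤ M`, for `1 ≤ o`; `descPochhammer` (or an induction on `j` for the product `∏ i < j, (x - i)`) gives
`x - y ∣ desc x j - desc y j`; the terms `j = 0, 1` are explicit (`c 0 = 1`, `2 * c 1 = p`).
`exists_lam`: take `f` for `q`; `f (p ^ J)` is Cauchy (`p ^ (J + 1) ∣ f (p ^ (J + 1)) - f (p ^ J)`, `cauchySeq_of_le_geometric`), `lam` = limit,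
`p ^ (J + 1) ∣ lam - f (p ^ J)` (closed balls are closed; or `PadicInt` is `IsAdicComplete`/`IsPrecomplete`); then for `1 ≤ m`,
`p ^ 2 * m ∣ 2 * (f m - lam) - q ^ 2 * p * m` by `dvd_of_forall`, and `p ∣ lam - q`. -/

set_option autoImplicit false

namespace Pool.Agent.Work.MP_096b72_nt.Hedge

open Finset

variable {p : ℕ} [hpp : Fact p.Prime] {h : ℕ} {χ : ℤ} {a q lam : ℤ_[p]} {f : ℕ → ℤ_[p]}

theorem dvd_of_forall {x d : ℤ_[p]} (hx : ∀ J : ℕ, ∃ e₁ e₂, x = d * e₁ + p ^ J * e₂) : d ∣ x := by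
  rcases eq_or_ne d 0 with rfl | hd
  · by_contra k
    obtain ⟨n, hn⟩ := FiniteMultiplicity.of_not_isUnit (PadicInt.prime_p (p := p)).not_isUnit
      (b := x) fun e => k (by rw [e])
    obtain ⟨e₁, e₂, he⟩ := hx (n + 1)
    exact hn ⟨e₂, by rw [he, zero_mul, zero_add]⟩
  · obtain ⟨e₁, e₂, he⟩ := hx d.valuation
    have h1 := PadicInt.unitCoeff_spec hd
    have h2 := (PadicInt.unitCoeff hd).mul_inv
    exact ⟨e₁ + (PadicInt.unitCoeff hd)⁻¹ * e₂, by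
      linear_combination he - ((PadicInt.unitCoeff hd)⁻¹ : ℤ_[p]ˣ) * e₂ * h1 -
        p ^ d.valuation * e₂ * h2⟩

theorem Log_c (h3 : 3 < p) (j : ℕ) :
    ∃ c : ℤ_[p], c * ((j + 1).factorial : ℕ) = p ^ j ∧ (2 ≤ j → (p : ℤ_[p]) ^ 2 ∣ c) := by
  obtain ⟨v, u, hu, he⟩ := Nat.exists_eq_pow_mul_and_not_dvd (j + 1).factorial_ne_zero p
    hpp.out.ne_one
  have h1 : v ≤ padicValNat p (j + 1).factorial :=
    (padicValNat_dvd_iff_le (j + 1).factorial_ne_zero).1 ⟨u, he⟩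
  have h2 := sub_one_mul_padicValNat_factorial (p := p) (j + 1)
  have h4 : p ≠ 4 := fun k => absurd (k ▸ hpp.out) (by decide)
  have h5 : 4 * v ≤ j + 1 := (Nat.mul_le_mul (by omega) h1).trans (h2.le.trans (Nat.sub_le _ _))
  have h6 := iz_mul (p := p) (d := u) (by exact_mod_cast hu)
  refine ⟨p ^ (j - v) * iz p u, ?_, fun k => (pow_dvd_pow _ (by omega)).mul_right _⟩
  have h7 : (p : ℤ_[p]) ^ j = p ^ (j - v) * p ^ v := by rw [← pow_add, Nat.sub_add_cancel (by omega)]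
  rw [he, h7]
  push_cast at h6 ⊢
  linear_combination (p : ℤ_[p]) ^ (j - v) * p ^ v * h6

theorem Log_desc (o j : ℕ) : (o : ℤ_[p]) * (descPochhammer ℤ_[p] j).eval ((o : ℤ_[p]) - 1) =
    ((j + 1).factorial : ℕ) * (o.choose (j + 1) : ℕ) := by
  rw [← Nat.cast_mul, ← Nat.descFactorial_eq_factorial_mul_choose,
    ← descPochhammer_eval_eq_descFactorial, descPochhammer_succ_left]
  simp

theorem exists_f (h3 : 3 < p) (a : ℤ_[p]) : ∃ f : ℕ → ℤ_[p],
    (∀ o : ℕ, (1 + p * a) ^ o = 1 + p * o * f o) ∧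
    (∀ o o' : ℕ, 1 ≤ o → 1 ≤ o' →
      (p : ℤ_[p]) ^ 2 * (o - o') ∣ 2 * (f o - f o') - a ^ 2 * p * (o - o')) ∧ f 1 = a := by
  choose c h1 h2 using Log_c h3
  let t : ℕ → ℕ → ℤ_[p] := fun o j =>
    c j * a ^ (j + 1) * (descPochhammer ℤ_[p] j).eval ((o : ℤ_[p]) - 1)
  have ht : ∀ o M : ℕ, 1 ≤ o → o ≤ M → ∑ j ∈ range o, t o j = ∑ j ∈ range M, t o j := by
    intro o M ho hM
    refine sum_subset (range_subset_range.2 hM) fun j _ hj => mul_eq_zero_of_right _ ?_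
    have h4 := Log_desc (p := p) o j
    rw [Nat.choose_eq_zero_of_lt (by simp only [mem_range] at hj; omega), Nat.cast_zero,
      mul_zero] at h4
    exact (mul_eq_zero.1 h4).resolve_left (Nat.cast_ne_zero.2 (by omega))
  refine ⟨fun o => ∑ j ∈ range o, t o j, fun o => ?_, fun o o' ho ho' => ?_, ?_⟩
  · rw [add_comm 1, add_pow, sum_range_succ', mul_sum, add_comm 1]
    refine congrArg₂ _ (sum_congr rfl fun j _ => ?_) (by simp)
    simp only [t]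
    linear_combination (-(p * c j * a ^ (j + 1))) * Log_desc (p := p) o j -
      p * a ^ (j + 1) * (o.choose (j + 1) : ℕ) * h1 j
  · have h4 : (p : ℤ_[p]) ^ 2 * (o - o') ∣
        ∑ j ∈ range (o + o'), (t o (j + 1 + 1) - t o' (j + 1 + 1)) := dvd_sum fun j _ => by
      have h5 := Polynomial.sub_dvd_eval_sub ((o : ℤ_[p]) - 1) ((o' : ℤ_[p]) - 1)
        (descPochhammer ℤ_[p] (j + 1 + 1))
      rw [sub_sub_sub_cancel_right] at h5
      rw [← mul_sub]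
      exact mul_dvd_mul ((h2 _ (by omega)).mul_right _) h5
    obtain ⟨e, he⟩ := h4
    have h5 := h1 1
    dsimp only
    rw [ht o (o + o' + 1 + 1) ho (by omega), ht o' (o + o' + 1 + 1) ho' (by omega),
      ← sum_sub_distrib, sum_range_succ', sum_range_succ', he]
    refine ⟨2 * e, ?_⟩
    simp only [t, zero_add, descPochhammer_zero, descPochhammer_one, Polynomial.eval_one,
      Polynomial.eval_X]
    norm_num at h5
    linear_combination a ^ 2 * (o - o') * h5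
  · have h5 := h1 0
    simp only [t, range_one, sum_singleton, descPochhammer_zero, Polynomial.eval_one]
    norm_num at h5
    rw [h5]
    ring

theorem exists_lam (h3 : 3 < p) (q : ℤ_[p]) : ∃ lam : ℤ_[p], (p : ℤ_[p]) ∣ lam - q ∧
    ∀ m : ℕ, (p : ℤ_[p]) * (p * m) ^ 2 ∣
      2 * ((1 + p * q) ^ m - 1 - p * m * lam) - (p * m * lam) ^ 2 := by
  obtain ⟨f, f1, f2, f3⟩ := exists_f h3 q
  have hp : ∀ J : ℕ, 1 ≤ p ^ J := fun J => Nat.one_le_pow _ _ hpp.out.pos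
  have hc : ∀ J : ℕ, IsClosed {x : ℤ_[p] | (p : ℤ_[p]) ^ J ∣ x - f (p ^ J)} := fun J => by
    simp only [← Ideal.mem_span_singleton, ← PadicInt.norm_le_pow_iff_mem_span_pow]
    exact isClosed_le (by fun_prop) continuous_const
  obtain ⟨lam, hl⟩ := IsCompact.nonempty_iInter_of_sequence_nonempty_isCompact_isClosed
    (fun J : ℕ => {x : ℤ_[p] | (p : ℤ_[p]) ^ J ∣ x - f (p ^ J)})
    (fun J x ⟨e, he⟩ => by
      obtain ⟨e', he'⟩ := f2 (p ^ (J + 1)) (p ^ J) (hp _) (hp _)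
      push_cast at he'
      exact dvd_of_two h3 ⟨2 * p * e + (p - 1) * (p ^ 2 * e' + q ^ 2 * p), by
        linear_combination 2 * he + he'⟩)
    (fun J => ⟨f (p ^ J), by simp⟩) (hc 0).isCompact hc
  have h1 : ∀ m : ℕ, 1 ≤ m → (p : ℤ_[p]) ^ 2 * m ∣ 2 * (f m - lam) - q ^ 2 * p * m :=
    fun m hm => dvd_of_forall fun J => by
      obtain ⟨e, he⟩ := f2 m (p ^ J) hm (hp _)
      obtain ⟨e', he'⟩ := Set.mem_iInter.1 hl J
      push_cast at he
      exact ⟨e, -(p ^ 2 * e) - 2 * e' - q ^ 2 * p, by linear_combination he - 2 * he'⟩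
  have h2 : (p : ℤ_[p]) ∣ lam - q := by
    obtain ⟨e, he⟩ := h1 1 le_rfl
    rw [f3, Nat.cast_one] at he
    exact dvd_of_two h3 ⟨-(p * e) - q ^ 2, by linear_combination -he⟩
  refine ⟨lam, h2, fun m => ?_⟩
  rcases Nat.eq_zero_or_pos m with rfl | hm
  · simp
  · obtain ⟨e, he⟩ := h1 m hm
    obtain ⟨e', he'⟩ := h2
    exact ⟨e - e' * (lam + q), by
      rw [f1]
      linear_combination p * m * he - (p * m) ^ 2 * (lam + q) * he'⟩

end Pool.Agent.Work.MP_096b72_nt.Hedge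
end

-- merged part: Pool.Agent.Work.MP_096b72_nt.Hedge.Blk
section
/-! The blocks of the arctangent series and the telescoping lemma.

PLAN. `blk_even`, `blk_odd`: reflect `r ↦ p - 1 - r` (`Finset.sum_range_reflect`), split `range (2 h + 1)` into even and odd indices (`sum_even_odd` of `../Harm.lean`),
`od` vanishes at even arguments, `iz` at multiples of `p`; `ww ^ (A - k) = ww ^ A * (-3) ^ k` (`ww_pow`).
`be_lip`: `(-3) ^ (t + 1) * blk (2 t) = χ * u ^ o * ∑ k < h, (-3) ^ (k + 1) * iz (p o - (2 k + 2))` with `u = 1 + p a`, `o = 2 t + 1` (`D.ww_h`, `D.chi_sq`). For `g o = u ^ o * iz (p o - e)`: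
`u ^ o - u ^ o' ≡ a p (o - o')` modulo `p ^ 2 (o - o')` (for `o' ≤ o`: `u ^ o' * (u ^ (o - o') - 1)`, `D.f1`, `D.f_cong`, `D.f3`; the claim is symmetric) and
`iz (p o - e) - iz (p o' - e) = - p (o - o') iz (..) iz (..) ≡ - p (o - o') iz e ^ 2` (`iz_shift`, `iz_cong`, `iz_neg`). `bo_lip`: the same with `o = 2 (t + 1)`, `e = 2 r + 1`, no `χ`.
`tel`: `Q = p ^ J`; `1 - (-3) ^ Q` is a unit (it is `4` modulo `p` by Fermat: `red`, `frob3`/`ZMod.pow_card`; or `sub_dvd_pow_sub_pow` and induction on `J`), with inverse `c`;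
`ψ s = c * ∑ j < Q, (-3) ^ j * G (s + Q - 1 - j)`. Then `ψ (s + 1) + 3 * ψ s = c * (G (s + Q) - (-3) ^ Q * G s) ≡ G s` modulo `Q`, induction on `s`;
`4 * ∑ j < Q, (-3) ^ j = 1 - (-3) ^ Q` (`geom_sum_mul`), `four_iz`. -/

set_option autoImplicit false

namespace Pool.Agent.Work.MP_096b72_nt.Hedge

open Finset

variable {p : ℕ} [hpp : Fact p.Prime] {h : ℕ} {χ : ℤ} {a q lam : ℤ_[p]} {f : ℕ → ℤ_[p]}

theorem Blk_ww (h3 : 3 < p) (m k : ℕ) : ww p ^ m = ww p ^ (m + k) * (-3) ^ k := by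
  linear_combination (-ww p ^ m) * ww_pow h3 k

theorem Blk_od_even (m : ℕ) : od p (2 * m) = 0 := if_neg (by omega)

theorem Blk_od_odd (m : ℕ) : od p (2 * m + 1) = ww p ^ (m + 1) := by
  rw [od, if_pos (by omega), show (2 * m + 1 + 1) / 2 = m + 1 by omega]

theorem blk_even (hp : p = 2 * h + 1) (h3 : 3 < p) (t : ℕ) : blk p (2 * t) =
    ww p ^ (p * t + h + 1) *
      ∑ k ∈ range h, (-3) ^ (k + 1) * iz p (p * (2 * (t : ℤ) + 1) - (2 * (k : ℤ) + 2)) := by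
  rw [blk, show range p = range (2 * h + 1) by rw [hp], sum_range_succ, sum_even_odd,
    show p * (2 * t) + 2 * h = 2 * (p * t + h) by ring, Blk_od_even, zero_mul, add_zero,
    ← sum_range_reflect, mul_sum]
  refine sum_congr rfl fun k hk => ?_
  obtain ⟨j, hj⟩ := Nat.exists_eq_add_of_lt (mem_range.1 hk)
  rw [show h - 1 - k = j by omega, show p * (2 * t) + 2 * j = 2 * (p * t + j) by ring,
    show p * (2 * t) + (2 * j + 1) = 2 * (p * t + j) + 1 by ring, Blk_od_even, Blk_od_odd,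
    Blk_ww h3 (p * t + j + 1) (k + 1), show p * t + j + 1 + (k + 1) = p * t + h + 1 by omega,
    show ((2 * (p * t + j) + 1 : ℕ) : ℤ) = p * (2 * (t : ℤ) + 1) - (2 * (k : ℤ) + 2) by
      rw [hp, hj]; push_cast; ring]
  ring

theorem blk_odd (hp : p = 2 * h + 1) (h3 : 3 < p) (t : ℕ) : blk p (2 * t + 1) =
    ww p ^ (p * (t + 1)) *
      ∑ r ∈ range h, (-3) ^ r * iz p (2 * p * ((t : ℤ) + 1) - (2 * (r : ℤ) + 1)) := by
  rw [blk, show range p = range (2 * h + 1) by rw [hp], sum_range_succ', sum_even_odd,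
    iz_dvd (d := ((p * (2 * t + 1) + 0 : ℕ) : ℤ)) (by simp), mul_zero, add_zero,
    ← sum_range_reflect, mul_sum]
  refine sum_congr rfl fun k hk => ?_
  obtain ⟨j, hj⟩ := Nat.exists_eq_add_of_lt (mem_range.1 hk)
  rw [show h - 1 - k = j by omega,
    show p * (2 * t + 1) + (2 * j + 1) = 2 * (p * t + h + j + 1) by rw [hp]; ring,
    show p * (2 * t + 1) + (2 * j + 1 + 1) = 2 * (p * t + h + j + 1) + 1 by rw [hp]; ring,
    Blk_od_even, Blk_od_odd, Blk_ww h3 (p * t + h + j + 1 + 1) k,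
    show p * t + h + j + 1 + 1 + k = p * (t + 1) by rw [mul_add]; omega,
    show ((2 * (p * t + h + j + 1) + 1 : ℕ) : ℤ) = 2 * p * ((t : ℤ) + 1) - (2 * (k : ℤ) + 1) by
      rw [hp, hj]; push_cast; ring]
  ring

theorem Blk_lip (D : Dat p h χ a q lam f) {o o' : ℕ} (ho : 1 ≤ o) (ho' : 1 ≤ o') (e : ℤ) :
    (p : ℤ_[p]) ^ 2 * (o - o') ∣ (1 + p * a) ^ o * iz p (p * o - e) -
      (1 + p * a) ^ o' * iz p (p * o' - e) + (a * iz p e + iz p e ^ 2) * p * (o - o') := by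
  obtain ⟨e1, h1⟩ := D.f_cong ho ho'
  obtain ⟨e0, h0⟩ := D.f_cong ho le_rfl
  obtain ⟨e2, h2⟩ := iz_cong (p := p) (c := p * o - e) (d := -e) ⟨o, by ring⟩
  obtain ⟨e3, h3⟩ := iz_cong (p := p) (c := p * o' - e) (d := -e) ⟨o', by ring⟩
  have h4 := iz_shift (p := p) (p * o' - e) (e := p * (o - o')) ⟨_, rfl⟩
  rw [show (p : ℤ) * o' - e + p * (o - o') = p * o - e by ring] at h4
  rw [iz_neg] at h2 h3
  rw [D.f3] at h0
  rw [D.f1, D.f1]
  push_cast at h4 h0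
  generalize iz p (p * o - e) = A at h2 h4 ⊢
  generalize iz p (p * o' - e) = B at h3 h4 ⊢
  generalize iz p e = i at h2 h3 ⊢
  obtain rfl : A = p * e2 - i := by linear_combination h2
  obtain rfl : B = p * e3 - i := by linear_combination h3
  exact ⟨a * e2 + ((o - 1) * e0 + o' * e1) * (p * e2 - i) -
      o' * f o' * ((p * e2 - i) * (p * e3 - i)) + i * (e2 + e3) - p * e2 * e3, by
    linear_combination (p * (o - o') * (p * e2 - i)) * h0 + (p * o' * (p * e2 - i)) * h1 +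
      (1 + p * o' * f o') * h4⟩

theorem be_lip (D : Dat p h χ a q lam f) (t t' : ℕ) : (p : ℤ_[p]) ^ 2 * (t - t') ∣
    (-3) ^ (t + 1) * blk p (2 * t) - (-3) ^ (t' + 1) * blk p (2 * t') -
      sle p h χ a * p * (t - t') := by
  have key : ∀ t : ℕ, (-3) ^ (t + 1) * blk p (2 * t) = ∑ k ∈ range h, χ * (-3) ^ (k + 1) *
      ((1 + p * a) ^ (2 * t + 1) * iz p (p * (2 * t + 1 : ℕ) - (2 * (k : ℤ) + 2))) := by
    intro t
    have e : (-3) ^ (t + 1) * ww p ^ (p * t + h + 1) = χ * (1 + p * a) ^ (2 * t + 1) := by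
      rw [show p * t + h + 1 = t + 1 + h * (2 * t + 1) by rw [D.hp]; ring, pow_add (ww p),
        ← mul_assoc, ww_pow D.h3, pow_mul, D.ww_h, mul_pow, pow_succ (χ : ℤ_[p]), pow_mul,
        D.chi_sq]
      ring
    rw [blk_even D.hp D.h3, ← mul_assoc, e, mul_sum]
    refine sum_congr rfl fun k _ => ?_
    push_cast
    ring
  have e : sle p h χ a = ∑ k ∈ range h, -2 * χ * (-3) ^ (k + 1) *
      (a * iz p (2 * (k : ℤ) + 2) + iz p (2 * (k : ℤ) + 2) ^ 2) := by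
    rw [sle, s2, s2, mul_sum, ← sum_add_distrib, mul_sum]
    exact sum_congr rfl fun k _ => by ring
  rw [key, key, e, sum_mul, sum_mul, ← sum_sub_distrib, ← sum_sub_distrib]
  refine dvd_sum fun k _ => ?_
  obtain ⟨c, hc⟩ := Blk_lip D (o := 2 * t + 1) (o' := 2 * t' + 1) (by omega) (by omega)
    (2 * (k : ℤ) + 2)
  refine ⟨χ * (-3) ^ (k + 1) * (2 * c), ?_⟩
  push_cast at hc ⊢
  linear_combination χ * (-3) ^ (k + 1) * hc

theorem bo_lip (D : Dat p h χ a q lam f) (t t' : ℕ) : (p : ℤ_[p]) ^ 2 * (t - t') ∣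
    (-3) ^ (t + 1) * blk p (2 * t + 1) - (-3) ^ (t' + 1) * blk p (2 * t' + 1) -
      slo p h a * p * (t - t') := by
  have key : ∀ t : ℕ, (-3) ^ (t + 1) * blk p (2 * t + 1) = ∑ k ∈ range h, (-3) ^ k *
      ((1 + p * a) ^ (2 * (t + 1)) * iz p (p * (2 * (t + 1) : ℕ) - (2 * (k : ℤ) + 1))) := by
    intro t
    have e : (-3) ^ (t + 1) * ww p ^ (p * (t + 1)) = (1 + p * a) ^ (2 * (t + 1)) := by
      rw [show p * (t + 1) = t + 1 + h * (2 * (t + 1)) by rw [D.hp]; ring, pow_add (ww p),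
        ← mul_assoc, ww_pow D.h3, pow_mul, D.ww_h, mul_pow, pow_mul (χ : ℤ_[p]), D.chi_sq]
      ring
    rw [blk_odd D.hp D.h3, ← mul_assoc, e, mul_sum]
    refine sum_congr rfl fun k _ => ?_
    rw [show (p : ℤ) * (2 * (t + 1) : ℕ) = 2 * p * ((t : ℤ) + 1) by push_cast; ring]
    ring
  have e : slo p h a = ∑ k ∈ range h, -2 * (-3) ^ k *
      (a * iz p (2 * (k : ℤ) + 1) + iz p (2 * (k : ℤ) + 1) ^ 2) := by
    rw [slo, s1, s1, mul_sum, ← sum_add_distrib, mul_sum]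
    exact sum_congr rfl fun k _ => by ring
  rw [key, key, e, sum_mul, sum_mul, ← sum_sub_distrib, ← sum_sub_distrib]
  refine dvd_sum fun k _ => ?_
  obtain ⟨c, hc⟩ := Blk_lip D (o := 2 * (t + 1)) (o' := 2 * (t' + 1)) (by omega) (by omega)
    (2 * (k : ℤ) + 1)
  refine ⟨(-3) ^ k * (2 * c), ?_⟩
  push_cast at hc ⊢
  linear_combination (-3) ^ k * hc

theorem tel (h3 : 3 < p) {G φ : ℕ → ℤ_[p]} {G₁ : ℤ_[p]}
    (hG : ∀ s s' : ℕ, (p : ℤ_[p]) ^ 2 * (s - s') ∣ G s - G s' - G₁ * p * (s - s'))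
    (h0 : φ 0 = 0) (hs : ∀ s, φ (s + 1) = -3 * φ s + G s) (J : ℕ) :
    ∃ ψ : ℕ → ℤ_[p], (∀ s, (p : ℤ_[p]) ^ J ∣ φ s - (ψ s - (-3) ^ s * ψ 0)) ∧
      ∀ s s' : ℕ, (p : ℤ_[p]) ^ 2 * (s - s') ∣ ψ s - ψ s' - iz p 4 * G₁ * p * (s - s') := by
  obtain ⟨T, T0, T1⟩ : ∃ T : ℕ → ℕ → ℤ_[p], (∀ s, T 0 s = 0) ∧
      ∀ n s, T (n + 1) s = -3 * T n s + G (s + n) :=
    ⟨fun n s => Nat.rec 0 (fun n x => -3 * x + G (s + n)) n, fun _ => rfl, fun _ _ => rfl⟩
  have c1 : ∀ n s, T n (s + 1) + 3 * T n s = G (s + n) - (-3) ^ n * G s := by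
    intro n s
    induction n with
    | zero => simp [T0]
    | succ n ih =>
      rw [T1, T1, show s + 1 + n = s + (n + 1) by ring]
      linear_combination -3 * ih
  have c2 : ∀ n (s s' : ℕ), (p : ℤ_[p]) ^ 2 * (s - s') ∣
      4 * (T n s - T n s') - (1 - (-3) ^ n) * G₁ * p * (s - s') := by
    intro n s s'
    induction n with
    | zero => simp [T0]
    | succ n ih =>
      obtain ⟨x, hx⟩ := ih
      obtain ⟨y, hy⟩ := hG (s + n) (s' + n)
      push_cast at hy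
      exact ⟨-3 * x + 4 * y, by rw [T1, T1]; linear_combination -3 * hx + 4 * hy⟩
  have hd : ¬ (p : ℤ) ∣ 1 - (-3) ^ p ^ J := by
    rw [← ZMod.intCast_zmod_eq_zero_iff_dvd]
    push_cast
    rw [ZMod.pow_card_pow]
    intro k
    have k2 : ((2 : ℤ) : ZMod p) = 0 :=
      pow_eq_zero_iff two_ne_zero |>.1 (by push_cast; linear_combination k)
    exact nd_lt (by norm_num) (by omega) ((ZMod.intCast_zmod_eq_zero_iff_dvd 2 p).1 k2)
  have hc := iz_mul hd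
  push_cast at hc
  generalize iz p (1 - (-3) ^ p ^ J) = c at hc
  refine ⟨fun s => c * T (p ^ J) s, fun s => ?_, fun s s' => ?_⟩
  · induction s with
    | zero => simp [h0]
    | succ s ih =>
      obtain ⟨x, hx⟩ := ih
      obtain ⟨y, hy⟩ := hG (s + p ^ J) s
      push_cast at hy
      exact ⟨-3 * x - c * (p ^ 2 * y + G₁ * p), by
        rw [hs]
        linear_combination -3 * hx - c * c1 (p ^ J) s - c * hy - G s * hc⟩
  · obtain ⟨x, hx⟩ := c2 (p ^ J) s s'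
    exact ⟨c * iz p 4 * x, by
      linear_combination c * iz p 4 * hx - c * (T (p ^ J) s - T (p ^ J) s') * four_iz h3 +
        iz p 4 * G₁ * p * (s - s') * hc⟩

end Pool.Agent.Work.MP_096b72_nt.Hedge
end

-- merged part: Pool.Agent.Work.MP_096b72_nt.Hedge.Harm
section
/-! Harmonic sums over the units.

PLAN. Modulo `p` use `red_eq`, `red_eq_zero`, `red_iz` and the lemmas of `../Harm.lean` (`HH_full`, `H2_full`, `H2_half`, `OO_upper`, `OO_half`; the last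
term `iz p p` vanishes). Periodicity: `H1 (p * l + r) - H1 (p * l) ≡ H1 r` termwise by `iz_cong` (`Finset.sum_range_add`), induction on `l`.
`H1_mul`: with `x = p * m`, reflect `i ↦ x - i` (`Finset.sum_range_reflect`): `iz (x - i) = -iz i - x * iz i * iz (x - i) * (-1)` by `iz_shift`, `iz_neg`, so
`2 * H1 x = x * (sum congruent to - Hb x)` and `p ∣ Hb x`.
`H1_mid`: `x = p * (2 l + 1)`, `L = p l + h`, `x = 2 L + 1`. Let `up d = if p ∣ d then 1 else d`, `F n = ∏ i < n, up (i + 1)`. `up i * (1 - x * iz i) = ε i * up (x - i)`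
and `up (2 i) * (1 - x * iz (2 i)) = ε i * up (x - 2 i)` with `ε i = -1` for units, `1` otherwise; `∏ up (x - i) * F L = F (2 L) = ∏ up (x - 2 i) * ∏ up (2 i)`,
`∏ up (2 i) = 2 ^ (h (2 l + 1)) * F L`. Hence `∏ (1 - x iz i) = (2 ^ (2 h)) ^ (2 l + 1) * ∏ (1 - x iz (2 i))` over `1 ≤ i ≤ L`. Expand both products modulo
`x ^ 3` (induction: `2 ∏ (1 + x b i) ≡ 2 + 2 x ∑ b + x ^ 2 ((∑ b) ^ 2 - ∑ b ^ 2)`), use `Hb_mid`, `D.hq`, `D.l2 (2 l + 1)`, cancel `x`: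
`H / 2 + lam ≡ x (3 H ^ 2 / 8 - lam ^ 2 / 2 + lam H / 2)` modulo `p x`; so `p ∣ H + 2 lam` and the bracket is divisible by `p`.
`pii_mid`: `pii L = 4 H1 x - 5 H1 L` (`O1_eq`, `iz x = 0`). -/

set_option autoImplicit false

namespace Pool.Agent.Work.MP_096b72_nt.Hedge

open Finset

variable {p : ℕ} [hpp : Fact p.Prime] {h : ℕ} {χ : ℤ} {a q lam : ℤ_[p]} {f : ℕ → ℤ_[p]}

omit hpp in
theorem Harm_per {K : Type*} [AddCommMonoid K] (g : ℕ → K) (hg : ∀ i, g (p + i) = g i)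
    (h0 : ∑ i ∈ range p, g i = 0) (l r : ℕ) :
    ∑ i ∈ range (p * l + r), g i = ∑ i ∈ range r, g i := by
  induction l with
  | zero => rw [mul_zero, zero_add]
  | succ l ih =>
    rw [show p * (l + 1) + r = p + (p * l + r) by ring, sum_range_add, h0, zero_add, ← ih]
    exact sum_congr rfl fun i _ => hg i

theorem Harm_H1 (n : ℕ) : red p (H1 p n) = HH (KK p) n := by simp [H1, HH, red_iz]

theorem Harm_O1 (n : ℕ) : red p (O1 p n) = OO (KK p) n := by simp [O1, OO, red_iz]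

theorem Harm_Hb (n : ℕ) : red p (Hb p n) = H2 (KK p) n := by simp [Hb, H2, red_iz]

theorem Harm_cast (i : ℕ) : ((p + i : ℕ) : KK p) = i := by
  rw [Nat.cast_add, CharP.cast_eq_zero, zero_add]

theorem Harm_H2 (hp : p = 2 * h + 1) (h3 : 3 < p) (l r : ℕ) :
    H2 (KK p) (p * l + r) = H2 (KK p) r := by
  refine Harm_per _ (fun i => by rw [Harm_cast]) ?_ l r
  have h1 := H2_full (K := KK p) hp h3
  have h2 := hcast (K := KK p) hp
  rw [congrArg range hp, sum_range_succ]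
  unfold H2 at h1
  rw [h1]
  push_cast
  rw [h2]
  simp

theorem H1_per (hp : p = 2 * h + 1) (h3 : 3 < p) (l r : ℕ) :
    (p : ℤ_[p]) ∣ H1 p (p * l + r) - H1 p r := by
  rw [← red_eq, Harm_H1, Harm_H1]
  refine Harm_per _ (fun i => by rw [Harm_cast]) ?_ l r
  have h1 := HH_succ (K := KK p) (2 * h)
  have h2 := hcast (K := KK p) hp
  rw [HH_full hp h3, ← hp] at h1
  push_cast at h1
  rw [h2, inv_zero, add_zero] at h1
  exact h1

theorem O1_per (hp : p = 2 * h + 1) (h3 : 3 < p) (l r : ℕ) :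
    (p : ℤ_[p]) ∣ O1 p (p * l + r) - O1 p r := by
  rw [← red_eq, Harm_O1, Harm_O1]
  refine Harm_per _ (fun i => by rw [Harm_cast]) ?_ l r
  have h1 := OO_upper (K := KK p) hp h3 h
  have h2 := two_ne (K := KK p) h3
  rw [OO_half hp h3, show h + 1 + h = p by omega] at h1
  refine h1.trans ?_
  field_simp
  ring

theorem pii_per (hp : p = 2 * h + 1) (h3 : 3 < p) (l r : ℕ) :
    (p : ℤ_[p]) ∣ pii p (p * l + r) - pii p r := by
  obtain ⟨e, he⟩ := H1_per hp h3 l r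
  obtain ⟨k, hk⟩ := O1_per hp h3 l r
  exact ⟨4 * k - 3 * e, by unfold pii; linear_combination 4 * hk - 3 * he⟩

theorem Hb_mul (hp : p = 2 * h + 1) (h3 : 3 < p) (l : ℕ) : (p : ℤ_[p]) ∣ Hb p (p * l) := by
  rw [← red_eq_zero, Harm_Hb]
  exact Harm_H2 hp h3 l 0

theorem Hb_mid (hp : p = 2 * h + 1) (h3 : 3 < p) (l : ℕ) : (p : ℤ_[p]) ∣ Hb p (p * l + h) := by
  rw [← red_eq_zero, Harm_Hb, Harm_H2 hp h3, H2_half hp h3]

theorem H1_mul (hp : p = 2 * h + 1) (h3 : 3 < p) (m : ℕ) :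
    (p : ℤ_[p]) * (p * m) ∣ H1 p (p * m) := by
  have hb := Hb_mul hp h3 m
  have hd : (p : ℤ) ∣ ((p * m : ℕ) : ℤ) := by
    push_cast
    exact dvd_mul_right _ _
  have hx : ((((p * m : ℕ) : ℤ)) : ℤ_[p]) = p * m := by push_cast; rfl
  generalize p * m = x at hb hd hx ⊢
  have h1 : ∑ i ∈ range x, iz p (-((i : ℤ) + 1) + x) = H1 p x := by
    have a1 := sum_range_succ (fun i : ℕ => iz p i) x
    rw [sum_range_succ', iz_dvd hd, iz_dvd (d := ((0 : ℕ) : ℤ)) (dvd_zero _), add_zero,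
      add_zero] at a1
    push_cast at a1
    rw [H1, a1, ← sum_range_reflect]
    refine sum_congr rfl fun i hi => ?_
    have := mem_range.1 hi
    congr 1
    omega
  have h2 : (p : ℤ_[p]) ∣ ∑ i ∈ range x, iz p ((i : ℤ) + 1) * iz p (-((i : ℤ) + 1) + x) + Hb p x := by
    rw [Hb, ← sum_add_distrib]
    refine dvd_sum fun i _ => ?_
    obtain ⟨e, he⟩ := iz_cong (c := -((i : ℤ) + 1) + x) (d := -((i : ℤ) + 1)) (by simpa using hd)
    rw [iz_neg] at he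
    exact ⟨iz p ((i : ℤ) + 1) * e, by linear_combination iz p ((i : ℤ) + 1) * he⟩
  have h4 : 2 * H1 p x =
      p * m * ∑ i ∈ range x, iz p ((i : ℤ) + 1) * iz p (-((i : ℤ) + 1) + x) := by
    rw [two_mul, mul_sum]
    nth_rewrite 1 [← h1]
    rw [H1, ← sum_add_distrib]
    refine sum_congr rfl fun i _ => ?_
    have := iz_shift (-((i : ℤ) + 1)) hd
    rw [iz_neg, hx] at this
    linear_combination this
  obtain ⟨e, he⟩ := (dvd_add_left hb).1 h2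
  exact dvd_of_two h3 ⟨e, by rw [h4, he]; ring⟩

theorem O1_eq (L : ℕ) : H1 p (2 * L) = O1 p L + iz p 2 * H1 p L := by
  rw [H1, sum_even_odd, O1, H1, mul_sum, ← sum_add_distrib]
  refine sum_congr rfl fun k _ => ?_
  rw [← iz_mul_iz, show ((2 * k + 1 : ℕ) : ℤ) + 1 = 2 * ((k : ℤ) + 1) by omega,
    show ((2 * k : ℕ) : ℤ) + 1 = 2 * (k : ℤ) + 1 by omega]

theorem Harm_exp {R : Type*} [CommRing R] (x : R) (b : ℕ → R) (n : ℕ) :
    x ^ 3 ∣ 2 * ∏ i ∈ range n, (1 + x * b i) - (2 + 2 * x * ∑ i ∈ range n, b i +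
      x ^ 2 * ((∑ i ∈ range n, b i) ^ 2 - ∑ i ∈ range n, b i ^ 2)) := by
  induction n with
  | zero => simp
  | succ n ih =>
    obtain ⟨e, he⟩ := ih
    simp only [prod_range_succ, sum_range_succ]
    exact ⟨e * (1 + x * b n) + b n * ((∑ i ∈ range n, b i) ^ 2 - ∑ i ∈ range n, b i ^ 2),
      by linear_combination (1 + x * b n) * he⟩

/-- The integer itself if it is prime to `p`, and one otherwise. -/
noncomputable def Harm_up (p : ℕ) [Fact p.Prime] (d : ℤ) : ℤ_[p] := if (p : ℤ) ∣ d then 1 else d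

theorem Harm_up_ne (d : ℤ) : Harm_up p d ≠ 0 := by
  unfold Harm_up
  split_ifs with hd
  · exact one_ne_zero
  · exact (isUnit_cast.2 hd).ne_zero

theorem Harm_up_mul {x : ℤ} (hx : (p : ℤ) ∣ x) (d : ℤ) :
    Harm_up p d * (1 + x * -iz p d) = (if (p : ℤ) ∣ d then 1 else -1) * Harm_up p (x - d) := by
  unfold Harm_up
  by_cases hd : (p : ℤ) ∣ d
  · rw [if_pos hd, if_pos hd, if_pos (dvd_sub hx hd), iz_dvd hd]
    ring
  · rw [if_neg hd, if_neg hd, if_neg (by rwa [dvd_sub_right hx])]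
    push_cast
    linear_combination (-x : ℤ_[p]) * iz_mul hd

theorem Harm_two (h3 : 3 < p) (d : ℤ) : (p : ℤ) ∣ 2 * d ↔ (p : ℤ) ∣ d :=
  ⟨fun k => ((Nat.prime_iff_prime_int.1 hpp.out).dvd_or_dvd k).resolve_left
    (nd_lt (by norm_num) (by omega)), fun k => k.mul_left 2⟩

theorem Harm_up_two (h3 : 3 < p) (d : ℤ) :
    Harm_up p (2 * d) = (if (p : ℤ) ∣ d then 1 else 2) * Harm_up p d := by
  unfold Harm_up
  by_cases hd : (p : ℤ) ∣ d
  · rw [if_pos hd, if_pos hd, if_pos ((Harm_two h3 d).2 hd), one_mul]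
  · rw [if_neg hd, if_neg hd, if_neg fun k => hd ((Harm_two h3 d).1 k)]
    push_cast
    rfl

theorem Harm_pow (n : ℕ) :
    (∏ i ∈ range n, (if (p : ℤ) ∣ (i : ℤ) + 1 then 1 else 2 : ℤ_[p])) * 2 ^ (n / p) = 2 ^ n := by
  induction n with
  | zero => simp
  | succ n ih =>
    have e : (p : ℤ) ∣ (n : ℤ) + 1 ↔ p ∣ n + 1 := by norm_cast
    rw [prod_range_succ, Nat.succ_div, pow_succ (2 : ℤ_[p]) n, ← ih]
    by_cases hd : p ∣ n + 1
    · rw [if_pos hd, if_pos (e.2 hd)]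
      ring
    · rw [if_neg hd, if_neg fun k => hd (e.1 k)]
      ring

theorem Harm_prod (hp : p = 2 * h + 1) (h3 : 3 < p) (l : ℕ) :
    ∏ i ∈ range (p * l + h), (1 + ((p * (2 * l + 1) : ℤ) : ℤ_[p]) * -iz p ((i : ℤ) + 1)) =
      (2 ^ (2 * h)) ^ (2 * l + 1) *
        ∏ i ∈ range (p * l + h), (1 + ((p * (2 * l + 1) : ℤ) : ℤ_[p]) * -iz p (2 * ((i : ℤ) + 1))) := by
  have hT := Harm_pow (p := p) (p * l + h)
  have hdiv : (p * l + h) / p = l := by
    rw [Nat.mul_add_div hpp.out.pos, Nat.div_eq_of_lt (by omega), add_zero]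
  rw [hdiv, show p * l + h = h * (2 * l + 1) + l by rw [hp]; ring, pow_add,
    mul_left_inj' (pow_ne_zero _ two_ne_zero),
    show h * (2 * l + 1) + l = p * l + h by rw [hp]; ring] at hT
  have hx : (p : ℤ) * (2 * l + 1) = 2 * ((p * l + h : ℕ) : ℤ) + 1 := by
    push_cast
    rw [hp]
    push_cast
    ring
  have hd : (p : ℤ) ∣ p * (2 * l + 1) := dvd_mul_right _ _
  generalize (p : ℤ) * (2 * l + 1) = x at hx hd ⊢
  generalize p * l + h = L at hx hT ⊢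
  have a1 := prod_congr (s₁ := range L) rfl fun i _ => Harm_up_mul hd ((i : ℤ) + 1)
  have a2 := prod_congr (s₁ := range L) rfl fun i _ => Harm_up_mul hd (2 * ((i : ℤ) + 1))
  simp only [Harm_up_two h3, Harm_two h3, prod_mul_distrib, hT] at a1 a2
  have b1 : ∏ i ∈ range L, Harm_up p (x - ((i : ℤ) + 1)) =
      ∏ i ∈ range L, Harm_up p (((L + i : ℕ) : ℤ) + 1) := by
    rw [← prod_range_reflect]
    refine prod_congr rfl fun i hi => ?_
    have := mem_range.1 hi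
    congr 1
    omega
  have b2 : ∏ i ∈ range L, Harm_up p (x - 2 * ((i : ℤ) + 1)) =
      ∏ i ∈ range L, Harm_up p (((2 * i : ℕ) : ℤ) + 1) := by
    rw [← prod_range_reflect]
    refine prod_congr rfl fun i hi => ?_
    have := mem_range.1 hi
    congr 1
    omega
  have b3 := prod_even_odd (fun i : ℕ => Harm_up p ((i : ℤ) + 1)) L
  have b4 : ∀ i : ℕ, (((2 * i + 1 : ℕ) : ℤ) + 1) = 2 * ((i : ℤ) + 1) := fun i => by omega
  rw [two_mul L, prod_range_add] at b3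
  simp only [b4, Harm_up_two h3, prod_mul_distrib, hT] at b3
  rw [← b1, ← b2] at b3
  have hF : ∏ i ∈ range L, Harm_up p ((i : ℤ) + 1) ≠ 0 := prod_ne_zero_iff.2 fun i _ => Harm_up_ne _
  have e : ((2 : ℤ_[p]) ^ (2 * h)) ^ (2 * l + 1) = (2 ^ (h * (2 * l + 1))) ^ 2 := by ring
  rw [e]
  refine mul_left_cancel₀ hF (mul_left_cancel₀ hF ?_)
  linear_combination (∏ i ∈ range L, Harm_up p ((i : ℤ) + 1)) * a1 -
    (∏ i ∈ range L, Harm_up p ((i : ℤ) + 1)) * 2 ^ (h * (2 * l + 1)) * a2 +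
    (∏ i ∈ range L, (if (p : ℤ) ∣ (i : ℤ) + 1 then 1 else -1 : ℤ_[p])) * b3

theorem H1_mid (D : Dat p h χ a q lam f) (l : ℕ) :
    (p : ℤ_[p]) * (p * (2 * l + 1)) ∣ H1 p (p * l + h) + 2 * lam := by
  have h0 := Harm_prod D.hp D.h3 l
  obtain ⟨e1, h1⟩ := Harm_exp ((p * (2 * l + 1) : ℤ) : ℤ_[p]) (fun i => -iz p ((i : ℤ) + 1)) (p * l + h)
  obtain ⟨e2, h2⟩ :=
    Harm_exp ((p * (2 * l + 1) : ℤ) : ℤ_[p]) (fun i => -iz p (2 * ((i : ℤ) + 1))) (p * l + h)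
  obtain ⟨e3, h3⟩ := D.l2 (2 * l + 1)
  obtain ⟨e4, h4⟩ := Hb_mid D.hp D.h3 l
  have hj := two_iz D.h3
  rw [D.hq] at h0
  rw [h0] at h1
  generalize ∏ i ∈ range (p * l + h),
    (1 + ((p * (2 * l + 1) : ℤ) : ℤ_[p]) * -iz p (2 * ((i : ℤ) + 1))) = B at h1 h2
  simp only [iz_mul_iz, neg_sq, mul_pow, sum_neg_distrib, ← mul_sum] at h1 h2
  rw [← H1, ← Hb, h4] at h1 h2
  push_cast at h1 h2 h3
  have hm : (2 * (l : ℤ_[p]) + 1) ≠ 0 := by exact_mod_cast Nat.succ_ne_zero (2 * l)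
  generalize (1 + (p : ℤ_[p]) * q) ^ (2 * l + 1) = G at h1 h3
  generalize H1 p (p * l + h) = H at h1 h2 ⊢
  generalize 2 * (l : ℤ_[p]) + 1 = m at h1 h2 h3 hm ⊢
  generalize iz p 2 = j at h2 hj
  have key : -4 * H - 4 * lam + 4 * j * H +
      p * m * (2 * H ^ 2 - 2 * lam ^ 2 + 4 * j * lam * H - 2 * j ^ 2 * H ^ 2) +
      p * (p * m) * (2 * (m * e1 - e4) - (m * e2 - j ^ 2 * e4) * (2 * G) -
        e3 * (2 - 2 * (p * m) * j * H + (p * m) ^ 2 * j ^ 2 * H ^ 2) -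
        m * (2 * lam * j ^ 2 * H ^ 2 - 2 * j * H * lam ^ 2 + p * m * lam ^ 2 * j ^ 2 * H ^ 2)) = 0 := by
    refine mul_left_cancel₀ (mul_ne_zero p_ne0 hm) ?_
    linear_combination -2 * h1 + 2 * G * h2 +
      (2 - 2 * (p * m) * j * H + (p * m) ^ 2 * j ^ 2 * H ^ 2) * h3
  generalize 2 * (m * e1 - e4) - (m * e2 - j ^ 2 * e4) * (2 * G) -
    e3 * (2 - 2 * (p * m) * j * H + (p * m) ^ 2 * j ^ 2 * H ^ 2) -
    m * (2 * lam * j ^ 2 * H ^ 2 - 2 * j * H * lam ^ 2 + p * m * lam ^ 2 * j ^ 2 * H ^ 2) = W at key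
  obtain ⟨k, hk⟩ : (p : ℤ_[p]) ∣ H + 2 * lam := dvd_of_two D.h3
    ⟨m * (2 * H ^ 2 - 2 * lam ^ 2 + 4 * j * lam * H - 2 * j ^ 2 * H ^ 2) + p * m * W,
      by linear_combination -key + 2 * H * hj⟩
  refine dvd_of_two D.h3 (dvd_of_two D.h3 ⟨k * (3 * H - 2 * lam) + 2 * W, ?_⟩)
  linear_combination -2 * key + (4 * H + p * m * (4 * lam * H - (2 * j + 1) * H ^ 2)) * hj +
    p * m * (3 * H - 2 * lam) * hk

theorem pii_mid (D : Dat p h χ a q lam f) (l : ℕ) :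
    (p : ℤ_[p]) * (p * (2 * l + 1)) ∣ pii p (p * l + h) - 10 * lam := by
  obtain ⟨e, he⟩ := H1_mid D l
  obtain ⟨k, hk⟩ := H1_mul D.hp D.h3 (2 * l + 1)
  have h1 := O1_eq (p := p) (p * l + h)
  have hx : p * (2 * l + 1) = 2 * (p * l + h) + 1 := by
    have := D.hp
    nlinarith
  have h2 : H1 p (p * (2 * l + 1)) = H1 p (2 * (p * l + h)) := by
    have hd : (p : ℤ) ∣ ((2 * (p * l + h) : ℕ) : ℤ) + 1 := by
      exact_mod_cast hx ▸ dvd_mul_right p (2 * l + 1)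
    rw [hx, H1, sum_range_succ, iz_dvd hd, add_zero, H1]
  push_cast at hk
  refine ⟨4 * k - 5 * e, ?_⟩
  unfold pii
  linear_combination 4 * hk - 5 * he - 4 * h2 - 4 * h1 - 2 * H1 p (p * l + h) * two_iz D.h3

end Pool.Agent.Work.MP_096b72_nt.Hedge
end

-- merged part: Pool.Agent.Work.MP_096b72_nt.Hedge.Bin
section
/-! The binomial relation.

PLAN. `M = p m`, `R k = ∏ i < k, (1 - M * iz (i + 1))`, `M ^ 2 ∣ R k - (1 - M * H1 k)` (induction). With `c k = (-1) ^ k * (M - 1).choose k` and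
`b l = (-1) ^ l * (m - 1).choose l` one has `(k + 1) c (k + 1) = (k + 1 - M) c k` (`Nat.choose_succ_right_eq`, valid for `k < M`), hence by induction on `k < M`
`c k = b (k / p) * R k` (if `p ∣ k + 1 = p (l + 1)` cancel `p (l + 1) ≠ 0`). `k * M.choose k = M * (M - 1).choose (k - 1)` (`Nat.add_one_mul_choose_eq`).
`choose_unit`: multiply by `iz k`. `choose_mul`: `l * M.choose (p l) = l * m.choose l * R (p l - 1)`, `R (p l - 1) = R (p l)`, `H1_mul`, `l * m.choose l = m * (m - 1).choose (l - 1)`.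
`bin_rel`: `Od M = ∑ l < m, ∑ r < p, choose M (p l + r + 1) * od (p l + r + 1)` (`od 0 = 0`, `sum_blocks`); `od (p l) = χ * od l * (1 + p l f l)` (for odd `l`,
`(p l + 1) / 2 = h l + (l + 1) / 2`, `D.ww_h`, `D.f1`, `χ ^ l = χ`); so modulo `M ^ 2` the difference `Od M - χ Od m` is `M ∑ l < m, b l * (T (l + 1) - T l)` with
`T l = Th l + χ od l f l` (`od (l + 1) * (-1) ^ l = od (l + 1)`, `od k * (-1) ^ (k - 1) = od k`); summation by parts with
`b (l - 1) - b l = - (-1) ^ l * m.choose l`, `b m = 0`, `T 0 = 0` (induction on the upper limit). -/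

set_option autoImplicit false

namespace Pool.Agent.Work.MP_096b72_nt.Hedge

open Finset

variable {p : ℕ} [hpp : Fact p.Prime] {h : ℕ} {χ : ℤ} {a q lam : ℤ_[p]} {f : ℕ → ℤ_[p]}

theorem Bin_R (M : ℤ_[p]) (k : ℕ) :
    ∃ t, ∏ i ∈ range k, (1 - M * iz p ((i : ℤ) + 1)) = 1 - M * H1 p k + M ^ 2 * t := by
  induction k with
  | zero => exact ⟨0, by simp [H1]⟩
  | succ k ih =>
    obtain ⟨t, e⟩ := ih
    rw [prod_range_succ, e, H1, H1, sum_range_succ]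
    exact ⟨t * (1 - M * iz p (k + 1)) + (∑ i ∈ range k, iz p (i + 1)) * iz p (k + 1), by ring⟩

theorem Bin_step {n k : ℕ} (hk : k < n) : ((k : ℤ_[p]) + 1) * ((n - 1).choose (k + 1) : ℤ_[p]) =
    (n - (k + 1)) * ((n - 1).choose k : ℤ_[p]) := by
  have := congrArg (Nat.cast : ℕ → ℤ_[p]) (Nat.choose_succ_right_eq (n - 1) k)
  rw [Nat.sub_sub, Nat.cast_mul, Nat.cast_mul, Nat.cast_sub (by omega)] at this
  push_cast at this
  linear_combination this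

theorem Bin_abs {n : ℕ} (hn : 0 < n) (k : ℕ) :
    ((k : ℤ_[p]) + 1) * (n.choose (k + 1) : ℤ_[p]) = n * ((n - 1).choose k : ℤ_[p]) := by
  obtain ⟨n, rfl⟩ := Nat.exists_eq_add_one_of_ne_zero hn.ne'
  have := congrArg (Nat.cast : ℕ → ℤ_[p]) (Nat.add_one_mul_choose_eq n k)
  rw [Nat.add_sub_cancel]
  push_cast at this ⊢
  linear_combination -this

theorem Bin_c {m k : ℕ} (hk : k < p * m) : (-1) ^ k * ((p * m - 1).choose k : ℤ_[p]) =
    (-1) ^ (k / p) * ((m - 1).choose (k / p) : ℤ_[p]) *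
      ∏ i ∈ range k, (1 - (p : ℤ_[p]) * m * iz p ((i : ℤ) + 1)) := by
  induction k with
  | zero => simp
  | succ k ih =>
    have h1 := ih (by omega)
    have h2 := Bin_step (p := p) (by omega : k < p * m)
    refine mul_left_cancel₀ (Nat.cast_add_one_ne_zero k) ?_
    rw [prod_range_succ]
    generalize ∏ i ∈ range k, (1 - (p : ℤ_[p]) * m * iz p ((i : ℤ) + 1)) = R at *
    push_cast at h2
    by_cases hd : p ∣ k + 1
    · have h3 := Bin_step (p := p) (Nat.div_lt_of_lt_mul (by omega : k < p * m))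
      have h4 := congrArg (Nat.cast : ℕ → ℤ_[p]) (Nat.mul_div_cancel' hd)
      rw [iz_dvd (by exact_mod_cast hd)]
      rw [Nat.succ_div_of_dvd hd] at h4 ⊢
      push_cast at h4
      linear_combination -(-1) ^ k * h2 - (p * m - (k + 1)) * h1 + (-1) ^ (k / p) * R * p * h3 -
        (-1) ^ (k / p) * R * (((m - 1).choose (k / p + 1) : ℤ_[p]) + (m - 1).choose (k / p)) * h4
    · have h3 := iz_mul (p := p) (d := k + 1) (by exact_mod_cast hd)
      rw [Nat.succ_div_of_not_dvd hd]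
      push_cast at h3
      linear_combination -(-1) ^ k * h2 - (p * m - (k + 1)) * h1 +
        (-1) ^ (k / p) * R * ((m - 1).choose (k / p) : ℤ_[p]) * (p * m) * h3

theorem Bin_od (k : ℕ) : od p (k + 1) * (-1) ^ k = od p (k + 1) := by
  rw [od]
  split_ifs with e
  · rw [Even.neg_one_pow (Nat.even_iff.2 (by omega)), mul_one]
  · exact zero_mul _

theorem Bin_odp (D : Dat p h χ a q lam f) (l : ℕ) :
    od p (p * l) = χ * od p l * (1 + p * l * f l) := by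
  have e : p * l = 2 * (h * l) + l := by rw [D.hp]; ring
  rw [od, od, e]
  by_cases hl : l % 2 = 1
  · have h1 : (χ : ℤ_[p]) ^ l = χ := by
      rw [← Nat.div_add_mod l 2, pow_add, pow_mul, D.chi_sq, one_pow, hl, one_mul, pow_one]
    rw [if_pos hl, if_pos (by omega), show (2 * (h * l) + l + 1) / 2 = h * l + (l + 1) / 2 by omega,
      pow_add, pow_mul, D.ww_h, mul_pow, D.f1, h1]
    ring
  · rw [if_neg hl, if_neg (by omega), mul_zero, zero_mul]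

theorem choose_unit (hp : p = 2 * h + 1) {m l r : ℕ} (hl : l < m) (hr : 0 < r) (hr' : r < p) :
    ((p : ℤ_[p]) * m) ^ 2 ∣ ((p * m).choose (p * l + r) : ℤ_[p]) -
      (-1) ^ (p * l + r - 1) * (p * m) * iz p ((p * l + r : ℕ) : ℤ) *
        ((-1) ^ l * ((m - 1).choose l : ℤ_[p])) := by
  obtain ⟨r, rfl⟩ := Nat.exists_eq_add_one_of_ne_zero hr.ne'
  have h0 : p * l + r < p * m := by nlinarith
  have h1 := Bin_c h0
  have h2 := Bin_abs (p := p) (by omega : 0 < p * m) (p * l + r)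
  have h3 := iz_mul (p := p) (d := (p * l + (r + 1) : ℕ)) fun e => by
    have := (Nat.dvd_add_right (dvd_mul_right p l)).1 (Int.natCast_dvd_natCast.1 e)
    exact (Nat.le_of_dvd hr this).not_gt hr'
  obtain ⟨t, e⟩ := Bin_R ((p : ℤ_[p]) * (m : ℤ_[p])) (p * l + r)
  have h4 : ((-1 : ℤ_[p]) ^ (p * l + r)) ^ 2 = 1 := by rw [← pow_mul, mul_comm, pow_mul]; simp
  rw [e, Nat.mul_add_div (by omega), Nat.div_eq_of_lt (by omega : r < p), add_zero] at h1
  rw [show p * l + (r + 1) - 1 = p * l + r from rfl]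
  generalize iz p _ = z at *
  rw [← add_assoc] at *
  push_cast at h2 h3
  exact ⟨(-1) ^ (p * l + r) * z * ((-1) ^ l * ((m - 1).choose l : ℤ_[p])) *
    (p * m * t - H1 p (p * l + r)), by
      linear_combination z * h2 - ((p * m).choose (p * l + r + 1) : ℤ_[p]) * h3 +
        (-1) ^ (p * l + r) * z * (p * m) * h1 -
        z * (p * m) * ((p * m - 1).choose (p * l + r) : ℤ_[p]) * h4⟩

theorem choose_mul (hp : p = 2 * h + 1) (h3 : 3 < p) {m l : ℕ} (hl : l ≤ m) :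
    ((p : ℤ_[p]) * m) ^ 2 ∣ ((p * m).choose (p * l) : ℤ_[p]) - (m.choose l : ℤ_[p]) := by
  rcases l with _ | l
  · simp
  have e0 : p * (l + 1) = p * l + 2 * h + 1 := by rw [mul_add, mul_one, add_assoc, ← hp]
  have h0 : p * l + 2 * h < p * m := by nlinarith
  have h1 := Bin_c h0
  have h2 := Bin_abs (p := p) (by omega : 0 < p * m) (p * l + 2 * h)
  have h4 := Bin_abs (p := p) (by omega : 0 < m) l
  have h5 := congrArg (Nat.cast : ℕ → ℤ_[p]) e0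
  obtain ⟨t, e⟩ := Bin_R ((p : ℤ_[p]) * (m : ℤ_[p])) (p * (l + 1))
  obtain ⟨s, hs⟩ := H1_mul hp h3 (l + 1)
  rw [hs, e0, prod_range_succ, iz_dvd (d := (p * l + 2 * h : ℕ) + 1) ⟨l + 1, by exact_mod_cast e0.symm⟩,
    mul_zero, sub_zero, mul_one] at e
  rw [Nat.mul_add_div (by omega), Nat.div_eq_of_lt (by omega : 2 * h < p), add_zero, pow_add, pow_mul,
    Odd.neg_one_pow ⟨h, hp⟩, Even.neg_one_pow (even_two_mul h), mul_one, mul_assoc] at h1
  have h6 := mul_left_cancel₀ (pow_ne_zero l (neg_ne_zero.2 one_ne_zero)) h1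
  rw [← e0] at h2
  generalize ∏ i ∈ range (p * l + 2 * h), (1 - (p : ℤ_[p]) * m * iz p ((i : ℤ) + 1)) = R at e h6
  push_cast at h2 h5 e
  have h7 : ((p * m).choose (p * (l + 1)) : ℤ_[p]) = m.choose (l + 1) * R :=
    mul_left_cancel₀ (mul_ne_zero p_ne0 (Nat.cast_add_one_ne_zero l)) (by
      linear_combination h2 + ((p * m).choose (p * (l + 1)) : ℤ_[p]) * h5 + p * m * h6 - p * R * h4)
  exact ⟨m.choose (l + 1) * t - p * s * (m - 1).choose l, by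
    linear_combination h7 + (m.choose (l + 1) : ℤ_[p]) * e - p ^ 3 * m * s * h4⟩

theorem bin_rel (D : Dat p h χ a q lam f) {m : ℕ} (hm : 1 ≤ m) : ((p : ℤ_[p]) * m) ^ 2 ∣
    Od p (p * m) - χ * Od p m + p * m * ∑ l ∈ range (m + 1),
      (-1) ^ l * (m.choose l : ℤ_[p]) * (Th p χ f l + χ * od p l * f l) := by
  have key : ∀ n ≤ m, ((p : ℤ_[p]) * m) ^ 2 ∣
      ∑ k ∈ range (p * n + 1), ((p * m).choose k : ℤ_[p]) * od p k -
        χ * ∑ k ∈ range (n + 1), (m.choose k : ℤ_[p]) * od p k + p * m * ∑ l ∈ range (n + 1),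
          (-1) ^ l * (m.choose l : ℤ_[p]) * (Th p χ f l + χ * od p l * f l) -
        p * m * ((-1) ^ n * ((m - 1).choose n : ℤ_[p])) * (Th p χ f n + χ * od p n * f n) := by
    intro n hn
    induction n with
    | zero => simp [od, Th]
    | succ n ih =>
      have e0 : p * (n + 1) = p * n + 1 + 2 * h := by rw [mul_add, mul_one, add_assoc, D.hp, add_comm 1]
      have h1 : ((p : ℤ_[p]) * m) ^ 2 ∣
          ∑ r ∈ range (2 * h), ((p * m).choose (p * n + 1 + r) : ℤ_[p]) * od p (p * n + 1 + r) -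
            p * m * ((-1) ^ n * ((m - 1).choose n : ℤ_[p])) * blk p n := by
        have : blk p n = ∑ r ∈ range (2 * h),
            od p (p * n + (r + 1)) * iz p ((p * n + (r + 1) : ℕ) : ℤ) := by
          rw [blk, congrArg range D.hp, sum_range_succ', iz_dvd (d := (p * n + 0 : ℕ)) ⟨n, by simp⟩,
            mul_zero, add_zero]
        rw [this, mul_sum, ← sum_sub_distrib]
        refine dvd_sum fun r hr => ?_
        obtain ⟨t, e⟩ := choose_unit D.hp (m := m) (l := n) hn r.succ_pos (by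
          have := D.hp
          have := mem_range.1 hr
          omega)
        have h2 := Bin_od (p := p) (p * n + r)
        rw [show p * n + 1 + r = p * n + (r + 1) by omega]
        rw [show p * n + r.succ - 1 = p * n + r from rfl] at e
        exact ⟨t * od p (p * n + (r + 1)), by
          linear_combination od p (p * n + (r + 1)) * e + p * m * iz p ((p * n + (r + 1) : ℕ) : ℤ) *
            ((-1) ^ n * ((m - 1).choose n : ℤ_[p])) * h2⟩
      obtain ⟨t1, e1⟩ := ih (by omega)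
      obtain ⟨t2, e2⟩ := h1
      obtain ⟨t3, e3⟩ := choose_mul D.hp D.h3 hn
      have h2 := Bin_odp D (n + 1)
      have h3 := Bin_od (p := p) n
      have h4 := Bin_abs (p := p) hm n
      have h5 : (m.choose (n + 1) : ℤ_[p]) = (m - 1).choose n + (m - 1).choose (n + 1) := by
        exact_mod_cast (Nat.sub_add_cancel hm ▸ Nat.choose_succ_succ' (m - 1) n :)
      have h6 : Th p χ f (n + 1) = Th p χ f n + (blk p n + χ * od p n * f n) := sum_range_succ _ _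
      rw [sum_range_succ _ (p * (n + 1)), congrArg range e0, sum_range_add, sum_range_succ _ (n + 1),
        sum_range_succ _ (n + 1), h6]
      push_cast at h2
      exact ⟨t1 + t2 + t3 * od p (p * (n + 1)), by
        linear_combination e1 + e2 + od p (p * (n + 1)) * e3 + (m.choose (n + 1) : ℤ_[p]) * h2 +
          p * χ * od p (n + 1) * f (n + 1) * h4 -
          p * m * χ * f (n + 1) * ((m - 1).choose n : ℤ_[p]) * h3 - p * m * (-1) ^ n *
            (Th p χ f n + (blk p n + χ * od p n * f n) + χ * od p (n + 1) * f (n + 1)) * h5⟩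
  have := key m le_rfl
  rwa [Nat.choose_eq_zero_of_lt (by omega : m - 1 < m), Nat.cast_zero, mul_zero, mul_zero, zero_mul,
    sub_zero] at this

end Pool.Agent.Work.MP_096b72_nt.Hedge
end

-- merged part: Pool.Agent.Work.MP_096b72_nt.Hedge.OdEv
section
/-! Closed forms of the binomial sums.

PLAN. `ev (k + 1) = od k`, `od (k + 1) = ww * ev k`, so by Pascal (`Finset.sum_choose_succ_mul` or `Finset.sum_range_succ'`) `Ev (m + 1) = Ev m + Od m` and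
`Od (m + 1) = Od m + ww * Ev m`. With `-3 * ww = 1`: six steps multiply the pair by `64 * ww ^ 3`. `Od 0 = 0`, `Ev 0 = 1`, `Od 1 = ww`, `Od 5 = 16 * ww ^ 3`.
`Od_cop`: induction on `M / 6`. `alt_eval`: split the sum; `∑ (-1) ^ l choose m l = 0` (`Int.alternating_sum_range_choose_of_ne`), `(-1) ^ l * ev l = ev l`,
`(-1) ^ l * od l = - od l`, `l * m.choose l = m * (m - 1).choose (l - 1)`. -/

set_option autoImplicit false

namespace Pool.Agent.Work.MP_096b72_nt.Hedge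

open Finset

variable {p : ℕ} [hpp : Fact p.Prime] {h : ℕ} {χ : ℤ} {a q lam : ℤ_[p]} {f : ℕ → ℤ_[p]}

theorem OdEv_ev (k : ℕ) : ev p (k + 1) = od p k := by
  unfold ev od
  exact if_congr (by omega) rfl rfl

theorem OdEv_od (k : ℕ) : od p (k + 1) = ww p * ev p k := by
  unfold ev od
  by_cases hk : k % 2 = 0
  · rw [if_pos hk, if_pos (by omega), show (k + 1 + 1) / 2 = k / 2 + 1 by omega, pow_succ']
  · rw [if_neg hk, if_neg (by omega), mul_zero]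

theorem OdEv_Ev (m : ℕ) : Ev p (m + 1) = Ev p m + Od p m := by
  have h1 := Finset.sum_choose_succ_mul (fun i _ => ev p i) m
  simp only [OdEv_ev] at h1
  exact h1

theorem OdEv_Od (m : ℕ) : Od p (m + 1) = Od p m + ww p * Ev p m := by
  have h1 := Finset.sum_choose_succ_mul (fun i _ => od p i) m
  simp only [OdEv_od] at h1
  rw [Ev, mul_sum]
  refine h1.trans ?_
  rw [Od]
  exact congrArg _ (sum_congr rfl fun i _ => by ring)

theorem OdEv_six (h3 : 3 < p) (j : ℕ) :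
    Od p (6 * j) = 0 ∧ Ev p (6 * j) = (64 * ww p ^ 3) ^ j := by
  have hw := ww_mul h3
  induction j with
  | zero => simp [Od, Ev, od, ev]
  | succ j ih =>
    obtain ⟨h1, h2⟩ := ih
    rw [show 6 * (j + 1) = 6 * j + 1 + 1 + 1 + 1 + 1 + 1 by ring, pow_succ, ← h2]
    simp only [OdEv_Ev, OdEv_Od, h1]
    exact ⟨by linear_combination (-((2 * ww p + 6) * ww p * Ev p (6 * j))) * hw,
      by linear_combination (-((-21 * ww p ^ 2 + 12 * ww p + 1) * Ev p (6 * j))) * hw⟩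

theorem Od_six (h3 : 3 < p) (j : ℕ) : Od p (6 * j) = 0 := by
  exact (OdEv_six h3 j).1

theorem Ev_six (h3 : 3 < p) (j : ℕ) : IsUnit (Ev p (6 * j)) := by
  rw [(OdEv_six h3 j).2]
  have hw : IsUnit (ww p) := IsUnit.of_mul_eq_one_right _ (ww_mul h3)
  have h2 : IsUnit (64 : ℤ_[p]) := IsUnit.of_mul_eq_one (iz p 64) (by linear_combination iz64 h3)
  exact (h2.mul (hw.pow 3)).pow j

theorem Od_cop (h3 : 3 < p) {M : ℕ} (hM : M % 6 = 1 ∨ M % 6 = 5) :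
    Od p M = ww p ^ ((M + 1) / 2) * 2 ^ (M - 1) := by
  have hw := ww_mul h3
  obtain ⟨h1, h2⟩ := OdEv_six h3 (M / 6)
  have h4 : (64 * ww p ^ 3) ^ (M / 6) = ww p ^ (3 * (M / 6)) * 2 ^ (6 * (M / 6)) := by
    rw [pow_mul, pow_mul, ← mul_pow, mul_comm]
    norm_num
  rw [h4] at h2
  rcases hM with hM | hM
  · rw [show (M + 1) / 2 = 3 * (M / 6) + 1 by omega, show M - 1 = 6 * (M / 6) by omega]
    have h5 := OdEv_Od (p := p) (6 * (M / 6))
    rw [show 6 * (M / 6) + 1 = M by omega, h1, h2] at h5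
    rw [h5]
    ring
  · rw [show (M + 1) / 2 = 3 * (M / 6) + 3 by omega, show M - 1 = 6 * (M / 6) + 4 by omega]
    have h5 : Od p (6 * (M / 6) + 1 + 1 + 1 + 1 + 1) = 16 * ww p ^ 3 * Ev p (6 * (M / 6)) := by
      simp only [OdEv_Ev, OdEv_Od, h1]
      linear_combination (-(5 * (1 - ww p) * ww p * Ev p (6 * (M / 6)))) * hw
    rw [show 6 * (M / 6) + 1 + 1 + 1 + 1 + 1 = M by omega, h2] at h5
    rw [h5]
    ring

omit hpp in
theorem pow_mod_six (hp : p.Prime) (h3 : 3 < p) (J : ℕ) : p ^ J % 6 = 1 ∨ p ^ J % 6 = 5 := by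
  have h2 : p % 2 = 1 := hp.eq_two_or_odd.resolve_left (by omega)
  have h4 : p % 3 ≠ 0 := fun k => by
    have := (Nat.prime_dvd_prime_iff_eq Nat.prime_three hp).1 (Nat.dvd_of_mod_eq_zero k)
    omega
  have h6 : p % 6 = 1 ∨ p % 6 = 5 := by omega
  induction J with
  | zero => simp
  | succ J ih =>
    rw [pow_succ, Nat.mul_mod]
    rcases ih with ih | ih <;> rcases h6 with h6 | h6 <;> simp [ih, h6]

theorem alt_eval {T : ℕ → ℤ_[p]} {C Ω d : ℤ_[p]} {m : ℕ} (hm : 1 ≤ m)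
    (hT : ∀ l : ℕ, ∃ e₁ e₂, T l = -C + ev p l * C + od p l * Ω + p * l * e₁ + d * e₂) :
    ∃ e₁ e₂, ∑ l ∈ range (m + 1), (-1) ^ l * (m.choose l : ℤ_[p]) * T l =
      C * Ev p m - Ω * Od p m + p * m * e₁ + d * e₂ := by
  choose e₁ e₂ he using hT
  have hc : ∀ l : ℕ, ∃ c : ℕ, m.choose l * l = m * c := by
    intro l
    obtain ⟨n, rfl⟩ : ∃ n, m = n + 1 := ⟨m - 1, by omega⟩
    cases l with
    | zero => exact ⟨0, by simp⟩
    | succ l => exact ⟨_, (Nat.add_one_mul_choose_eq n l).symm⟩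
  choose c hc using hc
  have h0 : ∑ l ∈ range (m + 1), (-1) ^ l * (m.choose l : ℤ_[p]) = 0 := by
    have := congrArg (Int.cast : ℤ → ℤ_[p]) (Int.alternating_sum_range_choose_of_ne (n := m) (by omega))
    push_cast at this
    exact this
  refine ⟨∑ l ∈ range (m + 1), (-1) ^ l * c l * e₁ l,
    ∑ l ∈ range (m + 1), (-1) ^ l * (m.choose l : ℤ_[p]) * e₂ l, ?_⟩
  have h1 : ∑ l ∈ range (m + 1), (-1) ^ l * (m.choose l : ℤ_[p]) * T l =
      ∑ l ∈ range (m + 1), (-C * ((-1) ^ l * (m.choose l : ℤ_[p])) + (C * (m.choose l * ev p l) -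
        Ω * (m.choose l * od p l) + p * m * ((-1) ^ l * c l * e₁ l) +
        d * ((-1) ^ l * (m.choose l : ℤ_[p]) * e₂ l))) := by
    refine sum_congr rfl fun l _ => ?_
    have h2 : ((m.choose l : ℤ_[p])) * l = m * c l := by exact_mod_cast congrArg (Nat.cast : ℕ → ℤ_[p]) (hc l)
    have h4 : (-1 : ℤ_[p]) ^ l * ev p l = ev p l ∧ (-1 : ℤ_[p]) ^ l * od p l = -od p l := by
      unfold ev od
      rcases Nat.even_or_odd l with hl | hl
      · rw [hl.neg_one_pow, if_neg (show ¬ l % 2 = 1 by rw [Nat.even_iff] at hl; omega)]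
        simp
      · rw [hl.neg_one_pow, if_neg (show ¬ l % 2 = 0 by rw [Nat.odd_iff] at hl; omega)]
        exact ⟨mul_zero _, neg_one_mul _⟩
    rw [he l]
    linear_combination (C * m.choose l) * h4.1 + (Ω * m.choose l) * h4.2 + ((-1) ^ l * p * e₁ l) * h2
  rw [h1, sum_add_distrib, ← mul_sum, h0, Ev, Od]
  simp only [sum_add_distrib, sum_sub_distrib, mul_sum, mul_zero, zero_add]

end Pool.Agent.Work.MP_096b72_nt.Hedge
end

-- merged part: Pool.Agent.Work.MP_096b72_nt.Hedge.ThA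
section
/-! The values of `Th` at even points.

PLAN. `φ t = (-3) ^ t * Th (2 t)`, `φ (t + 1) = -3 * φ t + G t`, `G t = (-3) ^ (t + 1) * blk (2 t) + (-3) ^ (t + 1) * blk (2 t + 1) + χ * f (2 t + 1)`
(`od (2 t) = 0`, `od (2 t + 1) = ww ^ (t + 1)`, `ww_pow`); slope `G₁ = sle + slo + χ a ^ 2` by `be_lip`, `bo_lip`, `D.f2`, `dvd_of_two`. For `J` take `ψ` from `tel`, `C = ψ 0`,
`2 t₀ + 1 = p ^ J`, `Ω t = -3 * ψ t + (-3) ^ (t + 1) * blk (2 t) + χ * f (2 t + 1)`, so `p * (t - t₀) ∣ Ω t - Ω t₀` and `2 (t - t₀) = (2 t + 1) - p ^ J`.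
`T l = Th l + χ od l f l` satisfies the hypothesis of `alt_eval` with `C`, `Ω t₀`, `d = p ^ J` (`l = 2 t`: `T = ww ^ t φ t`; `l = 2 t + 1`:
`T = ww ^ (t + 1) * (-3 φ t + (-3) ^ (t + 1) blk (2 t) + χ f (2 t + 1))`). `bin_rel` for `m = 6 * p ^ J` with `Od_six` (for `m` and for `p m = 6 * p ^ (J + 1)`), cancel `p m ≠ 0`,
`Ev_six`: `p ^ J ∣ C`. So `p ^ J ∣ φ s - ψ s`; finish with `dvd_of_forall`. -/

set_option autoImplicit false

namespace Pool.Agent.Work.MP_096b72_nt.Hedge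

open Finset

variable {p : ℕ} [hpp : Fact p.Prime] {h : ℕ} {χ : ℤ} {a q lam : ℤ_[p]} {f : ℕ → ℤ_[p]}

theorem ThA_od_even (t : ℕ) : od p (2 * t) = 0 := by
  rw [od, if_neg (by omega)]

theorem ThA_od_odd (t : ℕ) : od p (2 * t + 1) = ww p ^ (t + 1) := by
  rw [od, if_pos (by omega), show (2 * t + 1 + 1) / 2 = t + 1 by omega]

theorem ThA_ev_even (t : ℕ) : ev p (2 * t) = ww p ^ t := by
  rw [ev, if_pos (by omega), show 2 * t / 2 = t by omega]

theorem ThA_ev_odd (t : ℕ) : ev p (2 * t + 1) = 0 := by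
  rw [ev, if_neg (by omega)]

theorem Th_odd_eq (t : ℕ) : Th p χ f (2 * t + 1) = Th p χ f (2 * t) + blk p (2 * t) := by
  rw [Th, sum_range_succ, ← Th, ThA_od_even]
  ring

theorem Th_even_eq (t : ℕ) : Th p χ f (2 * t + 2) =
    Th p χ f (2 * t + 1) + blk p (2 * t + 1) + χ * ww p ^ (t + 1) * f (2 * t + 1) := by
  rw [Th, sum_range_succ, ← Th, ThA_od_odd]
  ring

theorem ThA_zero : Th p χ f 0 = 0 := by
  rw [Th, sum_range_zero]

theorem ThA_f_lip (D : Dat p h χ a q lam f) (s s' : ℕ) : (p : ℤ_[p]) ^ 2 * (s - s') ∣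
    f (2 * s + 1) - f (2 * s' + 1) - a ^ 2 * p * (s - s') := by
  obtain ⟨e, he⟩ := D.f2 (2 * s + 1) (2 * s' + 1) (by omega) (by omega)
  push_cast at he
  exact dvd_of_two D.h3 ⟨2 * e, by linear_combination he⟩

theorem ThA_tel (D : Dat p h χ a q lam f) (J : ℕ) : ∃ ψ : ℕ → ℤ_[p],
    (∀ s, (p : ℤ_[p]) ^ J ∣ (-3) ^ s * Th p χ f (2 * s) - (ψ s - (-3) ^ s * ψ 0)) ∧
      ∀ s s' : ℕ, (p : ℤ_[p]) ^ 2 * (s - s') ∣ ψ s - ψ s' - gm p h χ a * p * (s - s') := by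
  refine tel D.h3 (φ := fun t => (-3) ^ t * Th p χ f (2 * t))
    (G := fun t => (-3) ^ (t + 1) * blk p (2 * t) + (-3) ^ (t + 1) * blk p (2 * t + 1) +
      χ * f (2 * t + 1)) (G₁ := sle p h χ a + slo p h a + χ * a ^ 2) (fun s s' => ?_) ?_
    (fun s => ?_) J
  · obtain ⟨e₁, h1⟩ := be_lip D s s'
    obtain ⟨e₂, h2⟩ := bo_lip D s s'
    obtain ⟨e₃, h3⟩ := ThA_f_lip D s s'
    exact ⟨e₁ + e₂ + χ * e₃, by linear_combination h1 + h2 + χ * h3⟩
  · show (-3) ^ 0 * Th p χ f (2 * 0) = 0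
    rw [mul_zero, ThA_zero, mul_zero]
  · show (-3) ^ (s + 1) * Th p χ f (2 * s + 2) = _
    rw [Th_even_eq, Th_odd_eq]
    linear_combination (χ * f (2 * s + 1)) * ww_pow D.h3 (s + 1)

theorem ThA_const (D : Dat p h χ a q lam f) (J : ℕ) {ψ : ℕ → ℤ_[p]}
    (h1 : ∀ s, (p : ℤ_[p]) ^ J ∣ (-3) ^ s * Th p χ f (2 * s) - (ψ s - (-3) ^ s * ψ 0))
    (h2 : ∀ s s' : ℕ, (p : ℤ_[p]) ^ 2 * (s - s') ∣ ψ s - ψ s' - gm p h χ a * p * (s - s')) :
    (p : ℤ_[p]) ^ J ∣ ψ 0 := by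
  obtain ⟨t₀, ht₀⟩ : Odd (p ^ J) := Odd.pow ⟨h, D.hp⟩
  have ht : (p : ℤ_[p]) ^ J = 2 * t₀ + 1 := by exact_mod_cast ht₀
  have h2i := two_iz D.h3
  have hm : 1 ≤ 6 * p ^ J := by omega
  obtain ⟨e₁, e₂, he⟩ := alt_eval (p := p) (T := fun l => Th p χ f l + χ * od p l * f l)
    (C := ψ 0) (Ω := -3 * ψ t₀ + (-3) ^ (t₀ + 1) * blk p (2 * t₀) + χ * f (2 * t₀ + 1))
    (d := (p : ℤ_[p]) ^ J) hm (fun l => by
      obtain ⟨t, rfl | rfl⟩ := Nat.even_or_odd' l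
      · obtain ⟨c₁, k1⟩ := h1 t
        obtain ⟨c₂, k2⟩ := h2 t 0
        have k3 := ww_pow D.h3 t
        refine ⟨iz p 2 * ww p ^ t * (gm p h χ a + p * c₂), ww p ^ t * c₁, ?_⟩
        rw [ThA_od_even, ThA_ev_even]
        push_cast at k2 ⊢
        linear_combination ww p ^ t * k1 + ww p ^ t * k2 - (Th p χ f (2 * t) + ψ 0) * k3 -
          p * t * ww p ^ t * (gm p h χ a + p * c₂) * h2i
      · obtain ⟨c₁, k1⟩ := h1 t
        obtain ⟨c₂, k2⟩ := h2 t t₀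
        obtain ⟨c₃, k3⟩ := be_lip D t t₀
        obtain ⟨c₄, k4⟩ := ThA_f_lip D t t₀
        have k5 := ww_pow D.h3 (t + 1)
        obtain ⟨E, hE⟩ : ∃ E, E = -3 * (gm p h χ a + p * c₂) + (sle p h χ a + p * c₃) +
          χ * (a ^ 2 + p * c₄) := ⟨_, rfl⟩
        have k6 : -3 * ψ t + (-3) ^ (t + 1) * blk p (2 * t) + χ * f (2 * t + 1) =
            -3 * ψ t₀ + (-3) ^ (t₀ + 1) * blk p (2 * t₀) + χ * f (2 * t₀ + 1) +
              p * (t - t₀) * E := by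
          rw [hE]
          linear_combination -3 * k2 + k3 + χ * k4
        refine ⟨iz p 2 * ww p ^ (t + 1) * E,
          -3 * ww p ^ (t + 1) * c₁ - p * iz p 2 * ww p ^ (t + 1) * E, ?_⟩
        rw [ThA_od_odd, ThA_ev_odd, Th_odd_eq]
        push_cast
        linear_combination -3 * ww p ^ (t + 1) * k1 + ww p ^ (t + 1) * k6 -
          (Th p χ f (2 * t) + blk p (2 * t) + ψ 0) * k5 +
          p * iz p 2 * ww p ^ (t + 1) * E * ht - p * (t - t₀) * ww p ^ (t + 1) * E * h2i)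
  obtain ⟨c, hc⟩ := bin_rel D hm
  rw [he, Od_six D.h3, show p * (6 * p ^ J) = 6 * (p * p ^ J) by ring, Od_six D.h3] at hc
  have hne : (p : ℤ_[p]) * ((6 * p ^ J : ℕ) : ℤ_[p]) ≠ 0 :=
    mul_ne_zero p_ne0 (Nat.cast_ne_zero.2 (by omega))
  have hc' : ψ 0 * Ev p (6 * p ^ J) + p * ((6 * p ^ J : ℕ) : ℤ_[p]) * e₁ + (p : ℤ_[p]) ^ J * e₂ =
      p * ((6 * p ^ J : ℕ) : ℤ_[p]) * c :=
    mul_left_cancel₀ hne (by linear_combination hc)
  push_cast at hc'
  exact (Ev_six D.h3 (p ^ J)).dvd_mul_right.1 ⟨6 * p * (c - e₁) - e₂, by linear_combination hc'⟩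

theorem phi_lip (D : Dat p h χ a q lam f) (s s' : ℕ) : (p : ℤ_[p]) ^ 2 * (s - s') ∣
    (-3) ^ s * Th p χ f (2 * s) - (-3) ^ s' * Th p χ f (2 * s') - gm p h χ a * p * (s - s') := by
  refine dvd_of_forall fun J => ?_
  obtain ⟨ψ, h1, h2⟩ := ThA_tel D J
  obtain ⟨c, hc⟩ := ThA_const D J h1 h2
  obtain ⟨c₁, k1⟩ := h1 s
  obtain ⟨c₂, k2⟩ := h1 s'
  obtain ⟨c₃, k3⟩ := h2 s s'
  exact ⟨c₃, c₁ - c₂ - ((-3) ^ s - (-3) ^ s') * c,
    by linear_combination k1 - k2 + k3 - ((-3) ^ s - (-3) ^ s') * hc⟩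

theorem Th_even (D : Dat p h χ a q lam f) (t : ℕ) :
    ∃ e, Th p χ f (2 * t) = ww p ^ t * (p * t) * (gm p h χ a + p * e) := by
  obtain ⟨e, he⟩ := phi_lip D t 0
  rw [mul_zero, ThA_zero] at he
  push_cast at he
  exact ⟨e, by linear_combination ww p ^ t * he - Th p χ f (2 * t) * ww_pow D.h3 t⟩

end Pool.Agent.Work.MP_096b72_nt.Hedge
end

-- merged part: Pool.Agent.Work.MP_096b72_nt.Hedge.ThB
section
/-! The values of `Th` at odd points.

PLAN. `ω t = (-3) ^ (t + 1) * Th (2 t + 1) = -3 * φ t + (-3) ^ (t + 1) * blk (2 t)` has slope `2 * dl` (`phi_lip`, `be_lip`, `two_iz`). For `Q = p ^ J = 2 t₀ + 1`: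
`T l = Th l + χ od l f l` satisfies the hypothesis of `alt_eval` with `C = 0`, `Ω = ω t₀ + χ f Q`, `d = p Q` (`Th_even`; `D.f_cong`; `2 (t - t₀) = (2 t + 1) - Q`).
`bin_rel` for `m = Q`; `Od_cop`, `pow_mod_six`: `Od (p Q) = Od Q * ww ^ (h Q) * (2 ^ (2 h)) ^ Q = Od Q * χ * (1 + p a) ^ Q * (1 + p q) ^ Q` (`Q` is odd), `D.f1 Q`, `D.l2 Q` modulo
`(p Q) ^ 2`; `Od Q` is a unit; cancel `p Q`: `p Q ∣ ω t₀ - χ lam`. Then `ω t - χ lam - dl p (2 t + 1) = (ω t - ω t₀ - 2 dl p (t - t₀)) + (ω t₀ - χ lam) - dl p Q`, `dvd_of_forall`. -/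

set_option autoImplicit false

namespace Pool.Agent.Work.MP_096b72_nt.Hedge

open Finset

variable {p : ℕ} [hpp : Fact p.Prime] {h : ℕ} {χ : ℤ} {a q lam : ℤ_[p]} {f : ℕ → ℤ_[p]}

theorem ThB_lip (D : Dat p h χ a q lam f) (t t' : ℕ) : ∃ e : ℤ_[p],
    (-3) ^ (t + 1) * Th p χ f (2 * t + 1) - (-3) ^ (t' + 1) * Th p χ f (2 * t' + 1) =
      p * (t - t') * (2 * dl p h χ a + p * e) := by
  obtain ⟨e₁, h₁⟩ := phi_lip D t t'
  obtain ⟨e₂, h₂⟩ := be_lip D t t'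
  refine ⟨-3 * e₁ + e₂, ?_⟩
  rw [Th_odd_eq, Th_odd_eq, dl]
  linear_combination (-3) * h₁ + h₂ -
    p * (t - t') * (sle p h χ a - 3 * gm p h χ a) * two_iz D.h3

theorem ThB_od_even (t : ℕ) : od p (2 * t) = 0 := by
  rw [od, if_neg (by omega)]

theorem ThB_od_odd (t : ℕ) : od p (2 * t + 1) = ww p ^ (t + 1) := by
  rw [od, if_pos (by omega), show (2 * t + 1 + 1) / 2 = t + 1 by omega]

theorem ThB_hyp (D : Dat p h χ a q lam f) (t₀ l : ℕ) : ∃ e₁ e₂,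
    Th p χ f l + χ * od p l * f l = -0 + ev p l * 0 + od p l *
      ((-3) ^ (t₀ + 1) * Th p χ f (2 * t₀ + 1) + χ * f (2 * t₀ + 1)) + p * l * e₁ +
        (p * (2 * t₀ + 1)) * e₂ := by
  have h2 := two_iz D.h3
  obtain ⟨t, rfl | rfl⟩ := Nat.even_or_odd' l
  · obtain ⟨e, he⟩ := Th_even D t
    refine ⟨iz p 2 * ww p ^ t * (gm p h χ a + p * e), 0, ?_⟩
    rw [ThB_od_even, he]
    push_cast
    linear_combination (-(ww p ^ t * (p * t) * (gm p h χ a + p * e))) * h2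
  · obtain ⟨e, he⟩ := ThB_lip D t t₀
    obtain ⟨e', he'⟩ := D.f_cong (o := 2 * t + 1) (o' := 2 * t₀ + 1) (by omega) (by omega)
    have hw := ww_pow D.h3 (t + 1)
    refine ⟨ww p ^ (t + 1) * (iz p 2 * (2 * dl p h χ a + p * e) + χ * e'),
      -(ww p ^ (t + 1) * (iz p 2 * (2 * dl p h χ a + p * e) + χ * e')), ?_⟩
    rw [ThB_od_odd]
    push_cast at he' ⊢
    linear_combination ww p ^ (t + 1) * he + χ * ww p ^ (t + 1) * he' -
      Th p χ f (2 * t + 1) * hw -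
      ww p ^ (t + 1) * (p * (t - t₀)) * (2 * dl p h χ a + p * e) * h2

theorem ThB_base (D : Dat p h χ a q lam f) {J t₀ : ℕ} (hQ : p ^ J = 2 * t₀ + 1) : ∃ e : ℤ_[p],
    (-3) ^ (t₀ + 1) * Th p χ f (2 * t₀ + 1) - χ * lam = p * (2 * t₀ + 1) * e := by
  obtain ⟨e₁, e₂, h₁⟩ := alt_eval (m := 2 * t₀ + 1) (by omega) (ThB_hyp D t₀)
  obtain ⟨e₃, h₃⟩ := bin_rel D (m := 2 * t₀ + 1) (by omega)
  rw [h₁] at h₃
  have m1 := pow_mod_six hpp.out D.h3 J
  have m2 := pow_mod_six hpp.out D.h3 (J + 1)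
  rw [pow_succ', hQ] at m2
  rw [hQ] at m1
  have o1 := Od_cop D.h3 m1
  have o2 := Od_cop D.h3 m2
  have k0 : p * (2 * t₀ + 1) = 2 * (h * (2 * t₀ + 1)) + (2 * t₀ + 1) := by
    conv_lhs => rw [D.hp]
    ring
  have k1 : (p * (2 * t₀ + 1) + 1) / 2 = (t₀ + 1) + h * (2 * t₀ + 1) := by omega
  have k2 : p * (2 * t₀ + 1) - 1 = 2 * t₀ + 2 * h * (2 * t₀ + 1) := by
    rw [mul_assoc]
    omega
  rw [show (2 * t₀ + 1 + 1) / 2 = t₀ + 1 by omega, Nat.add_sub_cancel] at o1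
  have c1 : (χ : ℤ_[p]) ^ (2 * t₀ + 1) = χ := by
    rw [pow_succ, pow_mul, D.chi_sq, one_pow, one_mul]
  rw [k1, k2, pow_add (ww p) (t₀ + 1), pow_add (2 : ℤ_[p]) (2 * t₀), pow_mul (ww p) h,
    pow_mul (2 : ℤ_[p]) (2 * h), D.ww_h, D.hq, mul_pow, c1, D.f1] at o2
  obtain ⟨g₀, hg₀⟩ := D.l2 (2 * t₀ + 1)
  obtain ⟨g, hg⟩ : ((p : ℤ_[p]) * ((2 * t₀ + 1 : ℕ) : ℤ_[p])) ^ 2 ∣
      (1 + p * q) ^ (2 * t₀ + 1) - 1 - p * ((2 * t₀ + 1 : ℕ) : ℤ_[p]) * lam :=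
    dvd_of_two D.h3 ⟨p * g₀ + lam ^ 2, by linear_combination hg₀⟩
  have hu : (-3) ^ (t₀ + 1) * iz p 2 ^ (2 * t₀) * Od p (2 * t₀ + 1) = 1 := by
    have a1 := ww_pow D.h3 (t₀ + 1)
    have a2 : (2 : ℤ_[p]) ^ (2 * t₀) * iz p 2 ^ (2 * t₀) = 1 := by
      rw [← mul_pow, two_iz D.h3, one_pow]
    rw [o1]
    linear_combination (2 ^ (2 * t₀) * iz p 2 ^ (2 * t₀)) * a1 + a2
  have hN : (p : ℤ_[p]) * ((2 * t₀ + 1 : ℕ) : ℤ_[p]) ≠ 0 :=
    mul_ne_zero p_ne0 (Nat.cast_ne_zero.2 (by omega))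
  have hy : (1 + p * q) ^ (2 * t₀ + 1) = 1 + p * ((2 * t₀ + 1 : ℕ) : ℤ_[p]) * lam +
      ((p : ℤ_[p]) * ((2 * t₀ + 1 : ℕ) : ℤ_[p])) ^ 2 * g := by linear_combination hg
  have o3 : Od p (p * (2 * t₀ + 1)) = Od p (2 * t₀ + 1) * χ *
      (1 + p * ((2 * t₀ + 1 : ℕ) : ℤ_[p]) * f (2 * t₀ + 1)) *
      (1 + p * ((2 * t₀ + 1 : ℕ) : ℤ_[p]) * lam +
        ((p : ℤ_[p]) * ((2 * t₀ + 1 : ℕ) : ℤ_[p])) ^ 2 * g) := by
    rw [o2, o1, hy]
    ring
  have hc : ((2 * t₀ + 1 : ℕ) : ℤ_[p]) = 2 * t₀ + 1 := by push_cast; rfl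
  rw [← hc] at h₃ ⊢
  generalize (p : ℤ_[p]) * ((2 * t₀ + 1 : ℕ) : ℤ_[p]) = N at *
  generalize (-3 : ℤ_[p]) ^ (t₀ + 1) * iz p 2 ^ (2 * t₀) = c at hu
  generalize (-3 : ℤ_[p]) ^ (t₀ + 1) * Th p χ f (2 * t₀ + 1) = w at *
  rw [o3] at h₃
  have key : Od p (2 * t₀ + 1) * (w - χ * lam) = N * (Od p (2 * t₀ + 1) * χ *
      (g + f (2 * t₀ + 1) * lam + N * f (2 * t₀ + 1) * g) + e₁ + e₂ - e₃) :=
    mul_left_cancel₀ hN (by linear_combination -h₃)
  exact ⟨c * (Od p (2 * t₀ + 1) * χ * (g + f (2 * t₀ + 1) * lam + N * f (2 * t₀ + 1) * g) +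
    e₁ + e₂ - e₃), by linear_combination c * key - (w - χ * lam) * hu⟩

theorem Th_odd (D : Dat p h χ a q lam f) (t : ℕ) : ∃ e, Th p χ f (2 * t + 1) =
    ww p ^ (t + 1) * (χ * lam + p * (2 * t + 1) * (dl p h χ a + p * e)) := by
  have h2 := two_iz D.h3
  obtain ⟨e, he⟩ : (p : ℤ_[p]) * (2 * t + 1) * p ∣ (-3) ^ (t + 1) * Th p χ f (2 * t + 1) -
      χ * lam - p * (2 * t + 1) * dl p h χ a := by
    refine dvd_of_forall fun J => ?_
    obtain ⟨t₀, hQ⟩ : Odd (p ^ J) := Odd.pow ⟨h, D.hp⟩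
    obtain ⟨e₁, h₁⟩ := ThB_lip D t t₀
    obtain ⟨e₂, h₂⟩ := ThB_base D hQ
    have hc : (p : ℤ_[p]) ^ J = 2 * t₀ + 1 := by exact_mod_cast congrArg (Nat.cast (R := ℤ_[p])) hQ
    refine ⟨iz p 2 * e₁, p * (e₂ - dl p h χ a - p * iz p 2 * e₁), ?_⟩
    rw [hc]
    linear_combination h₁ + h₂ - p ^ 2 * (t - t₀) * e₁ * h2
  exact ⟨e, by linear_combination ww p ^ (t + 1) * he - Th p χ f (2 * t + 1) * ww_pow D.h3 (t + 1)⟩

end Pool.Agent.Work.MP_096b72_nt.Hedge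
end

-- merged part: Pool.Agent.Work.MP_096b72_nt.Hedge.ModP
section
/-! Existence of the constants and the identities modulo `p`.

PLAN. Work in `K = KK p` through `red` (`red_eq`, `red_eq_zero`, `red_iz`, `map_sum`): `red (s1 h 1) = so h 1`, `red (s1 h 2) = so h (fun l => (2 l + 1)⁻¹)`, similarly `s2` and `se`,
`red (H1 n) = HH K n`, `red (O1 n) = OO K n`. `exists_dat`: `psi_three_h` (`../Rec.lean`) gives `red (χ * ww ^ h) = 1`; Fermat for `2`; `exists_f`, `exists_lam`.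
Apply `PadicInt.toZModPow 3` to `D.hq`, `D.ha` and compare with `B1`, `B2`, `HR_half`, `OR_HR` of `../Binom.lean` (`psi_of` after multiplying by `p`; see the proof of `TR_base` in `../Base.lean`):
`red q = OO K h`, `se h 1 = - OO K h`, `red a = χ * so h 1 - red q` (from `(-3) ^ h * χ * (1 + p a) = 1`). In `X2`: `2 (h + 1 + k) + 1 = p + 2 k + 2`, `(-3) ^ h = χ`, `OO_upper`, `HH_upper`
(`HH K (h + (k + 1))`), `OO_half`. With the five identities `Kvals` (`exists_omega`): write `Q = OO K h`, `s = s0 K h`; then `se HH = Q ^ 2 - 9 s / 2`, `se (OO (l + 1)) = - 3 s / 2`,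
`so HH = 3 χ s / 2 - 2 Q so1`, `2 χ se2 = 2 so OO + 9 χ s - χ Q ^ 2`, `2 so2 = χ (- so1 ^ 2 + s) + 2 Q so1 - 2 so OO`, `X1 = 4 so OO - 9 χ s / 2`, `X2 = -2 χ Q ^ 2`, `gm = - 5 χ s / 2`. -/

set_option autoImplicit false

namespace Pool.Agent.Work.MP_096b72_nt.Hedge

open Finset

variable {p : ℕ} [hpp : Fact p.Prime] {h : ℕ} {χ : ℤ} {a q lam : ℤ_[p]} {f : ℕ → ℤ_[p]}

theorem ModP_s11 : red p (s1 p h 1) = so h (fun _ => (1 : KK p)) := by
  simp only [s1, so, map_sum, map_mul, map_pow, map_neg, map_ofNat, red_iz, pow_one, one_mul]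
  push_cast
  rfl

theorem ModP_s12 : red p (s1 p h 2) = so h (fun l => (2 * (l : KK p) + 1)⁻¹) := by
  simp only [s1, so, map_sum, map_mul, map_pow, map_neg, map_ofNat, red_iz, pow_two]
  push_cast
  rfl

theorem ModP_s21 : red p (s2 p h 1) = se h (fun _ => (1 : KK p)) := by
  simp only [s2, se, map_sum, map_mul, map_pow, map_neg, map_ofNat, red_iz, pow_one, one_mul]
  push_cast
  rfl

theorem ModP_s22 : red p (s2 p h 2) = se h (fun l => (2 * (l : KK p) + 2)⁻¹) := by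
  simp only [s2, se, map_sum, map_mul, map_pow, map_neg, map_ofNat, red_iz, pow_two]
  push_cast
  rfl

theorem ModP_pii (n : ℕ) : red p (pii p n) = 4 * OO (KK p) n - 3 * HH (KK p) n := by
  simp only [pii, O1, H1, OO, HH, map_sum, map_mul, map_sub, map_ofNat, red_iz]
  push_cast
  rfl

theorem ModP_X1 : red p (X1 p h q) = 4 * so h (OO (KK p)) - 3 * so h (HH (KK p)) -
    6 * red p q * so h (fun _ => (1 : KK p)) := by
  simp only [X1, so, map_sum, map_mul, map_pow, map_neg, map_sub, map_ofNat, red_iz, ModP_pii,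
    mul_sum, ← sum_sub_distrib]
  push_cast
  exact sum_congr rfl fun r _ => by ring

theorem ModP_X2 (D : Dat p h χ a q lam f) : red p (X2 p h q) =
    χ * ((10 * OO (KK p) h - 6 * red p q) * se h (fun _ => (1 : KK p)) + 2 * se h (HH (KK p)) -
      6 * se h (fun l => OO (KK p) (l + 1))) := by
  have k3 := psi_three_h D.hp D.h3 D.hχ
  have h2 := two_ne (K := KK p) D.h3
  have hc := hcast (K := KK p) D.hp
  simp only [X2, se, map_sum, map_mul, map_pow, map_neg, map_sub, map_ofNat, red_iz, ModP_pii,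
    mul_sum, ← sum_sub_distrib, ← sum_add_distrib]
  refine sum_congr rfl fun k _ => ?_
  have e : ((2 * ((h + 1 + k : ℕ) : ℤ) + 1 : ℤ) : KK p) = 2 * k + 2 := by
    push_cast
    linear_combination hc
  rw [e, OO_upper D.hp D.h3, add_assoc h, add_comm 1 k, HH_upper D.hp D.h3, OO_half D.hp D.h3,
    pow_add, k3]
  field_simp
  ring

theorem ModP_vals (D : Dat p h χ a q lam f) : red p q = OO (KK p) h ∧
    se h (fun _ => (1 : KK p)) = -OO (KK p) h ∧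
    red p a = χ * so h (fun _ => (1 : KK p)) - OO (KK p) h := by
  have hq := congrArg (PadicInt.toZModPow 3) D.hq
  have ha : (-3 : ℤ_[p]) ^ h * (1 + p * a) = χ := by
    linear_combination (-3) ^ h * D.ha.symm + χ * ww_pow D.h3 h
  have ha := congrArg (PadicInt.toZModPow 3) ha
  simp only [map_add, map_mul, map_pow, map_one, map_natCast, map_ofNat, map_neg,
    map_intCast] at hq ha
  have b1 := B1 D.hp χ D.hχ
  have b2 := B2 D.hp χ D.hχ
  have c2 := chi_sq D.hχ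
  have t3 := p3 (p := p)
  have hH := HR_half D.hp D.h3 _ hq
  have hO := OR_HR D.hp D.h3
  rw [hq] at b1 b2
  have pq : red p q = OO (KK p) h := by
    rw [← psi_OR]
    apply psi_of
    apply cancel_two D.h3
    linear_combination p * hH - p * hO + PadicInt.toZModPow 3 q ^ 2 * t3
  refine ⟨pq, ?_, ?_⟩
  · have : psi p (seR p h (fun _ => 1)) = psi p (-PadicInt.toZModPow 3 q) := by
      apply psi_of
      linear_combination p * b2 + seR p h (fun l => HR p (2 * l + 1)) * t3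
    rw [psi_seR, map_neg] at this
    rw [← pq]
    simpa [red] using this
  · have : psi p (PadicInt.toZModPow 3 a) =
        psi p (χ * soR p h (fun _ => 1) - PadicInt.toZModPow 3 q) := by
      apply psi_of
      rw [b1] at ha
      generalize PadicInt.toZModPow 3 a = A at *
      generalize PadicInt.toZModPow 3 q = Q at *
      generalize soR p h (fun _ => 1) = S at *
      generalize soR p h (fun l => HR p (2 * l)) = M at *
      linear_combination p * χ * ha - p ^ 2 * (A + Q) * c2 -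
        χ * (M + χ * Q * A - S * A + p * M * A) * t3
    rw [map_sub, map_mul, psi_soR, map_intCast] at this
    rw [← pq]
    simpa [red] using this

theorem exists_dat (hp : p = 2 * h + 1) (h3 : 3 < p)
    (hχ : (p % 3 = 1 ∧ χ = 1) ∨ (p % 3 = 2 ∧ χ = -1)) : ∃ a q lam f, Dat p h χ a q lam f := by
  have k3 := psi_three_h hp h3 hχ
  have h2 := two_ne (K := KK p) h3
  obtain ⟨a, ha⟩ : (p : ℤ_[p]) ∣ χ * ww p ^ h - 1 := by
    have := congrArg (red p) (ww_pow h3 h)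
    rw [← red_eq]
    simp only [map_mul, map_pow, map_neg, map_ofNat, map_one, map_intCast, k3] at this ⊢
    exact this
  obtain ⟨q, hq⟩ : (p : ℤ_[p]) ∣ 2 ^ (2 * h) - 1 := by
    have e : (2 : KK p) ^ p = 2 := by rw [← frobenius_def, map_ofNat]
    rw [← red_eq, map_pow, map_ofNat, map_one]
    apply mul_left_cancel₀ h2
    rw [← pow_succ', ← hp, e, mul_one]
  obtain ⟨f, f1, f2, f3⟩ := exists_f h3 a
  obtain ⟨lam, l1, l2⟩ := exists_lam h3 q
  exact ⟨a, q, lam, f, hp, h3, hχ, by linear_combination ha, by linear_combination hq,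
    f1, f2, f3, l1, l2⟩

theorem ModP_all (D : Dat p h χ a q lam f) :
    red p (-2 * gm p h χ a) = 5 * χ * s0 (KK p) h ∧
    red p (3 * gm p h χ a - 4 * dl p h χ a + 4 * χ * q * a - X1 p h q - X2 p h q) = 0 ∧
    red p (8 * χ * q ^ 2 + 4 * X2 p h q) = 0 := by
  obtain ⟨w, hw⟩ := exists_omega (p := p)
  have c2 : (χ : KK p) ^ 2 = 1 := by simpa using congrArg (red p) D.chi_sq
  obtain ⟨k1, k2, k3, k4, k5⟩ :=
    Kvals hpp.out D.hp D.h3 w hw (χ : KK p) (psi_three_h D.hp D.h3 D.hχ) c2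
  obtain ⟨vq, ve, va⟩ := ModP_vals D
  have h2 := two_ne (K := KK p) D.h3
  have h3 := three_ne (K := KK p) D.h3
  have i2 := congrArg (red p) (two_iz D.h3)
  have i4 := congrArg (red p) (four_iz D.h3)
  simp only [map_mul, map_ofNat, map_one] at i2 i4
  simp only [dl, gm, sle, slo, map_add, map_sub, map_mul, map_neg, map_pow, map_ofNat, map_intCast,
    ModP_X1, ModP_X2 D, ModP_s11, ModP_s12, ModP_s21, ModP_s22, vq, va]
  rw [ve] at k4 k5 ⊢
  generalize red p (iz p 2) = i at *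
  generalize red p (iz p 4) = j at *
  generalize OO (KK p) h = Q at *
  generalize s0 (KK p) h = s at *
  generalize so h (fun _ => (1 : KK p)) = S at *
  generalize so h (OO (KK p)) = A at *
  generalize so h (HH (KK p)) = B at *
  generalize se h (HH (KK p)) = C at *
  generalize se h (fun l => OO (KK p) (l + 1)) = E at *
  generalize so h (fun l => (2 * (l : KK p) + 1)⁻¹) = U at *
  generalize se h (fun l => (2 * (l : KK p) + 2)⁻¹) = V at *
  generalize (χ : KK p) = c at *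
  obtain rfl : i = 2 * j := by linear_combination 2 * j * i2 - i * i4
  obtain rfl : E = -3 * s * (2 * j) := by linear_combination 2 * j * k1 - E * i4
  obtain rfl : B = 3 * c * s * (2 * j) - 2 * Q * S := by
    linear_combination 2 * j * k2 - (B + 2 * Q * S) * i4
  obtain rfl : C = Q ^ 2 - 9 * s * (2 * j) := by linear_combination -k4 - 18 * s * j * c2
  have k6 : -S ^ 2 + s + c * (2 * Q * S - 2 * A - 2 * U) = 0 :=
    mul_left_cancel₀ h3 (by linear_combination k3 + k1)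
  obtain rfl : U = 2 * j * (c * (s - S ^ 2) + 2 * Q * S - 2 * A) := by
    linear_combination -(2 * j * c) * k6 + 4 * j * (Q * S - A - U) * c2 - U * i4
  obtain rfl : V = 2 * j * (2 * c * A + 9 * s - Q ^ 2) := by
    linear_combination 2 * j * c * k5 + (18 * j * s - V) * i4 +
      (72 * j ^ 2 * s - 2 * j * Q ^ 2 - 4 * j * V) * c2
  refine ⟨?_, ?_, by ring⟩
  · linear_combination (4 * Q * S * j - 2 * Q ^ 2 * c * j - 2 * S ^ 2 * c * j + 20 * c * j * s +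
      5 * c * s) * i4 + (16 * A * j ^ 2 - 2 * S ^ 2 * c * j) * c2
  · linear_combination (4 * A + 16 * A * j - 4 * Q * S - 6 * Q * S * j - 48 * Q * S * j ^ 2 +
      2 * Q ^ 2 * c - 5 * Q ^ 2 * c * j + 24 * Q ^ 2 * c * j ^ 2 + 3 * S ^ 2 * c * j +
      24 * S ^ 2 * c * j ^ 2 - 18 * c * j * s - 240 * c * j ^ 2 * s) * i4 +
      (40 * A * j ^ 2 - 192 * A * j ^ 3 + 4 * Q * S - 16 * Q * S * j + 3 * S ^ 2 * c * j +
      24 * S ^ 2 * c * j ^ 2) * c2

theorem id1 (D : Dat p h χ a q lam f) : red p (-2 * gm p h χ a) = 5 * χ * s0 (KK p) h :=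
  (ModP_all D).1

theorem id2 (D : Dat p h χ a q lam f) : (p : ℤ_[p]) ∣
    3 * gm p h χ a - 4 * dl p h χ a + 4 * χ * q * a - X1 p h q - X2 p h q :=
  red_eq_zero.1 (ModP_all D).2.1

theorem id3 (D : Dat p h χ a q lam f) : (p : ℤ_[p]) ∣ 8 * χ * q ^ 2 + 4 * X2 p h q :=
  red_eq_zero.1 (ModP_all D).2.2

end Pool.Agent.Work.MP_096b72_nt.Hedge
end

-- merged part: Pool.Agent.Work.MP_096b72_nt.Hedge.Cat
section
/-! Integrality of the dual terms (super Catalan numbers).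

PLAN. `sc a b = (2 a)! (2 b)! / (a! b! (a + b)!)` in a field of characteristic zero is an integer: induction on `b` (all `a`), `sc a (b + 1) = 4 sc a b - sc (a + 1) b`,
`sc a 0 = (2 a).choose a`. By induction on `l < n`: `2 * KC n * AA n l = (3 n - 1).choose (n - l - 1) * sc (n + l) (n - l)` (ratio of consecutive terms
`(n - l - 1) (2 n + 2 l + 1) / ((2 n + l + 1) (2 n - 2 l - 1))`; write `n = l + 1 + j`), and `vv n l * sc (n + l) (n - l) = sc (n + l) (n - l - 1)`. `AA n n = 0` is `AA_self`.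
`2` is invertible (`two_iz`, `In_inv`). `kk_eq`: `tt_eq_kk`, `(2 n).choose n = 2 (2 n - 1).choose (n - 1)`, `(3 n).choose n = 3 (3 n - 1).choose (n - 1)`. -/

set_option autoImplicit false

namespace Pool.Agent.Work.MP_096b72_nt.Hedge

open Finset

variable {p : ℕ} [hpp : Fact p.Prime] {h : ℕ} {χ : ℤ} {a q lam : ℤ_[p]} {f : ℕ → ℤ_[p]}

/-- Super Catalan numbers. -/
noncomputable def Cat_sc (p : ℕ) [Fact p.Prime] (a b : ℕ) : ℚ_[p] :=
  ((2 * a).factorial * (2 * b).factorial : ℚ_[p]) /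
    (a.factorial * b.factorial * (a + b).factorial)

theorem Cat_fac (m : ℕ) : (m.factorial : ℚ_[p]) ≠ 0 := pos_ne _ (Nat.factorial_pos _)

theorem Cat_comm (a b : ℕ) : Cat_sc p a b = Cat_sc p b a := by
  rw [Cat_sc, Cat_sc, add_comm a b]
  ring

theorem Cat_b (a b : ℕ) : Cat_sc p a (b + 1) * (a + b + 1) = 2 * (2 * b + 1) * Cat_sc p a b := by
  have h1 : (b : ℚ_[p]) + 1 ≠ 0 := Nat.cast_add_one_ne_zero b
  have h2 : (a : ℚ_[p]) + b + 1 ≠ 0 := by
    exact_mod_cast Nat.cast_add_one_ne_zero (R := ℚ_[p]) (a + b)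
  have h3 := Cat_fac (p := p) a
  have h4 := Cat_fac (p := p) b
  have h5 := Cat_fac (p := p) (a + b)
  rw [Cat_sc, Cat_sc, show 2 * (b + 1) = 2 * b + 1 + 1 by ring, ← add_assoc]
  simp only [Nat.factorial_succ]
  push_cast
  field_simp
  ring

theorem Cat_a (a b : ℕ) : Cat_sc p (a + 1) b * (a + b + 1) = 2 * (2 * a + 1) * Cat_sc p a b := by
  rw [Cat_comm, Cat_comm a b, ← Cat_b, add_comm (a : ℚ_[p])]

theorem Cat_in (b : ℕ) : ∀ a, In (Cat_sc p a b) := by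
  induction b with
  | zero =>
    intro a
    have : Cat_sc p a 0 = ((2 * a).choose a : ℕ) := by
      rw [Nat.cast_choose _ (by omega : a ≤ 2 * a), show 2 * a - a = a by omega, Cat_sc]
      simp
    rw [this]
    exact In_nat _
  | succ b ih =>
    intro a
    have h2 : (a : ℚ_[p]) + b + 1 ≠ 0 := by
      exact_mod_cast Nat.cast_add_one_ne_zero (R := ℚ_[p]) (a + b)
    have : Cat_sc p a (b + 1) = 4 * Cat_sc p a b - Cat_sc p (a + 1) b :=
      mul_right_cancel₀ h2 (by linear_combination Cat_a (p := p) a b + Cat_b (p := p) a b)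
    rw [this]
    exact (In_ofNat4.mul (ih a)).sub (ih _)

theorem Cat_ch (k j : ℕ) : ((k * (j + 1)).choose (j + 1) : ℚ_[p]) =
    k * ((k * (j + 1) - 1).choose j : ℕ) := by
  rcases k with _ | k
  · simp
  have h := Nat.add_one_mul_choose_eq ((k + 1) * (j + 1) - 1) j
  rw [Nat.sub_add_cancel (Nat.succ_le_of_lt (by positivity))] at h
  have h' : ((k + 1) * (j + 1)).choose (j + 1) = (k + 1) * ((k + 1) * (j + 1) - 1).choose j :=
    Nat.eq_of_mul_eq_mul_right (show 0 < j + 1 by omega) (by rw [← h]; ring)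
  exact_mod_cast h'

theorem Cat_main (n l : ℕ) : ∀ j, n = l + 1 + j → 2 * ((KC n : ℚ_[p]) * AA ℚ_[p] n l) =
    ((3 * n - 1).choose j : ℕ) * Cat_sc p (n + l) (j + 1) := by
  induction l with
  | zero =>
    intro j hj
    obtain rfl : n = j + 1 := by omega
    have h1 := Cat_ch (p := p) 2 j
    have h2 : Cat_sc p (j + 1) (j + 1) = ((2 * (j + 1)).choose (j + 1) : ℕ) := by
      have h3 := Cat_fac (p := p) (2 * (j + 1))
      rw [Nat.cast_choose _ (by omega : j + 1 ≤ 2 * (j + 1)),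
        show 2 * (j + 1) - (j + 1) = j + 1 by omega, Cat_sc, ← two_mul]
      field_simp
    rw [add_zero, h2, h1, KC, AA, range_zero, prod_empty, Nat.add_sub_cancel]
    push_cast
    ring
  | succ l ih =>
    intro j hj
    have h0 := ih (j + 1) (by omega)
    have h1 := Nat.choose_succ_right_eq (3 * n - 1) j
    rw [show 3 * n - 1 - j = l + 1 + 2 * n by omega] at h1
    have h1 : (((3 * n - 1).choose (j + 1) : ℕ) : ℚ_[p]) * (j + 1) =
        ((3 * n - 1).choose j : ℕ) * (l + 1 + 2 * n) := by exact_mod_cast h1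
    have h2 := Cat_a (p := p) (n + l) (j + 1)
    have h3 := Cat_b (p := p) (n + l) (j + 1)
    have hn : (n : ℚ_[p]) = l + 2 + j := by rw [hj]; push_cast; ring
    have b1 : (2 * (l : ℚ_[p]) + 1 - 2 * n) ≠ 0 := odd_ne l n
    have b2 : ((l : ℚ_[p]) + 1 + 2 * n) ≠ 0 := by
      exact_mod_cast pos_ne (F := ℚ_[p]) (l + 1 + 2 * n) (by omega)
    have b3 : ((n : ℚ_[p]) + l + (j + 1) + 1) ≠ 0 := by
      exact_mod_cast pos_ne (F := ℚ_[p]) (n + l + (j + 1) + 1) (by omega)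
    push_cast at h2 h3
    have h4 : Cat_sc p (n + l) (j + 1 + 1) * (2 * l + 1 + 2 * n) =
        -(Cat_sc p (n + l + 1) (j + 1) * (2 * l + 1 - 2 * n)) := by
      apply mul_right_cancel₀ b3
      rw [hn] at h2 h3 ⊢
      linear_combination (2 * l + 1 + 2 * (l + 2 + j) : ℚ_[p]) * h3 - (2 * j + 3 : ℚ_[p]) * h2
    rw [AA, prod_range_succ, ← AA, ← mul_assoc (KC n : ℚ_[p]), ← mul_assoc 2, h0, ← add_assoc, ff, gg]
    push_cast
    rw [div_mul_div_comm, ← mul_div_assoc, div_eq_iff (mul_ne_zero b1 b2)]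
    linear_combination (((3 * n - 1).choose (j + 1) : ℕ) * (l + 1 - n) : ℚ_[p]) * h4 +
      Cat_sc p (n + l + 1) (j + 1) * (2 * l + 1 - 2 * n) * h1 +
      Cat_sc p (n + l + 1) (j + 1) * (2 * l + 1 - 2 * n) * ((3 * n - 1).choose (j + 1) : ℕ) * hn

theorem Cat_half (h3 : 3 < p) {x : ℚ_[p]} (hx : In (2 * x)) : In x := by
  have := (In_inv (p := p) (d := 2) (nd_lt (by norm_num) (by omega))).mul hx
  push_cast at this
  rwa [inv_mul_cancel_left₀ two_ne_zero] at this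

theorem In_KA (h3 : 3 < p) {n l : ℕ} (hn : 1 ≤ n) (hl : l ≤ n) :
    In ((KC n : ℚ_[p]) * AA ℚ_[p] n l) := by
  rcases hl.lt_or_eq with hl | rfl
  · apply Cat_half h3
    rw [Cat_main n l (n - l - 1) (by omega)]
    exact (In_nat _).mul (Cat_in _ _)
  · rw [AA_self l hn, mul_zero]
    exact In_zero

theorem In_KvA (h3 : 3 < p) {n l : ℕ} (hl : l < n) :
    In ((KC n : ℚ_[p]) * (vv ℚ_[p] n l * AA ℚ_[p] n l)) := by
  obtain ⟨j, hj⟩ : ∃ j, n = l + 1 + j := ⟨n - l - 1, by omega⟩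
  have hn : (n : ℚ_[p]) = l + 1 + j := by exact_mod_cast hj
  have b1 : (2 * (n : ℚ_[p]) - (2 * l + 1)) ≠ 0 := fun k => odd_ne (F := ℚ_[p]) l n (by
    linear_combination -k)
  have h1 : vv ℚ_[p] n l * Cat_sc p (n + l) (j + 1) = Cat_sc p (n + l) j := by
    have h2 := Cat_b (p := p) (n + l) j
    push_cast at h2
    rw [vv, div_mul_eq_mul_div, div_eq_iff b1]
    rw [hn] at h2 ⊢
    linear_combination (1 / 2 : ℚ_[p]) * h2
  apply Cat_half h3
  rw [mul_left_comm (KC n : ℚ_[p]), mul_left_comm, Cat_main n l j hj, mul_left_comm, h1]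
  exact (In_nat _).mul (Cat_in _ _)

theorem kk_eq {n : ℕ} (hn : 1 ≤ n) :
    kk ℚ_[p] n = ((2 * n - 1).choose (n - 1) : ℚ_[p]) * KC n := by
  obtain ⟨j, rfl⟩ : ∃ j, n = j + 1 := ⟨n - 1, by omega⟩
  have h1 := tt_eq_kk (F := ℚ_[p]) (j + 1) hn
  rw [tt, div_left_inj' (pow_ne_zero _ (by norm_num)), Cat_ch, Cat_ch] at h1
  rw [KC, Nat.add_sub_cancel]
  push_cast at h1 ⊢
  linear_combination (-1 / 12 : ℚ_[p]) * h1

end Pool.Agent.Work.MP_096b72_nt.Hedge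
end

-- merged part: Pool.Agent.Work.MP_096b72_nt.Hedge.Split
section
/-! Exact factorisation of the dual terms at level `p n`.

PLAN. For `j < p`: `ff (p n) (p l + j) = (if j = h then ff n l else 1) * uf (p n) (p l + j)` (for `j = h` numerator and denominator are `p` times those of `ff n l` and `iz` vanishes;
otherwise `iz_coe`, `nd_odd`/`nd_vv` of `../Block.lean`), `gg (p n) (p l + j + 1) = (if j = 2 h then gg n (l + 1) else 1) * ug (p n) (p l + j + 1)`,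
`kf (p n) (p l + j) = (if j = 0 then kf n l else 1) * unit factor`. `AA_split`: first `AA (p n) (p l) = AA n l * PP (p n) (p l)` by induction on `l`
(`Finset.prod_range_add`), then the incomplete block (`Finset.prod_ite_eq`). `kk_split`: `prod_blocks`. `UU_split`: `sum_blocks`, `sum_three` of `../Ring3.lean`,
`vv (p n) (p l + h) = vv n l`, `vv (p n) L = p n * iz (2 p n - (2 L + 1))` off the middle, `ff_eq`. -/

set_option autoImplicit false

namespace Pool.Agent.Work.MP_096b72_nt.Hedge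

open Finset

variable {p : ℕ} [hpp : Fact p.Prime] {h : ℕ} {χ : ℤ} {a q lam : ℤ_[p]} {f : ℕ → ℤ_[p]}

theorem Split_p0 : (p : ℚ_[p]) ≠ 0 := Nat.cast_ne_zero.2 hpp.out.ne_zero

omit hpp in
theorem Split_nd {d e : ℤ} (j : ℕ) (hj : j < p) (h0 : j ≠ 0) (hd : d = j + p * e) :
    ¬ (p : ℤ) ∣ d := fun k =>
  nd_lt (d := j) (by omega) (by omega) ((dvd_add_left (dvd_mul_right _ e)).1 (hd ▸ k))

theorem Split_ff (hp : p = 2 * h + 1) (n l : ℕ) {j : ℕ} (hj : j < p) :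
    ff ℚ_[p] (p * n) (p * l + j) = (if j = h then ff ℚ_[p] n l else 1) *
      (uf p (p * n) (p * l + j) : ℤ_[p]) := by
  have h0 := odd_ne (F := ℚ_[p]) (p * l + j) (p * n)
  split_ifs with e
  · have e' : (p : ℚ_[p]) = 2 * j + 1 := by rw [e]; exact_mod_cast hp
    rw [uf, iz_dvd ⟨2 * l + 1 - 2 * n, by rw [e]; push_cast; rw [hp]; push_cast; ring⟩, ff, ff,
      mul_zero, add_zero, PadicInt.coe_one, mul_one, div_eq_div_iff h0 (odd_ne l n)]
    push_cast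
    linear_combination (4 * n : ℚ_[p]) * e'
  · have := iz_coe (p := p) (d := 2 * ((p * l + j : ℕ) : ℤ) + 1 - 2 * (p * n : ℕ))
      (by rw [← dvd_neg, neg_sub]; exact nd_vv hp n l hj e)
    rw [uf, ff, PadicInt.coe_add, PadicInt.coe_mul, this, div_eq_iff h0, PadicInt.coe_mul,
      show ((4 : ℤ_[p]) : ℚ_[p]) = 4 from rfl]
    push_cast at h0 ⊢
    linear_combination (-4 * p * n : ℚ_[p]) * inv_mul_cancel₀ h0

theorem Split_gg (hp : p = 2 * h + 1) (n l : ℕ) {j : ℕ} (hj : j < p) :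
    gg ℚ_[p] (p * n) (p * l + j + 1) = (if j = 2 * h then gg ℚ_[p] n (l + 1) else 1) *
      (ug p (p * n) (p * l + j + 1) : ℤ_[p]) := by
  have h0 : ((p * l + j + 1 : ℕ) + 2 * (p * n : ℕ) : ℚ_[p]) ≠ 0 := by
    exact_mod_cast pos_ne (F := ℚ_[p]) (p * l + j + 1 + 2 * (p * n)) (by omega)
  split_ifs with e
  · have e' : (p : ℚ_[p]) = j + 1 := by rw [e]; exact_mod_cast hp
    rw [ug, iz_dvd ⟨l + 1 + 2 * n, by rw [e]; push_cast; rw [hp]; push_cast; ring⟩, gg, gg,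
      mul_zero, sub_zero, PadicInt.coe_one, mul_one, div_eq_div_iff h0
        (by exact_mod_cast pos_ne (F := ℚ_[p]) (l + 1 + 2 * n) (by omega))]
    push_cast
    linear_combination (-3 * n : ℚ_[p]) * e'
  · have := iz_coe (p := p) (d := ((p * l + j + 1 : ℕ) : ℤ) + 2 * (p * n : ℕ))
      (Split_nd (e := l + 2 * n) (j + 1) (by omega) (by omega) (by push_cast; ring))
    rw [ug, gg, PadicInt.coe_sub, PadicInt.coe_mul, this, div_eq_iff h0, PadicInt.coe_mul,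
      show ((3 : ℤ_[p]) : ℚ_[p]) = 3 from rfl]
    push_cast at h0 ⊢
    linear_combination (3 * p * n : ℚ_[p]) * inv_mul_cancel₀ h0

theorem Split_prod (m : ℕ) (g : ℕ → ℤ_[p]) :
    ((∏ i ∈ range m, g i : ℤ_[p]) : ℚ_[p]) = ∏ i ∈ range m, (g i : ℚ_[p]) :=
  map_prod PadicInt.Coe.ringHom _ _

theorem Split_blk (hp : p = 2 * h + 1) (n l : ℕ) {r : ℕ} (hr : r ≤ p) :
    ∏ j ∈ range r, (ff ℚ_[p] (p * n) (p * l + j) * gg ℚ_[p] (p * n) (p * l + j + 1)) =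
      (if h < r then ff ℚ_[p] n l else 1) * (if 2 * h < r then gg ℚ_[p] n (l + 1) else 1) *
        (∏ j ∈ range r, (uf p (p * n) (p * l + j) * ug p (p * n) (p * l + j + 1)) : ℤ_[p]) := by
  rw [prod_congr rfl fun j hj => by
    rw [Split_ff hp n l ((mem_range.1 hj).trans_le hr), Split_gg hp n l
      ((mem_range.1 hj).trans_le hr), mul_mul_mul_comm, ← PadicInt.coe_mul]]
  simp only [prod_mul_distrib (f := fun j => _ * _) (g := fun j => ((_ : ℤ_[p]) : ℚ_[p])),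
    prod_mul_distrib (f := fun j => if j = h then _ else _), prod_ite_eq', mem_range]
  rw [Split_prod]

theorem Split_vv (hp : p = 2 * h + 1) (n l : ℕ) {j : ℕ} (hj : j < p) (e : j ≠ h) :
    vv ℚ_[p] (p * n) (p * l + j) =
      (p * n * iz p (2 * (p * n : ℕ) - (2 * ((p * l + j : ℕ) : ℤ) + 1)) : ℤ_[p]) := by
  rw [PadicInt.coe_mul, iz_coe (nd_vv hp n l hj e), vv, div_eq_mul_inv]
  push_cast
  rfl

theorem AA_split (hp : p = 2 * h + 1) {n : ℕ} (hn : 1 ≤ n) (l : ℕ) {r : ℕ} (hr : r < p) :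
    AA ℚ_[p] (p * n) (p * l + r) = AA ℚ_[p] n l * (if h < r then ff ℚ_[p] n l else 1) *
      (PP p (p * n) (p * l + r) : ℤ_[p]) := by
  have key : AA ℚ_[p] (p * n) (p * l) = AA ℚ_[p] n l * (PP p (p * n) (p * l) : ℤ_[p]) := by
    induction l with
    | zero => simp [AA, PP]
    | succ l ih =>
      rw [Nat.mul_succ, AA, PP, prod_range_add, prod_range_add, Split_blk hp n l le_rfl,
        if_pos (by omega), if_pos (by omega), AA, prod_range_succ, PadicInt.coe_mul]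
      unfold AA PP at ih
      rw [ih]
      ring
  rw [AA, PP, prod_range_add, prod_range_add, Split_blk hp n l hr.le,
    if_neg (show ¬ 2 * h < r by omega), PadicInt.coe_mul]
  unfold AA PP at key
  rw [key, AA]
  ring

theorem kk_split (n : ℕ) : kk ℚ_[p] (p * n) = kk ℚ_[p] n * (rho p (p * n) : ℤ_[p]) := by
  rw [kk, kk, rho, prod_blocks, prod_blocks, Split_prod, ← prod_mul_distrib]
  refine prod_congr rfl fun l _ => ?_
  rw [Split_prod, ← if_pos (c := 0 ∈ range p) (t := kf ℚ_[p] n l) (e := 1) (mem_range.2 hpp.out.pos),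
    ← prod_ite_eq' (range p) 0 fun _ => kf ℚ_[p] n l, ← prod_mul_distrib]
  refine prod_congr rfl fun j hj => ?_
  split_ifs with e
  · rw [e, add_zero, iz_dvd ⟨l, by push_cast; rfl⟩]
    simp [kf, mul_div_mul_left _ _ Split_p0]
  · have := iz_coe (p := p) (d := ((p * l + j : ℕ) : ℤ))
      (Split_nd (e := l) j (mem_range.1 hj) e (by push_cast; ring))
    simp only [kf, PadicInt.coe_mul, PadicInt.coe_pow, PadicInt.coe_add, this, div_eq_mul_inv]
    push_cast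
    rw [one_mul]
    rfl

theorem UU_split (hp : p = 2 * h + 1) {n : ℕ} (hn : 1 ≤ n) (c : ℤ_[p]) :
    (c : ℚ_[p]) * UU p (p * n) = ∑ l ∈ range n, AA ℚ_[p] n l *
      (((∑ r ∈ range h, c * PP p (p * n) (p * l + r) * (-3) ^ (p * l + r) *
          (p * n * iz p (2 * (p * n : ℕ) - (2 * ((p * l + r : ℕ) : ℤ) + 1))) : ℤ_[p]) : ℚ_[p]) +
        vv ℚ_[p] n l * ((c * PP p (p * n) (p * l + h) * (-3) ^ (p * l + h) : ℤ_[p]) : ℚ_[p]) +
        (1 - 4 * vv ℚ_[p] n l) *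
          ((∑ k ∈ range h, c * PP p (p * n) (p * l + (h + 1 + k)) * (-3) ^ (p * l + (h + 1 + k)) *
            (p * n * iz p (2 * (p * n : ℕ) - (2 * ((p * l + (h + 1 + k) : ℕ) : ℤ) + 1))) : ℤ_[p]) :
              ℚ_[p])) := by
  have hc : ∀ (m : ℕ) (g : ℕ → ℤ_[p]), ((∑ i ∈ range m, g i : ℤ_[p]) : ℚ_[p]) =
      ∑ i ∈ range m, (g i : ℚ_[p]) := fun m g => map_sum PadicInt.Coe.ringHom _ _
  have h3 : ((-3 : ℤ_[p]) : ℚ_[p]) = -3 := rfl
  rw [UU, sum_blocks, mul_sum]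
  refine sum_congr rfl fun l _ => ?_
  have hv : vv ℚ_[p] (p * n) (p * l + h) = vv ℚ_[p] n l := by
    have e' : (p : ℚ_[p]) = 2 * h + 1 := by exact_mod_cast hp
    rw [vv, vv, ← mul_div_mul_left (n : ℚ_[p]) _ Split_p0]
    push_cast
    congr 1
    linear_combination e'
  rw [congrArg range hp, sum_three, hc, hc, mul_add, mul_add, mul_add, mul_add, mul_sum, mul_sum,
    mul_sum, mul_sum, mul_sum, hv, AA_split hp hn l (by omega), if_neg (lt_irrefl h), ← ff_eq]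
  refine congrArg₂ _ (congrArg₂ _ (sum_congr rfl fun r hr => ?_) ?_) (sum_congr rfl fun r hr => ?_)
  · rw [mem_range] at hr
    rw [AA_split hp hn l (by omega), if_neg (by omega), Split_vv hp n l (by omega) hr.ne]
    simp only [PadicInt.coe_mul, PadicInt.coe_pow, h3]
    ring
  · simp only [PadicInt.coe_mul, PadicInt.coe_pow, h3]
    ring
  · rw [mem_range] at hr
    rw [AA_split hp hn l (by omega), if_pos (by omega), Split_vv hp n l (by omega) (by omega)]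
    simp only [PadicInt.coe_mul, PadicInt.coe_pow, h3]
    ring

end Pool.Agent.Work.MP_096b72_nt.Hedge
end

-- merged part: Pool.Agent.Work.MP_096b72_nt.Hedge.Prod
section
/-! Expansion of the unit products.

PLAN. `N = p * n`. By `iz_shift` (twice), modulo `N ^ 3`: `uf N i ≡ 1 + 4 N c + 8 N ^ 2 c ^ 2` with `c = iz (2 i + 1)`, `ug N i ≡ 1 - 3 N c + 6 N ^ 2 c ^ 2` with
`c = iz i`. `PP_exp` by induction on `L` (or separately: `∏ uf ≡ 1 + 4 N O1 + 8 N ^ 2 O1 ^ 2`, `2 ∏ ug ≡ 2 - 6 N H1 + 9 N ^ 2 H1 ^ 2 + 3 N ^ 2 Hb`).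
`rho_exp`: `∏ i < M + 1, (1 + N c) ^ 2 (1 + 2 N c) ≡ 1 + 4 N H1 M + 8 N ^ 2 (H1 M) ^ 2 - 3 N ^ 2 Hb M` modulo `N ^ 3` (the factor `i = 0` is `1`; the term `iz N` is `0`, so
`H1 (N - 1) = H1 N`), then `H1_mul`, `Hb_mul`; `n = 0` is trivial.
`iz 64 ^ (p n - n) * (1 + p q) ^ (6 n) = 1` (`iz64`, `D.hq`, `p n - n = 2 h n`), and `D.l2 (6 n)`: `(1 + p q) ^ (6 n) ≡ 1 + 6 N lam + 18 N ^ 2 lam ^ 2` modulo
`p N ^ 2`. Multiply the claims by the unit `(1 + p q) ^ (6 n)`. `cc_mid`: `PP_exp`, `pii_mid`, `Hb_mid`, `D.l1`. `cc_any`: `PP_exp`, `pii_per`, `D.l1`. -/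

set_option autoImplicit false

namespace Pool.Agent.Work.MP_096b72_nt.Hedge

open Finset

variable {p : ℕ} [hpp : Fact p.Prime] {h : ℕ} {χ : ℤ} {a q lam : ℤ_[p]} {f : ℕ → ℤ_[p]}

theorem Prod_exp {R : Type} [CommRing R] {N : R} {F b c d : ℕ → R}
    (hc : ∀ i, c i = 2 * d i - b i ^ 2) (hF : ∀ i, N ^ 3 ∣ F i - (1 + N * b i + N ^ 2 * d i))
    (L : ℕ) : N ^ 3 ∣ 2 * ∏ i ∈ range L, F i - (2 + 2 * N * ∑ i ∈ range L, b i +
      N ^ 2 * ((∑ i ∈ range L, b i) ^ 2 + ∑ i ∈ range L, c i)) := by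
  induction L with
  | zero => simp
  | succ L ih =>
    obtain ⟨e, he⟩ := ih
    obtain ⟨g, hg⟩ := hF L
    rw [prod_range_succ, sum_range_succ, sum_range_succ, hc L]
    generalize ∑ i ∈ range L, b i = B at he ⊢
    generalize ∑ i ∈ range L, c i = C at he ⊢
    exact ⟨(B ^ 2 + C) * b L + 2 * B * d L + N * (B ^ 2 + C) * d L +
      (2 + 2 * N * B + N ^ 2 * (B ^ 2 + C)) * g + e * F L, by
        linear_combination F L * he + (2 + 2 * N * B + N ^ 2 * (B ^ 2 + C)) * hg⟩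

theorem PP_exp (h3 : 3 < p) (n L : ℕ) : ((p : ℤ_[p]) * n) ^ 3 ∣ 2 * PP p (p * n) L -
    (2 + 2 * (p * n) * pii p L + (p * n) ^ 2 * (pii p L ^ 2 + 3 * Hb p L)) := by
  have k := Prod_exp (N := (p : ℤ_[p]) * n) (F := fun i => uf p (p * n) i * ug p (p * n) (i + 1))
    (b := fun i => 4 * iz p (2 * (i : ℤ) + 1) - 3 * iz p ((i : ℤ) + 1))
    (c := fun i => 3 * iz p ((i : ℤ) + 1) ^ 2) (d := fun i => 8 * iz p (2 * (i : ℤ) + 1) ^ 2 -
      12 * iz p (2 * (i : ℤ) + 1) * iz p ((i : ℤ) + 1) + 6 * iz p ((i : ℤ) + 1) ^ 2)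
    (fun i => by ring) (fun i => ?_) L
  · rwa [sum_sub_distrib, ← mul_sum, ← mul_sum, ← mul_sum] at k
  have h1 := iz_shift (p := p) (2 * (i : ℤ) + 1) (e := -(2 * (p * n : ℕ)))
    ⟨-(2 * n), by push_cast; ring⟩
  have h2 := iz_shift (p := p) ((i + 1 : ℕ) : ℤ) (e := 2 * (p * n : ℕ)) ⟨2 * n, by push_cast; ring⟩
  rw [← sub_eq_add_neg] at h1
  simp only [uf, ug]
  generalize iz p (2 * (i : ℤ) + 1 - 2 * (p * n : ℕ)) = x at h1 ⊢
  generalize iz p (((i + 1 : ℕ) : ℤ) + 2 * (p * n : ℕ)) = y at h2 ⊢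
  push_cast at h1 h2 ⊢
  generalize iz p (2 * (i : ℤ) + 1) = c at h1 ⊢
  generalize iz p ((i : ℤ) + 1) = d at h2 ⊢
  generalize (p : ℤ_[p]) * n = N at h1 h2 ⊢
  exact ⟨24 * c * d ^ 2 - 24 * c ^ 2 * d + 48 * N * c ^ 2 * d ^ 2 + 16 * c ^ 2 * x * (1 - 3 * N * y) -
    12 * d ^ 2 * y * (1 + 4 * N * c + 8 * N ^ 2 * c ^ 2), by
      linear_combination (1 - 3 * N * y) * (4 * N + 8 * N ^ 2 * c) * h1 +
        (1 + 4 * N * c + 8 * N ^ 2 * c ^ 2) * (6 * N ^ 2 * d - 3 * N) * h2⟩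

theorem Prod_sum (n k : ℕ) : ∑ i ∈ range (p * n), iz p (i : ℕ) ^ (k + 1) =
    ∑ i ∈ range (p * n), iz p ((i : ℤ) + 1) ^ (k + 1) := by
  have e := (sum_range_succ (fun i : ℕ => iz p i ^ (k + 1)) (p * n)).symm.trans
    (sum_range_succ' _ _)
  rw [iz_dvd (d := (p * n : ℕ)) ⟨n, by push_cast; rfl⟩, iz_dvd (d := (0 : ℕ)) ⟨0, by simp⟩] at e
  simpa using e

theorem rho_exp (hp : p = 2 * h + 1) (h3 : 3 < p) (n : ℕ) :
    (p : ℤ_[p]) * (p * n) ^ 2 ∣ rho p (p * n) - 1 := by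
  have k := Prod_exp (N := ((p * n : ℕ) : ℤ_[p]))
    (F := fun i => (1 + (p * n : ℕ) * iz p i) ^ 2 * (1 + 2 * ((p * n : ℕ) * iz p i)))
    (b := fun i => 4 * iz p i) (c := fun i => -6 * iz p i ^ 2) (d := fun i => 5 * iz p i ^ 2)
    (fun i => by ring) (fun i => ⟨2 * iz p i ^ 3, by ring⟩) (p * n)
  have s1 := Prod_sum (p := p) n 0
  have s2 := Prod_sum (p := p) n 1
  simp only [zero_add, pow_one] at s1
  rw [← mul_sum, ← mul_sum, ← rho, s1, s2, ← H1, ← Hb] at k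
  obtain ⟨e, he⟩ := k
  obtain ⟨e1, h1⟩ := H1_mul hp h3 n
  obtain ⟨e2, h2⟩ := Hb_mul hp h3 n
  rw [h1, h2] at he
  push_cast at he
  exact dvd_of_two h3 ⟨8 * e1 + 16 * p * (p * n) ^ 2 * e1 ^ 2 - 6 * e2 + n * e, by
    linear_combination he⟩

theorem Prod_Z (D : Dat p h χ a q lam f) (n : ℕ) : (p : ℤ_[p]) * (p * n) ^ 2 ∣
    iz p 64 ^ (p * n - n) - (1 - 6 * (p * n) * lam + 18 * (p * n) ^ 2 * lam ^ 2) := by
  have h1 : iz p 64 ^ (p * n - n) * (1 + p * q) ^ (6 * n) = 1 := by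
    have e : p * n - n = 2 * h * n := by
      conv_lhs => rw [D.hp, add_mul, one_mul, Nat.add_sub_cancel]
    rw [e, ← D.hq, ← pow_mul, show 2 * h * (6 * n) = 6 * (2 * h * n) by ring, pow_mul 2 6,
      ← mul_pow, mul_comm, iz64 D.h3, one_pow]
  obtain ⟨e, he⟩ := D.l2 (6 * n)
  push_cast at he
  generalize iz p 64 ^ (p * n - n) = Z at h1 ⊢
  exact dvd_of_two D.h3 ⟨-Z * (648 * p * n ^ 2 * lam ^ 4 +
    36 * e * (1 - 6 * (p * n) * lam + 18 * (p * n) ^ 2 * lam ^ 2)), by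
      linear_combination (1 - 6 * (p * n) * lam + 18 * (p * n) ^ 2 * lam ^ 2) * (2 * h1 - Z * he)⟩

theorem Prod_cc (D : Dat p h χ a q lam f) (n L : ℕ) : (p : ℤ_[p]) * (p * n) ^ 2 ∣
    2 * cc p n L - (2 + 2 * (p * n) * (pii p L - 6 * lam) +
      (p * n) ^ 2 * ((pii p L - 6 * lam) ^ 2 + 3 * Hb p L)) := by
  obtain ⟨e1, h1⟩ := Prod_Z D n
  obtain ⟨e2, h2⟩ := rho_exp D.hp D.h3 n
  obtain ⟨e3, h3⟩ := PP_exp D.h3 n L
  rw [cc]
  generalize iz p 64 ^ (p * n - n) = Z at h1 ⊢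
  generalize rho p (p * n) = ρ at h2 ⊢
  generalize PP p (p * n) L = P at h3 ⊢
  generalize pii p L = π at h3 ⊢
  generalize Hb p L = H at h3 ⊢
  exact ⟨n * (36 * lam ^ 2 * π - 6 * lam * (π ^ 2 + 3 * H)) +
    18 * n * (p * n) * lam ^ 2 * (π ^ 2 + 3 * H) +
    (1 - 6 * (p * n) * lam + 18 * (p * n) ^ 2 * lam ^ 2) * n * e3 + 2 * P * (e1 + Z * e2), by
      linear_combination 2 * P * h1 + 2 * P * Z * h2 +
        (1 - 6 * (p * n) * lam + 18 * (p * n) ^ 2 * lam ^ 2) * h3⟩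

theorem cc_mid (D : Dat p h χ a q lam f) (n l : ℕ) : ∃ e₁ e₂ : ℤ_[p], cc p n (p * l + h) =
    1 + 4 * (p * n) * lam + 8 * (p * n) ^ 2 * q ^ 2 + p * n * (p * (2 * l + 1)) * p * e₁ +
      (p * n) ^ 2 * p * e₂ := by
  obtain ⟨e, he⟩ := Prod_cc D n (p * l + h)
  obtain ⟨e4, h4⟩ := pii_mid D l
  obtain ⟨e5, h5⟩ := Hb_mid D.hp D.h3 l
  obtain ⟨e6, h6⟩ := D.l1
  rw [sub_eq_iff_eq_add.1 h4, h5] at he
  obtain ⟨e2, h2⟩ : (p : ℤ_[p]) * (p * n) ^ 2 ∣ cc p n (p * l + h) - (1 + 4 * (p * n) * lam +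
      8 * (p * n) ^ 2 * q ^ 2 + p * n * (p * (2 * l + 1)) * p * e4) := by
    obtain rfl := sub_eq_iff_eq_add.1 h6
    exact dvd_of_two D.h3 ⟨e + 8 * q * (4 * e6 + p * (2 * l + 1) * e4) +
      p * (4 * e6 + p * (2 * l + 1) * e4) ^ 2 + 3 * e5, by linear_combination he⟩
  exact ⟨e4, e2, by linear_combination h2⟩

theorem cc_any (D : Dat p h χ a q lam f) (n l r : ℕ) :
    (p : ℤ_[p]) * n * p ∣ cc p n (p * l + r) - (1 + p * n * (pii p r - 6 * q)) := by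
  obtain ⟨e, he⟩ := Prod_cc D n (p * l + r)
  obtain ⟨e4, h4⟩ := pii_per D.hp D.h3 l r
  obtain ⟨e6, h6⟩ := D.l1
  exact dvd_of_two D.h3 ⟨p * n * e + 2 * e4 - 12 * e6 +
    n * ((pii p (p * l + r) - 6 * lam) ^ 2 + 3 * Hb p (p * l + r)), by
      linear_combination he + 2 * p * n * h4 - 12 * p * n * h6⟩

end Pool.Agent.Work.MP_096b72_nt.Hedge
end

-- merged part: Pool.Agent.Work.MP_096b72_nt.Hedge.Sums
section
/-! The three parts of a block, `n = l + t + 1`, `N = p n`.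

PLAN. `ww ^ N * (-3) ^ (p l + r) = ww ^ (p (t + 1)) * (-3) ^ r` (`ww_pow`), `2 N - (2 (p l + r) + 1) = 2 p (t + 1) - (2 r + 1)`. `hi_sum`: termwise; `cc_any` gives
`cc = 1 + N (pii r - 6 q) + N p e`; the part `1` sums to `N blk (2 t + 1)` (`blk_odd`); in the part `N ^ 2` reduce modulo `p`: `D.ww_p (t + 1)`, `iz_cong`, `iz_neg`.
`lo_sum`: the same with `r = h + 1 + k`, `ww ^ (p (t + 1)) * (-3) ^ (h + 1 + k) = ww ^ (p t + h + 1) * (-3) ^ (k + 1)`, `2 p (t + 1) - (2 (h + 1 + k) + 1) = p (2 t + 1) - (2 k + 2)`,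
`blk_even`. `mid_term`: `ww ^ N * (-3) ^ (p l + h) = ww ^ (t + 1) * (ww ^ h) ^ (2 t + 1) = χ ww ^ (t + 1) (1 + p (2 t + 1) f (2 t + 1))` (`D.ww_h`, `D.f1`), `cc_mid` with
`p (2 l + 1) = 2 N - p (2 t + 1)`, `p ∣ f (2 t + 1) - a` (`D.f_cong`, `D.f3`), `D.l1`. -/

set_option autoImplicit false

namespace Pool.Agent.Work.MP_096b72_nt.Hedge

open Finset

variable {p : ℕ} [hpp : Fact p.Prime] {h : ℕ} {χ : ℤ} {a q lam : ℤ_[p]} {f : ℕ → ℤ_[p]}

theorem Sums_term {N c W w I j s y : ℤ_[p]} (hc : N * p ∣ c - (1 + N * y))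
    (hW : (p : ℤ_[p]) ∣ W - w) (hI : (p : ℤ_[p]) ∣ I - -j) :
    N ^ 2 * p ∣ c * (W * s) * (N * I) - (N * (W * (s * I)) - N ^ 2 * w * (s * j * y)) := by
  obtain ⟨e1, h1⟩ := hc
  obtain ⟨e2, h2⟩ := hW
  obtain ⟨e3, h3⟩ := hI
  obtain rfl : c = 1 + N * y + N * p * e1 := by linear_combination h1
  obtain rfl : W = w + p * e2 := by linear_combination h2
  obtain rfl : I = -j + p * e3 := by linear_combination h3
  exact ⟨e1 * (w + p * e2) * s * (-j + p * e3) + s * y * (w * e3 - e2 * j + p * e2 * e3), by ring⟩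

theorem Sums_pow (h3 : 3 < p) {n l t : ℕ} (hn : n = l + t + 1) (r : ℕ) :
    ww p ^ (p * n) * (-3) ^ (p * l + r) = ww p ^ (p * (t + 1)) * (-3) ^ r := by
  have e : p * n = p * l + p * (t + 1) := by rw [hn]; ring
  rw [e, pow_add, pow_add]
  linear_combination ww p ^ (p * (t + 1)) * (-3) ^ r * ww_pow h3 (p * l)

theorem Sums_gen (D : Dat p h χ a q lam f) {n l t : ℕ} (hn : n = l + t + 1) (r : ℕ) :
    ((p : ℤ_[p]) * n) ^ 2 * p ∣ cc p n (p * l + r) * (ww p ^ (p * n) * (-3) ^ (p * l + r)) *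
      (p * n * iz p (2 * (p * n : ℕ) - (2 * ((p * l + r : ℕ) : ℤ) + 1))) -
      (p * n * (ww p ^ (p * (t + 1)) *
        ((-3) ^ r * iz p (2 * p * ((t : ℤ) + 1) - (2 * (r : ℤ) + 1)))) -
        (p * n) ^ 2 * ww p ^ (t + 1) * ((-3) ^ r * iz p (2 * (r : ℤ) + 1) * (pii p r - 6 * q))) := by
  have e : (2 * (p * n : ℕ) - (2 * ((p * l + r : ℕ) : ℤ) + 1) : ℤ) =
      2 * p * ((t : ℤ) + 1) - (2 * (r : ℤ) + 1) := by
    rw [hn]; push_cast; ring
  rw [e, Sums_pow D.h3 hn]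
  refine Sums_term (cc_any D n l r) (D.ww_p (t + 1)) ?_
  rw [← iz_neg]
  exact iz_cong ⟨2 * ((t : ℤ) + 1), by ring⟩

theorem hi_sum (D : Dat p h χ a q lam f) {n l t : ℕ} (hn : n = l + t + 1) : ∃ e : ℤ_[p],
    ∑ r ∈ range h, cc p n (p * l + r) * (ww p ^ (p * n) * (-3) ^ (p * l + r)) *
      (p * n * iz p (2 * (p * n : ℕ) - (2 * ((p * l + r : ℕ) : ℤ) + 1))) =
      p * n * blk p (2 * t + 1) - (p * n) ^ 2 * ww p ^ (t + 1) * X1 p h q + (p * n) ^ 2 * p * e := by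
  obtain ⟨e, he⟩ := dvd_sum (s := range h) fun r _ => Sums_gen D hn r
  refine ⟨e, ?_⟩
  rw [sum_sub_distrib, sum_sub_distrib, ← mul_sum, ← mul_sum, ← mul_sum] at he
  rw [blk_odd D.hp D.h3, X1]
  linear_combination he

theorem lo_sum (D : Dat p h χ a q lam f) {n l t : ℕ} (hn : n = l + t + 1) : ∃ e : ℤ_[p],
    ∑ k ∈ range h, cc p n (p * l + (h + 1 + k)) * (ww p ^ (p * n) * (-3) ^ (p * l + (h + 1 + k))) *
      (p * n * iz p (2 * (p * n : ℕ) - (2 * ((p * l + (h + 1 + k) : ℕ) : ℤ) + 1))) =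
      p * n * blk p (2 * t) - (p * n) ^ 2 * ww p ^ (t + 1) * X2 p h q + (p * n) ^ 2 * p * e := by
  obtain ⟨e, he⟩ := dvd_sum (s := range h) fun k _ => Sums_gen D hn (h + 1 + k)
  refine ⟨e, ?_⟩
  rw [sum_sub_distrib, sum_sub_distrib, ← mul_sum] at he
  have hb : ∑ k ∈ range h, ww p ^ (p * (t + 1)) * ((-3) ^ (h + 1 + k) *
      iz p (2 * p * ((t : ℤ) + 1) - (2 * ((h + 1 + k : ℕ) : ℤ) + 1))) = blk p (2 * t) := by
    rw [blk_even D.hp D.h3, mul_sum]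
    refine sum_congr rfl fun k _ => ?_
    have hp : (p : ℤ) = 2 * h + 1 := by exact_mod_cast D.hp
    have e1 : (2 * p * ((t : ℤ) + 1) - (2 * ((h + 1 + k : ℕ) : ℤ) + 1) : ℤ) =
        p * (2 * (t : ℤ) + 1) - (2 * (k : ℤ) + 2) := by
      push_cast; linear_combination hp
    have e2 : p * (t + 1) = p * t + h + 1 + h := by
      have := D.hp
      rw [mul_add]; omega
    have e3 : h + 1 + k = k + 1 + h := by omega
    rw [e1, e2, e3, pow_add (ww p) _ h, pow_add (-3 : ℤ_[p]) _ h]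
    linear_combination ww p ^ (p * t + h + 1) * (-3) ^ (k + 1) *
      iz p (p * (2 * (t : ℤ) + 1) - (2 * (k : ℤ) + 2)) * ww_pow D.h3 h
  rw [hb, ← mul_sum] at he
  rw [X2]
  linear_combination he

theorem mid_term (D : Dat p h χ a q lam f) {n l t : ℕ} (hn : n = l + t + 1) : ∃ e₁ e₂ : ℤ_[p],
    cc p n (p * l + h) * (ww p ^ (p * n) * (-3) ^ (p * l + h)) =
      χ * ww p ^ (t + 1) * (1 + 4 * (p * n) * lam + 8 * (p * n) ^ 2 * q ^ 2) +
        p * (2 * t + 1) * (χ * ww p ^ (t + 1) * (f (2 * t + 1) + 4 * (p * n) * q * a)) +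
        (p * n) ^ 2 * p * e₁ + p * (2 * t + 1) * (p * n * p * e₂) := by
  obtain ⟨e1, e2, hc⟩ := cc_mid D n l
  obtain ⟨u, hu⟩ := D.f_cong (o := 2 * t + 1) (o' := 1) (by omega) le_rfl
  obtain ⟨v, hv⟩ := D.l1
  rw [D.f3] at hu
  have hχ : (χ : ℤ_[p]) ^ (2 * t + 1) = χ := by rw [pow_succ, pow_mul, D.chi_sq, one_pow, one_mul]
  have hw : ww p ^ (p * (t + 1)) * (-3) ^ h =
      χ * ww p ^ (t + 1) * (1 + p * (2 * t + 1) * f (2 * t + 1)) := by
    have e : p * (t + 1) = t + 1 + h * (2 * t + 1) + h := by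
      conv_lhs => rw [D.hp]
      ring
    have g := D.f1 (2 * t + 1)
    push_cast at g
    rw [e, pow_add, pow_add, pow_mul, mul_assoc, mul_comm (ww p ^ h), ww_pow D.h3, D.ww_h, mul_pow,
      hχ, g]
    ring
  have hl : (p : ℤ_[p]) * (2 * l + 1) = 2 * (p * n) - p * (2 * t + 1) := by
    rw [hn]; push_cast; ring
  rw [Sums_pow D.h3 hn, hw, hc, hl]
  push_cast at hu
  obtain rfl : lam = q + p * v := by linear_combination hv
  generalize f (2 * t + 1) = F at hu ⊢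
  obtain rfl : F = a + p * (2 * t * u) := by linear_combination hu
  refine ⟨(1 + p * (2 * t + 1) * (a + p * (2 * t * u))) * χ * ww p ^ (t + 1) * (2 * e1 + e2),
    -(1 + p * (2 * t + 1) * (a + p * (2 * t * u))) * χ * ww p ^ (t + 1) * e1 +
      χ * ww p ^ (t + 1) * (8 * n * q ^ 2 * (a + p * (2 * t * u)) +
        4 * (q * (2 * t * u) + v * a + p * (2 * t * u) * v)), ?_⟩
  generalize ww p ^ (t + 1) = w
  ring

end Pool.Agent.Work.MP_096b72_nt.Hedge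
end

-- merged part: Pool.Agent.Work.MP_096b72_nt.Hedge.Main
section
/-! The main estimate for the dual sums. -/

set_option autoImplicit false

namespace Pool.Agent.Work.MP_096b72_nt.Hedge

open Finset

variable {p : ℕ} [hpp : Fact p.Prime] {h : ℕ} {χ : ℤ} {a q lam : ℤ_[p]} {f : ℕ → ℤ_[p]}

theorem Main_alg {R : Type*} [CommRing R]
    {P n t v A B y W c lam q a g d x₁ x₂ fo b₀ b₁ T₀ T₁ T₂ Hi Mid Lo e₁ e₂ e₃ e₄ e₅ e₆ e₇ e₈ : R}
    (hi : Hi = P * n * b₁ - (P * n) ^ 2 * W * x₁ + (P * n) ^ 2 * P * e₁)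
    (lo : Lo = P * n * b₀ - (P * n) ^ 2 * W * x₂ + (P * n) ^ 2 * P * e₂)
    (mid : Mid = c * W * (1 + 4 * (P * n) * lam + 8 * (P * n) ^ 2 * q ^ 2) +
      P * (2 * t + 1) * (c * W * (fo + 4 * (P * n) * q * a)) + (P * n) ^ 2 * P * e₃ +
      P * (2 * t + 1) * (P * n * P * e₄))
    (r₁ : T₁ = T₀ + b₀) (r₂ : T₂ = T₁ + b₁ + c * W * fo)
    (h₀ : T₀ = y * (P * t) * (g + P * e₅))
    (h₁ : T₁ = W * (c * lam + P * (2 * t + 1) * (d + P * e₆)))
    (i₂ : 3 * g - 4 * d + 4 * c * q * a - x₁ - x₂ = P * e₇) (i₃ : 8 * c * q ^ 2 + 4 * x₂ = P * e₈)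
    (hv : v * (2 * t + 1) = n) (hA : t * (B - A * (1 - 4 * v)) = 3 * n * B) :
    A * (Hi + v * Mid + (1 - 4 * v) * Lo) - c * W * (v * A) =
      (P * n * A * (T₂ - 3 * (P * n) * g * W) - P * n * B * (T₀ - 3 * (P * n) * g * y)) +
        (P * n) ^ 2 * P * (A * (e₁ + e₂ + e₄ + W * (e₇ - 4 * e₆)) +
          v * A * (e₃ - 4 * e₂ + W * e₈) + B * (3 * y * e₅)) := by
  obtain rfl : b₀ = T₁ - T₀ := by linear_combination -r₁
  obtain rfl : b₁ = T₂ - T₁ - c * W * fo := by linear_combination -r₂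
  rw [hi, lo, mid]
  linear_combination P * n * (B - A * (1 - 4 * v)) * h₀ + P * n * y * P * (g + P * e₅) * hA -
    4 * (P * n) * v * A * h₁ +
    (A * P * (c * W * (fo + 4 * (P * n) * q * a) + P * n * P * e₄) -
      4 * (P * n) * A * W * P * (d + P * e₆)) * hv +
    (P * n) ^ 2 * A * W * i₂ + (P * n) ^ 2 * v * A * W * i₃

/-- The telescoping term. -/
noncomputable def Main_F (p : ℕ) [Fact p.Prime] (h : ℕ) (χ : ℤ) (a : ℤ_[p]) (f : ℕ → ℤ_[p])
    (n l : ℕ) : ℚ_[p] :=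
  p * n * AA ℚ_[p] n l *
    ((Th p χ f (2 * (n - l)) - 3 * (p * n) * gm p h χ a * ww p ^ (n - l) : ℤ_[p]) : ℚ_[p])

omit hpp in
theorem Main_rec {F : Type*} [Field F] [CharZero F] (l t : ℕ) :
    vv F (l + t + 1) l * (2 * t + 1) = (l + t + 1 : ℕ) ∧
    (t : F) * (AA F (l + t + 1) (l + 1) - AA F (l + t + 1) l * ff F (l + t + 1) l) =
      3 * (l + t + 1 : ℕ) * AA F (l + t + 1) (l + 1) := by
  have h1 : (2 * (t : F) + 1) ≠ 0 := by exact_mod_cast (by omega : 2 * t + 1 ≠ 0)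
  have h2 : ((l + 1 : ℕ) : F) + 2 * (l + t + 1 : ℕ) ≠ 0 := by
    exact_mod_cast (by omega : l + 1 + 2 * (l + t + 1) ≠ 0)
  constructor
  · have e : (2 * ((l + t + 1 : ℕ) : F) - (2 * l + 1)) = 2 * t + 1 := by
      push_cast
      ring
    rw [vv, e, div_mul_cancel₀ _ h1]
  · have e : gg F (l + t + 1) (l + 1) * (((l + 1 : ℕ) : F) + 2 * (l + t + 1 : ℕ)) =
        (l + 1 : ℕ) - (l + t + 1 : ℕ) := by rw [gg, div_mul_cancel₀ _ h2]
    rw [AA, prod_range_succ, ← AA]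
    push_cast at e ⊢
    linear_combination (-(AA F (l + t + 1) l * ff F (l + t + 1) l)) * e

theorem Main_term (D : Dat p h χ a q lam f) {n l : ℕ} (hl : l < n) {c : ℤ_[p]}
    (hc : c = iz p 64 ^ (p * n - n) * rho p (p * n) * ww p ^ (p * n)) : ∃ e : ℚ_[p], In e ∧
    (KC n : ℚ_[p]) * (AA ℚ_[p] n l *
      (((∑ r ∈ range h, c * PP p (p * n) (p * l + r) * (-3) ^ (p * l + r) *
          (p * n * iz p (2 * (p * n : ℕ) - (2 * ((p * l + r : ℕ) : ℤ) + 1))) : ℤ_[p]) : ℚ_[p]) +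
        vv ℚ_[p] n l * ((c * PP p (p * n) (p * l + h) * (-3) ^ (p * l + h) : ℤ_[p]) : ℚ_[p]) +
        (1 - 4 * vv ℚ_[p] n l) *
          ((∑ k ∈ range h, c * PP p (p * n) (p * l + (h + 1 + k)) * (-3) ^ (p * l + (h + 1 + k)) *
            (p * n * iz p (2 * (p * n : ℕ) - (2 * ((p * l + (h + 1 + k) : ℕ) : ℤ) + 1))) : ℤ_[p]) :
              ℚ_[p])) -
        χ * ((ww p ^ n : ℤ_[p]) : ℚ_[p]) * ((-3) ^ l * vv ℚ_[p] n l * AA ℚ_[p] n l)) =
      KC n * (Main_F p h χ a f n l - Main_F p h χ a f n (l + 1)) + (p * n) ^ 2 * p * e := by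
  obtain ⟨t, ht⟩ : ∃ t, n = l + t + 1 := ⟨n - l - 1, by omega⟩
  obtain ⟨e₁, hi⟩ := hi_sum D ht
  obtain ⟨e₂, lo⟩ := lo_sum D ht
  obtain ⟨e₃, e₄, mid⟩ := mid_term D ht
  obtain ⟨e₅, h₀⟩ := Th_even D t
  obtain ⟨e₆, h₁⟩ := Th_odd D t
  obtain ⟨e₇, i₂⟩ := id2 D
  obtain ⟨e₈, i₃⟩ := id3 D
  have r₁ := Th_odd_eq (p := p) (χ := χ) (f := f) t
  have r₂ := Th_even_eq (p := p) (χ := χ) (f := f) t
  have ec : ∀ L, c * PP p (p * n) L * (-3) ^ L = cc p n L * (ww p ^ (p * n) * (-3) ^ L) :=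
    fun L => by
      rw [hc, cc]
      ring
  have hw : ww p ^ n * (-3) ^ l = ww p ^ (t + 1) := by
    rw [ht, add_assoc, pow_add]
    linear_combination ww p ^ (t + 1) * ww_pow D.h3 l
  obtain ⟨hv, hA⟩ := Main_rec (F := ℚ_[p]) l t
  rw [← ht] at hv hA
  rw [ff_eq] at hA
  simp only [ec]
  replace hi := congrArg (fun x : ℤ_[p] => (x : ℚ_[p])) hi
  replace lo := congrArg (fun x : ℤ_[p] => (x : ℚ_[p])) lo
  replace mid := congrArg (fun x : ℤ_[p] => (x : ℚ_[p])) mid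
  replace h₀ := congrArg (fun x : ℤ_[p] => (x : ℚ_[p])) h₀
  replace h₁ := congrArg (fun x : ℤ_[p] => (x : ℚ_[p])) h₁
  replace i₂ := congrArg (fun x : ℤ_[p] => (x : ℚ_[p])) i₂
  replace i₃ := congrArg (fun x : ℤ_[p] => (x : ℚ_[p])) i₃
  replace r₁ := congrArg (fun x : ℤ_[p] => (x : ℚ_[p])) r₁
  replace r₂ := congrArg (fun x : ℤ_[p] => (x : ℚ_[p])) r₂
  replace hw := congrArg (fun x : ℤ_[p] => (x : ℚ_[p])) hw
  beta_reduce at hi lo mid h₀ h₁ i₂ i₃ r₁ r₂ hw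
  generalize (∑ r ∈ range h, cc p n (p * l + r) * (ww p ^ (p * n) * (-3) ^ (p * l + r)) *
    (p * n * iz p (2 * (p * n : ℕ) - (2 * ((p * l + r : ℕ) : ℤ) + 1))) : ℤ_[p]) = Hi at hi ⊢
  generalize (∑ k ∈ range h, cc p n (p * l + (h + 1 + k)) *
    (ww p ^ (p * n) * (-3) ^ (p * l + (h + 1 + k))) *
      (p * n * iz p (2 * (p * n : ℕ) - (2 * ((p * l + (h + 1 + k) : ℕ) : ℤ) + 1))) : ℤ_[p]) =
        Lo at lo ⊢
  generalize cc p n (p * l + h) * (ww p ^ (p * n) * (-3) ^ (p * l + h)) = Mid at mid ⊢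
  have c2 : ((2 : ℤ_[p]) : ℚ_[p]) = 2 := rfl
  have c3 : ((3 : ℤ_[p]) : ℚ_[p]) = 3 := rfl
  have c4 : ((4 : ℤ_[p]) : ℚ_[p]) = 4 := rfl
  have c8 : ((8 : ℤ_[p]) : ℚ_[p]) = 8 := rfl
  push_cast [c2, c3, c4, c8] at hi lo mid h₀ h₁ i₂ i₃ r₁ r₂ hw
  have key := Main_alg hi lo mid r₁ r₂ h₀ h₁ i₂ i₃ hv hA
  have iz' : ∀ z : ℤ_[p], In (z : ℚ_[p]) := fun z => In_iff.2 ⟨z, rfl⟩
  refine ⟨KC n * AA ℚ_[p] n l * ((e₁ + e₂ + e₄ + ww p ^ (t + 1) * (e₇ - 4 * e₆) : ℤ_[p]) : ℚ_[p]) +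
    KC n * (vv ℚ_[p] n l * AA ℚ_[p] n l) * ((e₃ - 4 * e₂ + ww p ^ (t + 1) * e₈ : ℤ_[p]) : ℚ_[p]) +
    KC n * AA ℚ_[p] n (l + 1) * ((3 * ww p ^ t * e₅ : ℤ_[p]) : ℚ_[p]),
    (((In_KA D.h3 (by omega) hl.le).mul (iz' _)).add ((In_KvA D.h3 hl).mul (iz' _))).add
      ((In_KA D.h3 (by omega) hl).mul (iz' _)), ?_⟩
  rw [Main_F, Main_F, show n - l = t + 1 by omega, show n - (l + 1) = t by omega, mul_add 2 t 1,
    mul_one]
  push_cast [c3, c4]
  linear_combination (KC n : ℚ_[p]) * key - KC n * χ * vv ℚ_[p] n l * AA ℚ_[p] n l * hw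

theorem main_est (D : Dat p h χ a q lam f) {n : ℕ} (hn : 1 ≤ n) : ∃ e : ℚ_[p], In e ∧
    (KC n : ℚ_[p]) *
      (((iz p 64 ^ (p * n - n) * rho p (p * n) * ww p ^ (p * n) : ℤ_[p]) : ℚ_[p]) * UU p (p * n) -
        χ * ((ww p ^ n : ℤ_[p]) : ℚ_[p]) * UU p n) =
      (p * n) ^ 2 * (KC n * ((ww p ^ n * (-2 * gm p h χ a) : ℤ_[p]) : ℚ_[p]) + p * e) := by
  choose! e he using fun l (hl : l < n) => Main_term D hl rfl
  obtain ⟨e₀, h₀⟩ := Th_even D n
  refine ⟨∑ l ∈ range n, e l + KC n * ((ww p ^ n * e₀ : ℤ_[p]) : ℚ_[p]),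
    (In_phi_sum e n fun l hl => (he l hl).1).1.add ((In_nat _).mul (In_iff.2 ⟨_, rfl⟩)), ?_⟩
  have c2 : ((2 : ℤ_[p]) : ℚ_[p]) = 2 := rfl
  have c3 : ((3 : ℤ_[p]) : ℚ_[p]) = 3 := rfl
  rw [UU_split D.hp hn, UU, mul_sum, ← sum_sub_distrib, mul_sum,
    sum_congr rfl fun l hl => (he l (mem_range.1 hl)).2, sum_add_distrib, ← mul_sum, ← mul_sum,
    sum_range_sub', Main_F, Main_F, AA_self n hn, Nat.sub_zero, h₀, AA, prod_range_zero]
  push_cast [c2, c3]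
  ring

end Pool.Agent.Work.MP_096b72_nt.Hedge
end

-- merged part: Pool.Agent.Work.MP_096b72_nt.Hedge.Fin
section
/-! The congruence between the truncated sums up to `p n` and up to `n`. -/

set_option autoImplicit false

namespace Pool.Agent.Work.MP_096b72_nt.Hedge

open Finset

variable {p : ℕ} [hpp : Fact p.Prime] {h : ℕ} {χ : ℤ} {a q lam : ℤ_[p]} {f : ℕ → ℤ_[p]}

theorem Fin_sum {N : ℕ} (hN : 1 ≤ N) : ∑ k ∈ range N, (5 * (k : ℚ_[p]) + 1) * tt ℚ_[p] k =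
    N * (1 / -192) ^ (N - 1) * kk ℚ_[p] N * UU p N := by
  obtain ⟨m, rfl⟩ : ∃ m, N = m + 1 := ⟨N - 1, by omega⟩
  have k := key_identity (F := ℚ_[p]) m
  have h0 : ((m + 1 : ℕ) : ℚ_[p]) ≠ 0 := Nat.cast_ne_zero.2 (by omega)
  rw [Nat.add_sub_cancel, UU, mul_assoc, mul_assoc, ← mul_assoc ((1 / -192) ^ m), ← k, ← mul_assoc,
    mul_one_div_cancel h0, one_mul]

theorem Fin_bern (D : Dat p h χ a q lam f) : ∃ e : ℤ_[p],
    ((-2 * gm p h χ a : ℤ_[p]) : ℚ_[p]) =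
      5 / 18 * (((Polynomial.bernoulli (p - 2)).eval (1 / 3 : ℚ) : ℚ) : ℚ_[p]) + p * e := by
  obtain ⟨iB, pB⟩ := bern_val D.hp D.h3 D.hχ
  obtain ⟨b, hb⟩ := In_iff.1 iB
  rw [hb, phi_coe] at pB
  have d18 : ¬ (p : ℤ) ∣ 18 := by
    intro k
    have h' : p ∣ 2 * 3 ^ 2 := by exact_mod_cast k
    have := D.h3
    rcases (Nat.Prime.dvd_mul hpp.out).1 h' with k | k
    · have := Nat.le_of_dvd (by omega) k
      omega
    · have := Nat.le_of_dvd (by omega) (hpp.out.dvd_of_dvd_pow k)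
      omega
  have i18 := congrArg (red p) (iz_mul d18)
  have pb : red p b = 18 * χ * s0 (KK p) h := pB
  obtain ⟨e, he⟩ : (p : ℤ_[p]) ∣ -2 * gm p h χ a - 5 * iz p 18 * b := by
    rw [← red_eq, id1 D]
    simp only [map_mul, map_ofNat, map_one, map_intCast, pb] at i18 ⊢
    push_cast at i18
    linear_combination (-(5 * χ * s0 (KK p) h)) * i18
  refine ⟨e, ?_⟩
  have c5 : ((5 : ℤ_[p]) : ℚ_[p]) = 5 := rfl
  rw [hb, sub_eq_iff_eq_add.1 he]
  push_cast [c5, iz_coe d18]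
  ring

theorem Fin_est (D : Dat p h χ a q lam f) {n : ℕ} (hn : 1 ≤ n) : ∃ e : ℚ_[p], In e ∧
    (-192) ^ (n - 1) * (∑ k ∈ range (p * n), (5 * (k : ℚ_[p]) + 1) * tt ℚ_[p] k -
      p * χ * ∑ k ∈ range n, (5 * (k : ℚ_[p]) + 1) * tt ℚ_[p] k) /
        ((p * n) ^ 3 * ((2 * n - 1).choose (n - 1) : ℚ_[p])) -
      5 / 18 * KC n * (((Polynomial.bernoulli (p - 2)).eval (1 / 3 : ℚ) : ℚ) : ℚ_[p]) = p * e := by
  obtain ⟨e, ie, he⟩ := main_est D hn
  obtain ⟨e', he'⟩ := Fin_bern D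
  have hle : n ≤ p * n := Nat.le_mul_of_pos_left n hpp.out.pos
  have i3 : In (-3 : ℚ_[p]) := by exact_mod_cast In_int (p := p) (-3)
  refine ⟨(-3) ^ n * e + KC n * e', ((i3.pow n).mul ie).add ((In_nat _).mul (In_iff.2 ⟨_, rfl⟩)), ?_⟩
  have hw : ((ww p : ℤ_[p]) : ℚ_[p]) = 1 / -3 := by
    rw [ww, iz_coe (by rw [dvd_neg]; exact nd_lt (by norm_num) (by have := D.h3; omega))]
    norm_num
  have h64 : ((iz p 64 : ℤ_[p]) : ℚ_[p]) = 1 / 64 := by
    have := congrArg (fun x : ℤ_[p] => (x : ℚ_[p])) (iz64 D.h3)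
    have c2 : ((2 : ℤ_[p]) : ℚ_[p]) = 2 := rfl
    push_cast [c2] at this
    linear_combination (1 / 64) * this
  have hC : ((2 * n - 1).choose (n - 1) : ℚ_[p]) ≠ 0 :=
    Nat.cast_ne_zero.2 (Nat.choose_pos (by omega)).ne'
  have hN : (p : ℚ_[p]) * n ≠ 0 := mul_ne_zero p_ne (Nat.cast_ne_zero.2 (by omega))
  rw [PadicInt.coe_mul (ww p ^ n), he'] at he
  push_cast [hw, h64] at he
  obtain ⟨m, hm⟩ : ∃ m, p * n = n + m := ⟨p * n - n, by omega⟩
  have e1 : ((-192 : ℚ_[p])) ^ (n - 1) * (1 / -192) ^ (n - 1) = 1 := by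
    rw [← mul_pow]
    norm_num
  have e2 : ((1 : ℚ_[p]) / -192) ^ (p * n - 1) = (1 / -192) ^ (n - 1) * (1 / -192) ^ m := by
    rw [← pow_add, show n - 1 + m = p * n - 1 by omega]
  have e3 : ((1 : ℚ_[p]) / 64) ^ (p * n - n) * (1 / -3) ^ (p * n) =
      (1 / -3) ^ n * (1 / -192) ^ m := by
    rw [show p * n - n = m by omega, hm, pow_add, mul_left_comm, ← mul_pow]
    norm_num
  have e4 : ((-3 : ℚ_[p])) ^ n * (1 / -3) ^ n = 1 := by
    rw [← mul_pow]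
    norm_num
  rw [Fin_sum hn, Fin_sum (hn.trans hle), kk_split, kk_eq hn, e2, sub_eq_iff_eq_add,
    div_eq_iff (mul_ne_zero (pow_ne_zero 3 hN) hC)]
  push_cast
  generalize ((2 * n - 1).choose (n - 1) : ℚ_[p]) = C at *
  generalize (KC n : ℚ_[p]) = K at *
  generalize (((Polynomial.bernoulli (p - 2)).eval (1 / 3 : ℚ) : ℚ) : ℚ_[p]) = B at *
  generalize ((rho p (p * n) : ℤ_[p]) : ℚ_[p]) = ρ at *
  generalize ((1 : ℚ_[p]) / -192) ^ m = x at *
  generalize ((1 : ℚ_[p]) / -192) ^ (n - 1) = y at *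
  generalize ((-192 : ℚ_[p])) ^ (n - 1) = z at *
  generalize ((1 : ℚ_[p]) / 64) ^ (p * n - n) = u at *
  generalize ((1 : ℚ_[p]) / -3) ^ (p * n) = v at *
  generalize ((1 : ℚ_[p]) / -3) ^ n = w at *
  generalize ((-3 : ℚ_[p])) ^ n = s at *
  linear_combination p * n * C * s * he +
    p * n * C * K * (x * ρ * UU p (p * n) - χ * UU p n) * e1 -
    p * n * C * K * s * ρ * UU p (p * n) * e3 -
    p * n * C * K * (x * ρ * UU p (p * n) - χ * UU p n - (p * n) ^ 2 * (5 / 18 * B + p * e')) * e4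

theorem all_n (p : ℕ) (hpp : p.Prime) (h3 : 3 < p) (n : ℕ) (hn : 1 ≤ n) (S : ℕ → ℚ) (X R : ℚ)
    (hS : ∀ N : ℕ, S N = ∑ k ∈ Finset.range N, (5 * (k : ℚ) + 1) / (-192 : ℚ) ^ k *
      (((Nat.choose (2 * k) k : ℕ) : ℚ) ^ 2 * ((Nat.choose (3 * k) k : ℕ) : ℚ)))
    (hX : X = (-192 : ℚ) ^ (n - 1) *
      (S (p * n) - (p : ℚ) * ((jacobiSym (p : ℤ) 3 : ℤ) : ℚ) * S n) /
        (((p : ℚ) * (n : ℚ)) ^ 3 * ((Nat.choose (2 * n - 1) (n - 1) : ℕ) : ℚ)))
    (hR : R = (5 / 18 : ℚ) * ((Nat.choose (2 * n - 1) (n - 1) : ℕ) : ℚ) *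
      ((Nat.choose (3 * n - 1) (n - 1) : ℕ) : ℚ) *
        (Polynomial.bernoulli (p - 2)).eval (1 / 3 : ℚ)) :
    X - R = 0 ∨ 1 ≤ padicValRat p (X - R) := by
  have := Fact.mk hpp
  obtain ⟨h, hp⟩ : ∃ h, p = 2 * h + 1 := hpp.odd_of_ne_two (by omega)
  obtain ⟨a, q, lam, f, D⟩ := exists_dat hp h3 (jacobi_chi hpp h3)
  obtain ⟨e, ie, he⟩ := Fin_est D hn
  have eS : ∀ N, (S N : ℚ_[p]) = ∑ k ∈ range N, (5 * (k : ℚ_[p]) + 1) * tt ℚ_[p] k := fun N => by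
    rw [hS]
    push_cast
    exact sum_congr rfl fun k _ => by
      unfold tt
      ring
  have eX : ((X - R : ℚ) : ℚ_[p]) = p * e := by
    rw [← he, hX, hR, KC]
    push_cast [eS]
    ring
  by_cases h0 : X - R = 0
  · exact Or.inl h0
  right
  have fin : ‖((X - R : ℚ) : ℚ_[p])‖ ≤ (p : ℝ) ^ (-(1 : ℤ)) := by
    rw [eX, norm_mul, Padic.norm_p, zpow_neg_one]
    exact mul_le_of_le_one_right (by positivity) ie
  rw [Padic.eq_padicNorm, padicNorm.eq_zpow_of_nonzero h0] at fin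
  have hp1 : (1 : ℝ) < p := by exact_mod_cast hpp.one_lt
  push_cast at fin
  have := (zpow_le_zpow_iff_right₀ hp1).1 fin
  omega

end Pool.Agent.Work.MP_096b72_nt.Hedge
end

-- merged part: Pool.Agent.Work.MP_096b72_nt.Hedge.SDefs
section
/-! Definitions for the congruence with the full divisor (paper proof: h67_096b72_full.md in the
team store). -/

set_option autoImplicit false

namespace Pool.Agent.Work.MP_096b72_nt.Hedge

open Finset

noncomputable section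

/-- The first `k` differences of `g` gain one factor `p` each. -/
def Mk (p : ℕ) [Fact p.Prime] : ℕ → (ℕ → ℤ_[p]) → Prop
  | 0, _ => True
  | k + 1, g => ∃ g' : ℕ → ℤ_[p], Mk p k g' ∧ ∀ l, g (l + 1) = g l + p * g' l

/-- All differences of `g` gain one factor `p` each. -/
def MM {p : ℕ} [Fact p.Prime] (g : ℕ → ℤ_[p]) : Prop := ∀ k, Mk p k g

/-- `b` is the sequence of coefficients of `g` in the basis of falling factorials. -/
def HasCo {R : Type*} [CommRing R] (g b : ℕ → R) : Prop :=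
  ∀ l, g l = ∑ k ∈ range (l + 1), b k * (l.descFactorial k : R)

/-- The coefficients of `g` in the basis of falling factorials tend to zero. -/
def CA {p : ℕ} [Fact p.Prime] (g : ℕ → ℚ_[p]) : Prop :=
  ∃ b : ℕ → ℚ_[p], Filter.Tendsto b Filter.atTop (nhds 0) ∧ HasCo g b

/-- Coefficients of the shifted function. -/
def coS {R : Type*} [CommRing R] (b : ℕ → R) (k : ℕ) : R := b k + (k + 1) * b (k + 1)

/-- Coefficients of the function multiplied by the argument. -/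
def coX {R : Type*} [CommRing R] (b : ℕ → R) : ℕ → R
  | 0 => 0
  | k + 1 => coS b k

/-- Coefficients of `P g + Q g (· + 1)` for quadratic `P`, `Q`. -/
def coL {R : Type*} [CommRing R] (p₀ p₁ p₂ q₀ q₁ q₂ : R) (b : ℕ → R) (k : ℕ) : R :=
  p₀ * b k + p₁ * coX b k + p₂ * coX (coX b) k +
    (q₀ * coS b k + q₁ * coX (coS b) k + q₂ * coX (coX (coS b)) k)

variable (F : Type*) [Field F]

/-- `gg` with its zero replaced by a multiple of `κ`. -/
def gb (κ : F) (N i : ℕ) : F := if i = N then κ / (3 * N) else gg F N i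

/-- `AA` with its zero factor replaced. -/
def AB (κ : F) (N l : ℕ) : F := ∏ i ∈ range l, (ff F N i * gb F κ N (i + 1))

/-- The vertical term of the closed form. -/
def tb (κ : F) (N l : ℕ) : F := -16 * N * tt F N * ((-3) ^ l * vv F N l * AB F κ N l)

/-- The common factor of the horizontal terms. -/
def EE (κ : F) (m j : ℕ) : F :=
  tt F m * (-3) ^ j * AB F κ (m + 1) j *
    ((j + 2 * m + 2) / ((2 * j - 1 - 2 * m) * (2 * j + 1 + 2 * m)))

/-- The linear factor of the horizontal term. -/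
def lm (m j : ℕ) : F := (2 * m + 1) * (m * j + (5 * m + 1) * (2 * m + 1) / 2) / (m + 1)

/-- The horizontal term of the closed form. -/
def GB (κ : F) (m j : ℕ) : F := EE F κ m j * lm F m j

/-- First coefficient of the difference operator. -/
def LP (n l : ℕ) : ℤ := (2 * n - 2 * l - 1) * (l + 2 * n)

/-- Second coefficient of the difference operator. -/
def LQ (n l : ℕ) : ℤ := -3 * (2 * l + 1 + 2 * n) * (l + 1 - n)

variable (p : ℕ) [Fact p.Prime]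

/-- The quotient of `tt (p n)` by `tt n`. -/
def cn (n : ℕ) : ℤ_[p] := iz p 64 ^ (p * n - n) * rho p (p * n) * ww p ^ (p * n - n)

/-- One term of a block. -/
def tm (h n l r : ℕ) : ℤ_[p] :=
  PP p (p * n) (p * l + r) * (-3) ^ (2 * h * l + r) *
    iz p (2 * (p * n : ℕ) - (2 * ((p * l + r : ℕ) : ℤ) + 1))

/-- The normalised sum of a block of vertical terms. -/
def ths (h n l : ℕ) : ℤ_[p] :=
  cn p n * (PP p (p * n) (p * l + h) * (-3) ^ (2 * h * l + h) +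
    p * (2 * n - 2 * l - 1) * ∑ r ∈ range h, tm p h n l r +
    p * (-2 * n - 2 * l - 1) * ∑ k ∈ range h, tm p h n l (h + 1 + k))

/-- Division of `ths` by the difference operator. -/
structure Dv (h n : ℕ) (ψ : ℕ → ℤ_[p]) (c₀ c₁ : ℤ_[p]) : Prop where
  ca : CA fun l => (ψ l : ℚ_[p])
  cong : ∀ l, (p : ℤ_[p]) ^ 3 ∣ ψ l - ψ 0
  eq : ∀ l, ths p h n l = LP n l * ψ l + LQ n l * ψ (l + 1) + c₀ + c₁ * l

end

end Pool.Agent.Work.MP_096b72_nt.Hedge
end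

-- merged part: Pool.Agent.Work.MP_096b72_nt.Hedge.SMM
section
/-! Closure properties of the class `MM`.

PLAN. Prove the statements for `Mk p k` by induction on `k` (generalising the functions). `Mk (k + 1) g → Mk k g` and `Mk k g → Mk k (fun l => g (l + 1))` first. Product:
`f (l + 1) g (l + 1) = f l g l + p (f (l + 1) g' l + f' l g l)`. `MM_iz`: `iz_shift` with `e = p b`: `iz (d + e) = iz d - e * iz d * iz (d + e)`, induction on `k`.
`MM_rec`: `G' = G * B`, induction on `k`. `MM.hasCo`: iterating, there are `D k : ℕ → ℤ_[p]` with `D 0 = g`, `D k (l + 1) = D k l + p * D (k + 1) l` (the witness `g'` is unique since `p ≠ 0`,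
so `MM g → ∃ g', MM g' ∧ ...`; `Nat.rec` on the subtype of `MM` functions, or `fwdDiff`: `p ^ k ∣ (fwdDiff 1)^[k] g 0` and `shift_eq_sum_fwdDiff_iter`). Newton:
`g l = ∑ k, l.choose k * p ^ k * D k 0`, `descFactorial l k = k! * l.choose k`, and `p ^ k = k! * c` with `p ^ (k - k / 4) ∣ c`
(`k! = p ^ v * m`, `p ∤ m`, `4 v ≤ (p - 1) v ≤ k` by `sub_one_mul_padicValNat_factorial`; see `Log_c`). -/

set_option autoImplicit false

namespace Pool.Agent.Work.MP_096b72_nt.Hedge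

open Finset

variable {p : ℕ} [hpp : Fact p.Prime] {h : ℕ} {χ : ℤ} {a q lam : ℤ_[p]} {f : ℕ → ℤ_[p]}

theorem SMM_mono : ∀ (k : ℕ) {g : ℕ → ℤ_[p]}, Mk p (k + 1) g → Mk p k g
  | 0, _, _ => trivial
  | k + 1, _, ⟨g', h1, e⟩ => ⟨g', SMM_mono k h1, e⟩

theorem SMM_shift : ∀ (k : ℕ) {g : ℕ → ℤ_[p]}, Mk p k g → Mk p k fun l => g (l + 1)
  | 0, _, _ => trivial
  | k + 1, _, ⟨_, h1, e⟩ => ⟨_, SMM_shift k h1, fun l => e (l + 1)⟩

theorem SMM_const : ∀ (k : ℕ) (c : ℤ_[p]), Mk p k fun _ => c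
  | 0, _ => trivial
  | k + 1, _ => ⟨_, SMM_const k 0, fun _ => by simp⟩

theorem SMM_add : ∀ (k : ℕ) {g₁ g₂ : ℕ → ℤ_[p]}, Mk p k g₁ → Mk p k g₂ →
    Mk p k fun l => g₁ l + g₂ l
  | 0, _, _, _, _ => trivial
  | k + 1, _, _, ⟨_, h1, e1⟩, ⟨_, h2, e2⟩ =>
    ⟨_, SMM_add k h1 h2, fun l => by linear_combination e1 l + e2 l⟩

theorem SMM_mul : ∀ (k : ℕ) {g₁ g₂ : ℕ → ℤ_[p]}, Mk p k g₁ → Mk p k g₂ →
    Mk p k fun l => g₁ l * g₂ l
  | 0, _, _, _, _ => trivial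
  | k + 1, g₁, g₂, ⟨a₁, h1, e1⟩, ⟨a₂, h2, e2⟩ =>
    ⟨_, SMM_add k (SMM_mul k (SMM_shift k (SMM_mono k ⟨a₁, h1, e1⟩)) h2)
      (SMM_mul k h1 (SMM_mono k ⟨a₂, h2, e2⟩)),
      fun l => by linear_combination g₁ (l + 1) * e2 l + g₂ l * e1 l⟩

theorem MM_const (c : ℤ_[p]) : MM fun _ => c := fun k => SMM_const k c

theorem MM.add {g₁ g₂ : ℕ → ℤ_[p]} (h₁ : MM g₁) (h₂ : MM g₂) : MM fun l => g₁ l + g₂ l :=
  fun k => SMM_add k (h₁ k) (h₂ k)

theorem MM.mul {g₁ g₂ : ℕ → ℤ_[p]} (h₁ : MM g₁) (h₂ : MM g₂) : MM fun l => g₁ l * g₂ l :=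
  fun k => SMM_mul k (h₁ k) (h₂ k)

theorem MM.congr {g₁ g₂ : ℕ → ℤ_[p]} (h₁ : MM g₁) (e : ∀ l, g₁ l = g₂ l) : MM g₂ :=
  funext e ▸ h₁

theorem MM_sum {g : ℕ → ℕ → ℤ_[p]} (m : ℕ) (hg : ∀ r < m, MM (g r)) :
    MM fun l => ∑ r ∈ range m, g r l := by
  induction m with
  | zero => exact (MM_const 0).congr fun l => by simp
  | succ m ih =>
    exact ((ih fun r hr => hg r (by omega)).add (hg m (by omega))).congr fun l =>
      (sum_range_succ _ _).symm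

theorem MM_lin (c d : ℤ_[p]) : MM fun l : ℕ => c + (p : ℤ_[p]) * d * (l : ℤ_[p])
  | 0 => trivial
  | k + 1 => ⟨_, SMM_const k d, fun l => by push_cast; ring⟩

theorem MM_iz (c d : ℤ) : MM fun l : ℕ => iz p (c + (p : ℤ) * d * (l : ℤ)) := by
  intro k
  induction k with
  | zero => trivial
  | succ k ih =>
    refine ⟨_, SMM_mul k (SMM_mul k (SMM_const k (-d : ℤ_[p])) ih) (SMM_shift k ih), fun l => ?_⟩
    have h1 := iz_shift (p := p) (c + (p : ℤ) * d * (l : ℤ)) (e := p * d) ⟨d, rfl⟩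
    rw [show c + (p : ℤ) * d * (l : ℤ) + p * d = c + (p : ℤ) * d * ((l + 1 : ℕ) : ℤ) by
      push_cast; ring, Int.cast_mul, Int.cast_natCast] at h1
    linear_combination h1

theorem MM_rec {G B : ℕ → ℤ_[p]} (hB : MM B) (hG : ∀ l, G (l + 1) = G l * (1 + p * B l)) :
    MM G := by
  intro k
  induction k with
  | zero => trivial
  | succ k ih => exact ⟨_, SMM_mul k ih (hB k), fun l => by linear_combination hG l⟩

theorem MM_prod_one {g : ℕ → ℕ → ℤ_[p]} (m : ℕ) (hg : ∀ r < m, MM (g r)) :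
    ∃ B : ℕ → ℤ_[p], MM B ∧ ∀ l, ∏ r ∈ range m, (1 + p * g r l) = 1 + p * B l := by
  induction m with
  | zero => exact ⟨_, MM_const 0, fun l => by simp⟩
  | succ m ih =>
    obtain ⟨B, h1, e⟩ := ih fun r hr => hg r (by omega)
    have h2 := hg m (by omega)
    exact ⟨_, (h1.add h2).add (((MM_const p).mul h1).mul h2), fun l => by
      rw [prod_range_succ, e]; ring⟩

theorem SMM_dvd : ∀ (k : ℕ) {g : ℕ → ℤ_[p]}, Mk p k g →
    (p : ℤ_[p]) ^ k ∣ (fwdDiff 1)^[k] g 0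
  | 0, _, _ => by simp
  | k + 1, g, ⟨g', h1, e⟩ => by
    have h2 : fwdDiff 1 g = (p : ℤ_[p]) • g' := funext fun l => by
      rw [fwdDiff, e l, Pi.smul_apply, smul_eq_mul]; ring
    rw [Function.iterate_succ_apply, h2, fwdDiff_iter_const_smul, pow_succ']
    exact mul_dvd_mul_left _ (SMM_dvd k h1)

theorem SMM_c (h3 : 3 < p) (k : ℕ) :
    ∃ c : ℤ_[p], c * (k.factorial : ℕ) = p ^ k ∧ (p : ℤ_[p]) ^ (k - k / 4) ∣ c := by
  obtain ⟨v, u, hu, he⟩ := Nat.exists_eq_pow_mul_and_not_dvd k.factorial_ne_zero p hpp.out.ne_one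
  have h1 : v ≤ padicValNat p k.factorial :=
    (padicValNat_dvd_iff_le k.factorial_ne_zero).1 ⟨u, he⟩
  have h2 := sub_one_mul_padicValNat_factorial (p := p) k
  have h4 : p ≠ 4 := fun e => absurd (e ▸ hpp.out) (by decide)
  have h5 : 4 * v ≤ k := (Nat.mul_le_mul (by omega) h1).trans (h2.le.trans (Nat.sub_le _ _))
  have h6 := iz_mul (p := p) (d := u) (by exact_mod_cast hu)
  refine ⟨p ^ (k - v) * iz p u, ?_, (pow_dvd_pow _ (by omega)).mul_right _⟩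
  have h7 : (p : ℤ_[p]) ^ k = p ^ (k - v) * p ^ v := by rw [← pow_add, Nat.sub_add_cancel (by omega)]
  rw [he, h7]
  push_cast at h6 ⊢
  linear_combination (p : ℤ_[p]) ^ (k - v) * p ^ v * h6

theorem MM.hasCo (h3 : 3 < p) {g : ℕ → ℤ_[p]} (hg : MM g) :
    ∃ b : ℕ → ℤ_[p], HasCo g b ∧ ∀ k, (p : ℤ_[p]) ^ (k - k / 4) ∣ b k := by
  choose c h1 h2 using SMM_c h3
  choose D hD using fun k => SMM_dvd k (hg k)
  refine ⟨fun k => c k * D k, fun l => ?_, fun k => (h2 k).mul_right _⟩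
  have h4 := shift_eq_sum_fwdDiff_iter 1 g l 0
  rw [zero_add, smul_eq_mul, mul_one] at h4
  rw [h4]
  refine sum_congr rfl fun k _ => ?_
  rw [hD, Nat.descFactorial_eq_factorial_mul_choose, nsmul_eq_mul, Nat.cast_mul, ← h1]
  ring

end Pool.Agent.Work.MP_096b72_nt.Hedge
end

-- merged part: Pool.Agent.Work.MP_096b72_nt.Hedge.SCo
section
/-! Coefficients in the basis of falling factorials; the class `CA`.

PLAN. `HasCo.shift`: `(l + 1).descFactorial (k + 1) = l.descFactorial (k + 1) + (k + 1) * l.descFactorial k` (`Nat.succ_descFactorial_succ`, `Nat.descFactorial_succ`; cases `k ≤ l`),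
`Finset.sum_range_succ'`, `l.descFactorial (l + 1) = 0`. `HasCo.mulX`: `l * g l` with `l = m + 1`: `(m + 1).descFactorial (k + 1) = (m + 1) * m.descFactorial k`, so it is enough to have
`g (m + 1) = ∑ k < m + 1, coS b k * m.descFactorial k`, which is `HasCo.shift`. `HasCo.unique`: strong induction, at `l = k` the top term is `b k * k!`.
`coL_add_two`: unfold, `push_cast`, `ring`. `CA`: `‖coS b k‖ ≤ max ‖b k‖ ‖b (k + 1)‖` or: `(k + 1) * b (k + 1)` tends to zero by `squeeze_zero_norm` with `Padic.norm_nat_le_one`/`IsUltrametricDist.norm_natCast_le_one`;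
`Filter.tendsto_add_atTop_iff_nat`. `CA_of_dvd`: norm at most `p ^ (-(k - k / 4))`. -/

set_option autoImplicit false

namespace Pool.Agent.Work.MP_096b72_nt.Hedge

open Finset

variable {p : ℕ} [hpp : Fact p.Prime] {h : ℕ} {χ : ℤ} {a q lam : ℤ_[p]} {f : ℕ → ℤ_[p]}

section

variable {R : Type*} [CommRing R] {g b g' b' : ℕ → R}

omit hpp

theorem SCo_desc (l k : ℕ) :
    (l + 1).descFactorial (k + 1) = l.descFactorial (k + 1) + (k + 1) * l.descFactorial k := by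
  rw [Nat.succ_descFactorial_succ, Nat.descFactorial_succ, ← add_mul]
  rcases le_or_gt k l with hk | hk
  · rw [show l - k + (k + 1) = l + 1 by omega]
  · rw [Nat.descFactorial_of_lt hk, mul_zero, mul_zero]

theorem HasCo.add (h₁ : HasCo g b) (h₂ : HasCo g' b') :
    HasCo (fun l => g l + g' l) fun k => b k + b' k := by
  intro l
  simp only [h₁ l, h₂ l, add_mul, sum_add_distrib]

theorem HasCo.smul (c : R) (h₁ : HasCo g b) : HasCo (fun l => c * g l) fun k => c * b k := by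
  intro l
  simp only [h₁ l, mul_sum, mul_assoc]

theorem HasCo_const (c : R) : HasCo (fun _ => c) fun k => if k = 0 then c else 0 := by
  intro l
  simp

theorem HasCo.shift (h₁ : HasCo g b) : HasCo (fun l => g (l + 1)) (coS b) := by
  intro l
  have e : ∑ k ∈ range (l + 1), b k * (l.descFactorial k : R) =
      ∑ k ∈ range (l + 1), b (k + 1) * (l.descFactorial (k + 1) : R) + b 0 := by
    have e₁ := sum_range_succ (fun k => b k * (l.descFactorial k : R)) (l + 1)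
    rw [sum_range_succ', Nat.descFactorial_of_lt (Nat.lt_succ_self l)] at e₁
    simpa using e₁.symm
  simp only [coS, add_mul, sum_add_distrib]
  rw [e, h₁ (l + 1), sum_range_succ', add_right_comm, ← sum_add_distrib, ← sum_add_distrib]
  simp only [SCo_desc, Nat.descFactorial_zero, Nat.cast_one, mul_one]
  refine congrArg (· + b 0) (sum_congr rfl fun k _ => ?_)
  push_cast
  ring

theorem HasCo.mulX (h₁ : HasCo g b) : HasCo (fun l => l * g l) (coX b) := by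
  intro l
  rcases l with _ | m
  · simp [coX]
  · have e := h₁.shift m
    simp only at e ⊢
    rw [sum_range_succ', e, mul_sum]
    simp only [coX, zero_mul, add_zero, Nat.succ_descFactorial_succ]
    refine sum_congr rfl fun k _ => ?_
    push_cast
    ring

theorem HasCo.coL (p₀ p₁ p₂ q₀ q₁ q₂ : R) (h₁ : HasCo g b) :
    HasCo (fun l => (p₀ + p₁ * l + p₂ * l ^ 2) * g l + (q₀ + q₁ * l + q₂ * l ^ 2) * g (l + 1))
      (coL p₀ p₁ p₂ q₀ q₁ q₂ b) := by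
  intro l
  have e := (((h₁.smul p₀).add (h₁.mulX.smul p₁)).add (h₁.mulX.mulX.smul p₂)).add
    (((h₁.shift.smul q₀).add (h₁.shift.mulX.smul q₁)).add (h₁.shift.mulX.mulX.smul q₂)) l
  refine Eq.trans ?_ e
  ring

theorem coL_add_two (p₀ p₁ p₂ q₀ q₁ q₂ : R) (b : ℕ → R) (k : ℕ) :
    coL p₀ p₁ p₂ q₀ q₁ q₂ b (k + 2) = (p₂ + q₂) * b k +
      (p₁ + q₁ + p₂ * (2 * k + 3) + q₂ * (3 * k + 4)) * b (k + 1) +
      (p₀ + q₀ + (p₁ + 2 * q₁) * (k + 2) + p₂ * (k + 2) ^ 2 + q₂ * (k + 2) * (3 * k + 5)) * b (k + 2) +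
      (q₀ + q₁ * (k + 2) + q₂ * (k + 2) ^ 2) * (k + 3) * b (k + 3) := by
  simp only [coL, coX, coS]
  push_cast
  ring

theorem HasCo.unique [IsDomain R] [CharZero R] (h₁ : HasCo g b) (h₂ : HasCo g b') : b = b' := by
  funext k
  induction k using Nat.strong_induction_on with
  | _ k ih =>
    have e := (h₁ k).symm.trans (h₂ k)
    rw [sum_range_succ, sum_range_succ,
      sum_congr rfl fun j hj => by rw [ih j (mem_range.1 hj)], add_right_inj] at e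
    refine mul_right_cancel₀ ?_ e
    rw [Nat.descFactorial_self]
    exact Nat.cast_ne_zero.2 k.factorial_ne_zero

end

theorem SCo_tendsto {b : ℕ → ℚ_[p]} (t : Filter.Tendsto b Filter.atTop (nhds 0)) :
    Filter.Tendsto (coS b) Filter.atTop (nhds 0) := by
  have t₁ : Filter.Tendsto (fun k => ‖b (k + 1)‖) Filter.atTop (nhds 0) :=
    tendsto_zero_iff_norm_tendsto_zero.1 ((Filter.tendsto_add_atTop_iff_nat 1).2 t)
  have t₂ : Filter.Tendsto (fun k : ℕ => ((k : ℚ_[p]) + 1) * b (k + 1)) Filter.atTop (nhds 0) := by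
    refine squeeze_zero_norm (fun k => ?_) t₁
    rw [norm_mul, ← Nat.cast_succ]
    exact mul_le_of_le_one_left (norm_nonneg _) (IsUltrametricDist.norm_natCast_le_one _ _)
  have t₃ := t.add t₂
  rw [add_zero] at t₃
  exact t₃

theorem CA.congr {g₁ g₂ : ℕ → ℚ_[p]} (h₁ : CA g₁) (e : ∀ l, g₁ l = g₂ l) : CA g₂ := by
  rwa [← funext e]

theorem CA_const (c : ℚ_[p]) : CA fun _ => c := by
  refine ⟨_, ?_, HasCo_const c⟩
  rw [← Filter.tendsto_add_atTop_iff_nat 1]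
  simp

theorem CA.add {g₁ g₂ : ℕ → ℚ_[p]} (h₁ : CA g₁) (h₂ : CA g₂) : CA fun l => g₁ l + g₂ l := by
  obtain ⟨b₁, t₁, c₁⟩ := h₁
  obtain ⟨b₂, t₂, c₂⟩ := h₂
  exact ⟨_, by simpa using t₁.add t₂, c₁.add c₂⟩

theorem CA.lin {g : ℕ → ℚ_[p]} (h₁ : CA g) (c d : ℚ_[p]) : CA fun l : ℕ => (c + d * (l : ℚ_[p])) * g l := by
  obtain ⟨b, t, hc⟩ := h₁
  have tX : Filter.Tendsto (coX b) Filter.atTop (nhds 0) := by
    rw [← Filter.tendsto_add_atTop_iff_nat 1]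
    exact SCo_tendsto t
  refine ⟨fun k => c * b k + d * coX b k, by simpa using (t.const_mul c).add (tX.const_mul d),
    fun l => Eq.trans ?_ ((hc.smul c).add (hc.mulX.smul d) l)⟩
  ring

theorem CA.shift {g : ℕ → ℚ_[p]} (h₁ : CA g) (m : ℕ) : CA fun l => g (l + m) := by
  induction m with
  | zero => exact h₁
  | succ m ih =>
    obtain ⟨b, t, hc⟩ := ih
    refine CA.congr ⟨_, SCo_tendsto t, hc.shift⟩ fun l => ?_
    rw [add_assoc, add_comm 1 m]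

theorem CA_sum {g : ℕ → ℕ → ℚ_[p]} (m : ℕ) (hg : ∀ r < m, CA (g r)) :
    CA fun l => ∑ r ∈ range m, g r l := by
  induction m with
  | zero => simpa using CA_const (p := p) 0
  | succ m ih =>
    simp only [sum_range_succ]
    exact (ih fun r hr => hg r (by omega)).add (hg m (by omega))

theorem CA_of_dvd {g b : ℕ → ℤ_[p]} (h₁ : HasCo g b) (h₂ : ∀ k, (p : ℤ_[p]) ^ (k - k / 4) ∣ b k) :
    CA fun l => (g l : ℚ_[p]) := by
  refine ⟨fun k => (b k : ℚ_[p]), ?_, fun l => ?_⟩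
  · have hp : (1 : ℝ) < p := by exact_mod_cast hpp.out.one_lt
    have t₁ : Filter.Tendsto (fun k : ℕ => k - k / 4) Filter.atTop Filter.atTop :=
      Filter.tendsto_atTop_atTop.2 fun n => ⟨2 * n, fun k hk => by omega⟩
    have t₂ := (tendsto_pow_atTop_nhds_zero_of_lt_one (r := (p : ℝ)⁻¹) (by positivity)
      (inv_lt_one_of_one_lt₀ hp)).comp t₁
    refine squeeze_zero_norm (fun k => ?_) t₂
    obtain ⟨e, he⟩ := h₂ k
    rw [PadicInt.padic_norm_e_of_padicInt, he, norm_mul, norm_pow, PadicInt.norm_p]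
    exact mul_le_of_le_one_right (by positivity) e.norm_le_one
  · have e := congrArg (PadicInt.Coe.ringHom (p := p)) (h₁ l)
    simp only [map_sum, map_mul, map_natCast] at e
    exact e

theorem MM.ca (h3 : 3 < p) {g : ℕ → ℤ_[p]} (hg : MM g) : CA fun l => (g l : ℚ_[p]) := by
  obtain ⟨b, h₁, h₂⟩ := hg.hasCo h3
  exact CA_of_dvd h₁ h₂

end Pool.Agent.Work.MP_096b72_nt.Hedge
end

-- merged part: Pool.Agent.Work.MP_096b72_nt.Hedge.SDiv
section
/-! Division by a difference operator with quadratic coefficients whose leading coefficient is a unit.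

PLAN. `solve_down`: for each `J` the set of `ψ : ℕ → ℤ_[p]` with `p ^ e k ∣ ψ k` for all `k` and the equation for `k < J` is closed (`PadicInt.norm_le_pow_iff_mem_span_pow`,
`isClosed_le`, `isClosed_eq`) and nonempty (induction on `J` for all data: solve the shifted problem and prepend the value given by the equation);
`IsCompact.nonempty_iInter_of_sequence_nonempty_isCompact_isClosed` in the compact space `ℕ → ℤ_[p]`.
`div_L`: `MM.hasCo` gives `t`; solve `coL b (k + 2) = t (k + 2)` by `solve_down` with `e k = (k + 2) - (k + 2) / 4` (`coL_add_two`, multiply by the inverse of `p₂ + q₂`);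
`ψ l = ∑ k < l + 1, b k * descFactorial l k`, `c₀ = t 0 - coL b 0`, `c₁ = t 1 - coL b 1` (`HasCo.coL`; split off `k = 0, 1` by `Finset.sum_range_succ'`, case `l = 0` apart);
`CA_of_dvd`; `p ^ 3 ∣ b k` for `1 ≤ k`.
`uniq_L`: the cubic has coefficients vanishing from index `4` on (`HasCo_const`, `HasCo.mulX`, or expand in falling factorials), `HasCo.unique`; so `coL b (k + 2) = 0` for `2 ≤ k`, hence
`‖b k‖ ≤ max ‖b (k + 1)‖ (max ‖b (k + 2)‖ ‖b (k + 3)‖)`; downward induction from a tail where `‖b k‖ ≤ δ` gives `b k = 0` for `2 ≤ k`. -/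

set_option autoImplicit false

namespace Pool.Agent.Work.MP_096b72_nt.Hedge

open Finset

variable {p : ℕ} [hpp : Fact p.Prime] {h : ℕ} {χ : ℤ} {a q lam : ℤ_[p]} {f : ℕ → ℤ_[p]}

theorem SDiv_fin (J : ℕ) : ∀ (t α β γ : ℕ → ℤ_[p]) (e : ℕ → ℕ), Monotone e →
    (∀ k, (p : ℤ_[p]) ^ e k ∣ t k) → ∃ b : ℕ → ℤ_[p], (∀ k, (p : ℤ_[p]) ^ e k ∣ b k) ∧
      ∀ k < J, b k = t k + α k * b (k + 1) + β k * b (k + 2) + γ k * b (k + 3) := by
  induction J with
  | zero => exact fun _ _ _ _ _ _ _ => ⟨0, fun _ => dvd_zero _, fun _ hk => by omega⟩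
  | succ J ih =>
    intro t α β γ e he ht
    obtain ⟨b, h1, h2⟩ := ih (fun k => t (k + 1)) (fun k => α (k + 1)) (fun k => β (k + 1))
      (fun k => γ (k + 1)) (fun k => e (k + 1)) (fun _ _ hk => he (by omega)) fun k => ht _
    have h0 : ∀ k, (p : ℤ_[p]) ^ e 0 ∣ b k := fun k => (pow_dvd_pow _ (he (by omega))).trans (h1 k)
    refine ⟨fun k => Nat.casesOn k (t 0 + α 0 * b 0 + β 0 * b 1 + γ 0 * b 2) b, ?_, ?_⟩
    · rintro (_ | k)
      · exact (((ht 0).add ((h0 _).mul_left _)).add ((h0 _).mul_left _)).add ((h0 _).mul_left _)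
      · exact h1 k
    · rintro (_ | k) hk
      · rfl
      · exact h2 k (by omega)

theorem solve_down (t α β γ : ℕ → ℤ_[p]) (e : ℕ → ℕ) (he : Monotone e)
    (ht : ∀ k, (p : ℤ_[p]) ^ e k ∣ t k) : ∃ b : ℕ → ℤ_[p], (∀ k, (p : ℤ_[p]) ^ e k ∣ b k) ∧
      ∀ k, b k = t k + α k * b (k + 1) + β k * b (k + 2) + γ k * b (k + 3) := by
  obtain ⟨c, hc⟩ := IsCompact.nonempty_iInter_of_sequence_nonempty_isCompact_isClosed
    (fun J => ⋂ k < J, {c : ℕ → ℤ_[p] | p ^ e k * c k = t k + α k * (p ^ e (k + 1) * c (k + 1)) +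
      β k * (p ^ e (k + 2) * c (k + 2)) + γ k * (p ^ e (k + 3) * c (k + 3))})
    (fun J => Set.biInter_subset_biInter_left fun k (hk : k < J) => Nat.lt_succ_of_lt hk)
    (fun J => by
      obtain ⟨b, h1, h2⟩ := SDiv_fin J t α β γ e he ht
      choose c hc using h1
      exact ⟨c, Set.mem_iInter₂.2 fun k hk => by simpa only [← hc, Set.mem_ofPred_eq] using h2 k hk⟩)
    (by simpa using isCompact_univ)
    fun J => isClosed_biInter fun k _ => isClosed_eq (by fun_prop) (by fun_prop)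
  exact ⟨fun k => p ^ e k * c k, fun k => dvd_mul_right _ _, fun k =>
    Set.mem_iInter₂.1 (Set.mem_iInter.1 hc (k + 1)) k k.lt_succ_self⟩

omit hpp in
theorem SDiv_lin {R : Type*} [CommRing R] {s : ℕ → R} (hs : ∀ k, s (k + 2) = 0) (l : ℕ) :
    ∑ k ∈ range (l + 1), s k * (l.descFactorial k : R) = s 0 + s 1 * l := by
  cases l with
  | zero => simp
  | succ l => rw [sum_range_succ', sum_range_succ', add_comm]; simp [hs]

theorem div_L (h3 : 3 < p) (p₀ p₁ p₂ q₀ q₁ q₂ : ℤ_[p]) (hu : IsUnit (p₂ + q₂)) {θ : ℕ → ℤ_[p]}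
    (hθ : MM θ) : ∃ (ψ : ℕ → ℤ_[p]) (c₀ c₁ : ℤ_[p]), CA (fun l => (ψ l : ℚ_[p])) ∧
      (∀ l, (p : ℤ_[p]) ^ 3 ∣ ψ l - ψ 0) ∧ ∀ l : ℕ, θ l = (p₀ + p₁ * l + p₂ * l ^ 2) * ψ l +
        (q₀ + q₁ * l + q₂ * l ^ 2) * ψ (l + 1) + c₀ + c₁ * l := by
  obtain ⟨t, ht, hd⟩ := hθ.hasCo h3
  obtain ⟨u, hu⟩ := hu.exists_left_inv
  obtain ⟨b, h1, h2⟩ := solve_down (fun k => u * t (k + 2))
    (fun k => -u * (p₁ + q₁ + p₂ * (2 * k + 3) + q₂ * (3 * k + 4)))
    (fun k => -u * (p₀ + q₀ + (p₁ + 2 * q₁) * (k + 2) + p₂ * (k + 2) ^ 2 + q₂ * (k + 2) * (3 * k + 5)))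
    (fun k => -u * ((q₀ + q₁ * (k + 2) + q₂ * (k + 2) ^ 2) * (k + 3)))
    (fun k => k + 2 - (k + 2) / 4) (fun _ _ _ => by dsimp only; omega) fun k => (hd _).mul_left _
  have hb : HasCo (fun l => ∑ k ∈ range (l + 1), b k * (l.descFactorial k : ℤ_[p])) b :=
    fun _ => rfl
  refine ⟨_, t 0 - coL p₀ p₁ p₂ q₀ q₁ q₂ b 0, t 1 - coL p₀ p₁ p₂ q₀ q₁ q₂ b 1,
    CA_of_dvd hb fun k => (pow_dvd_pow _ (by omega)).trans (h1 k), fun l => ?_, fun l => ?_⟩
  · rw [sum_range_succ']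
    simp only [zero_add, sum_range_one, Nat.descFactorial_zero, add_sub_cancel_right]
    exact dvd_sum fun k _ => ((pow_dvd_pow _ (by omega)).trans (h1 (k + 1))).mul_right _
  · have e := SDiv_lin (s := fun k => t k - coL p₀ p₁ p₂ q₀ q₁ q₂ b k) (fun k => by
      rw [coL_add_two]
      linear_combination (-(p₂ + q₂)) * h2 k - (t (k + 2) - (p₁ + q₁ + p₂ * (2 * k + 3) +
        q₂ * (3 * k + 4)) * b (k + 1) - (p₀ + q₀ + (p₁ + 2 * q₁) * (k + 2) + p₂ * (k + 2) ^ 2 +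
        q₂ * (k + 2) * (3 * k + 5)) * b (k + 2) -
        (q₀ + q₁ * (k + 2) + q₂ * (k + 2) ^ 2) * (k + 3) * b (k + 3)) * hu) l
    simp only [sub_mul, sum_sub_distrib] at e
    linear_combination ht l - hb.coL p₀ p₁ p₂ q₀ q₁ q₂ l + e

omit hpp in
theorem SDiv_deg {R : Type*} [CommRing R] {g : ℕ → R} {n : ℕ} (d : R)
    (hg : ∃ b, HasCo g b ∧ ∀ k, n < k → b k = 0) :
    ∃ b, HasCo (fun l => d + l * g l) b ∧ ∀ k, n + 1 < k → b k = 0 := by
  obtain ⟨b, h1, h2⟩ := hg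
  refine ⟨_, (HasCo_const d).add h1.mulX, ?_⟩
  rintro (_ | k) hk
  · omega
  · simp [coX, coS, h2 k (by omega), h2 (k + 1) (by omega)]

theorem uniq_L (p₀ p₁ p₂ q₀ q₁ q₂ : ℤ) (hu : ¬ (p : ℤ) ∣ p₂ + q₂) {ζ : ℕ → ℚ_[p]} (hζ : CA ζ)
    (d₀ d₁ d₂ d₃ : ℚ_[p]) (e : ∀ l : ℕ, (p₀ + p₁ * l + p₂ * l ^ 2 : ℚ_[p]) * ζ l +
      (q₀ + q₁ * l + q₂ * l ^ 2 : ℚ_[p]) * ζ (l + 1) = d₀ + d₁ * l + d₂ * l ^ 2 + d₃ * l ^ 3) :
    ∃ z₀ z₁ : ℚ_[p], ∀ l : ℕ, ζ l = z₀ + z₁ * l := by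
  obtain ⟨b, hb, h1⟩ := hζ
  obtain ⟨c, h2, h3⟩ := SDiv_deg d₀ (SDiv_deg d₁ (SDiv_deg (n := 0) d₂
    ⟨_, HasCo_const d₃, fun k hk => if_neg hk.ne'⟩))
  have h4 : coL (p₀ : ℚ_[p]) p₁ p₂ q₀ q₁ q₂ b = c :=
    (h1.coL _ _ _ _ _ _).unique fun l => by linear_combination e l + h2 l
  have hn : ‖((p₂ + q₂ : ℤ) : ℚ_[p])‖ = 1 := le_antisymm (Padic.norm_int_le_one _)
    (not_lt.1 fun h => hu (Padic.norm_intCast_lt_one_iff.1 h))
  have h5 : ∀ δ > 0, ∀ k, 2 ≤ k → ‖b k‖ ≤ δ := fun δ hδ k => by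
    obtain ⟨N, hN⟩ := Metric.tendsto_atTop.1 hb δ hδ
    have : ∀ j k, N ≤ k + j → 2 ≤ k → ‖b k‖ ≤ δ := fun j => by
      induction j with
      | zero => exact fun k hk _ => by simpa using (hN k hk).le
      | succ j ih =>
        intro k hk hk2
        have hm : ∀ (A : ℤ) (i : ℕ), ‖(A : ℚ_[p]) * b (k + (i + 1))‖ ≤ δ := fun A i => by
          rw [norm_mul]
          exact (mul_le_of_le_one_left (norm_nonneg _) (Padic.norm_int_le_one _)).trans
            (ih _ (by omega) (by omega))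
        have h6 := coL_add_two (p₀ : ℚ_[p]) p₁ p₂ q₀ q₁ q₂ b k
        rw [h4, h3 _ (by omega)] at h6
        have h7 : ((p₂ + q₂ : ℤ) : ℚ_[p]) * b k =
            (-(p₁ + q₁ + p₂ * (2 * k + 3) + q₂ * (3 * k + 4)) : ℤ) * b (k + (0 + 1)) +
            (-(p₀ + q₀ + (p₁ + 2 * q₁) * (k + 2) + p₂ * (k + 2) ^ 2 +
              q₂ * (k + 2) * (3 * k + 5)) : ℤ) * b (k + (1 + 1)) +
            (-((q₀ + q₁ * (k + 2) + q₂ * (k + 2) ^ 2) * (k + 3)) : ℤ) * b (k + (2 + 1)) := by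
          push_cast
          linear_combination -h6
        rw [← one_mul ‖b k‖, ← hn, ← norm_mul, h7]
        exact (Padic.nonarchimedean _ _).trans (max_le ((Padic.nonarchimedean _ _).trans
          (max_le (hm _ _) (hm _ _))) (hm _ _))
    exact this N k (by omega)
  exact ⟨b 0, b 1, fun l => (h1 l).trans (SDiv_lin (fun k => norm_le_zero_iff.1
    (le_of_forall_pos_le_add fun δ hδ => by simpa using h5 δ hδ _ (by omega))) l)⟩

end Pool.Agent.Work.MP_096b72_nt.Hedge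
end
end

-- merged part: Pool.Agent.Work.MP_096b72_nt.Hedge.SFin
section
-- merged part: Pool.Agent.Work.MP_096b72_nt.Hedge.SWZ
section
/-! The closed form above the diagonal.

PLAN. `EE_succ`, `tb_succ`: `prod_range_succ`, `gb = gg` off the diagonal, `field_simp` (denominators: `odd_ne`, `odd_ne'`, `pos_ne`; see `../WZ.lean`). `tb_up`: `tt_succ` and the definitions.
`tb_same`: trivial for `m = 0`. For `1 ≤ m` both sides satisfy the same recurrence in `j` (`tb_succ`, `EE_succ`), so only `j = m + 1` is needed; alternatively prove the shift relation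
`AB κ m j * ((2 j + 1 + 2 m) (-m) (2 j - 1 - 2 m) (2 m + 1) (2 m + 2)) = AB κ (m + 1) j * ((1 + 2 m) (j - m) (-1 - 2 m) (j + 2 m + 1) (j + 2 m + 2))` by induction on `j ≥ m + 1`; base: `AB κ m (m - 1) = AA m (m - 1)`,
`AB κ (m + 1) (m - 1) = AA (m + 1) (m - 1)` (`AB_lt`), `AA_shift m _ (m - 1)` and two more factors on each side (write `m = k + 1`).
`wz_b`: multiply by `2 (m + 1) (j + 2 m + 2) (2 j + 1 - 2 m) ≠ 0` and combine `EE_succ`, `tb_up`, `tb_same`. `EE_down`: eliminate `tb κ (m + 1) j` from `tb_up m` and `tb_same (m + 1)`.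
`stokes`: `Finset.sum_comm` and `Finset.sum_range_sub` twice. -/

set_option autoImplicit false

namespace Pool.Agent.Work.MP_096b72_nt.Hedge

open Finset

variable {p : ℕ} [hpp : Fact p.Prime] {h : ℕ} {χ : ℤ} {a q lam : ℤ_[p]} {f : ℕ → ℤ_[p]}

section

variable {F : Type*} [Field F] [CharZero F]

omit hpp

theorem SWZ_ne {x : F} (z : ℤ) (hz : z ≠ 0) (e : x = z) : x ≠ 0 := by
  rw [e]
  exact Int.cast_ne_zero.2 hz

theorem SWZ_gb {κ : F} {N i : ℕ} (hi : i ≠ N ∨ κ = 0) : gb F κ N i = gg F N i := by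
  unfold gb
  split_ifs with h1
  · rw [hi.resolve_left (not_not.2 h1), h1, gg, sub_self, zero_div, zero_div]
  · rfl

theorem SWZ_step {κ : F} {N l : ℕ} (hl : l + 1 ≠ N ∨ κ = 0) :
    AB F κ N (l + 1) * ((2 * l + 1 - 2 * N) * (l + 1 + 2 * N)) =
      AB F κ N l * ((2 * l + 1 + 2 * N) * (l + 1 - N)) := by
  have a : ((l : F) + 1 + 2 * N) ≠ 0 := SWZ_ne (l + 1 + 2 * N) (by omega) (by push_cast; rfl)
  have b := odd_ne (F := F) l N
  rw [AB, prod_range_succ, ← AB, SWZ_gb hl, ff, gg, Nat.cast_succ, div_mul_div_comm, mul_assoc,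
    div_mul_cancel₀ _ (mul_ne_zero b a)]

theorem SWZ_diag (κ : F) (l : ℕ) :
    AB F κ (l + 1) (l + 1) * (3 * (l + 1)) = -(AB F κ (l + 1) l * ((4 * l + 3) * κ)) := by
  have a : (3 * ((l : F) + 1)) ≠ 0 := SWZ_ne (3 * (l + 1)) (by omega) (by push_cast; rfl)
  have b : (2 * (l : F) + 1 - 2 * (l + 1)) = -1 := by ring
  rw [AB, prod_range_succ, ← AB, gb, if_pos rfl, ff, Nat.cast_succ, b, mul_assoc, mul_assoc,
    div_mul_cancel₀ _ a]
  ring

theorem SWZ_tb (κ : F) (N l : ℕ) : tb F κ N l * (2 * l + 1 - 2 * N) =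
    16 * N ^ 2 * (tt F N * (-3) ^ l) * AB F κ N l := by
  have b := odd_ne (F := F) l N
  have c : (2 * (N : F) - (2 * l + 1)) = -(2 * l + 1 - 2 * N) := by ring
  rw [tb, vv, c]
  generalize (2 * (l : F) + 1 - 2 * N) = d at b
  field_simp

theorem SWZ_EE (κ : F) (m j : ℕ) : EE F κ m j * ((2 * j - 1 - 2 * m) * (2 * j + 1 + 2 * m)) =
    tt F m * (-3) ^ j * AB F κ (m + 1) j * (j + 2 * m + 2) := by
  rw [EE, mul_assoc, div_mul_cancel₀ _ (mul_ne_zero (odd_ne' j m)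
    (SWZ_ne (2 * j + 1 + 2 * m) (by omega) (by push_cast; rfl)))]

theorem SWZ_lm (m j : ℕ) :
    lm F m j * (2 * (m + 1)) = (2 * m + 1) * (2 * m * j + (5 * m + 1) * (2 * m + 1)) := by
  have a : ((m : F) + 1) ≠ 0 := Nat.cast_add_one_ne_zero m
  rw [lm]
  field_simp

theorem AB_lt (κ : F) {N l : ℕ} (hl : l < N) : AB F κ N l = AA F N l := by
  exact prod_congr rfl fun i hi => by
    rw [SWZ_gb (Or.inl (by have := mem_range.1 hi; omega))]

theorem tb_zero (N l : ℕ) : tb F 0 N l = tau F N l := by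
  rw [tb, tau, AB, AA]
  simp only [SWZ_gb (F := F) (Or.inr rfl)]

theorem EE_ne {κ : F} (hκ : κ ≠ 0) (m j : ℕ) : EE F κ m j ≠ 0 := by
  have a : (2 * (j : F) + 1 + 2 * m) ≠ 0 :=
    SWZ_ne (2 * j + 1 + 2 * m) (by omega) (by push_cast; rfl)
  refine mul_ne_zero (mul_ne_zero (mul_ne_zero (div_ne_zero (mul_ne_zero (pow_ne_zero _
    (pos_ne _ (Nat.choose_pos (by omega)))) (pos_ne _ (Nat.choose_pos (by omega))))
    (pow_ne_zero _ (by norm_num))) (pow_ne_zero _ (by norm_num)))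
    (prod_ne_zero_iff.2 fun i _ => mul_ne_zero (div_ne_zero
      (SWZ_ne (2 * i + 1 + 2 * (m + 1)) (by omega) (by push_cast; rfl)) (odd_ne _ _)) ?_))
    (div_ne_zero (SWZ_ne (j + 2 * m + 2) (by omega) (by push_cast; rfl))
      (mul_ne_zero (odd_ne' j m) a))
  unfold gb
  split_ifs with h1
  · exact div_ne_zero hκ (SWZ_ne (3 * (m + 1)) (by omega) (by push_cast; rfl))
  · exact div_ne_zero (SWZ_ne (i + 1 - (m + 1)) (by omega) (by push_cast; rfl))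
      (SWZ_ne (i + 1 + 2 * (m + 1)) (by omega) (by push_cast; rfl))

theorem tb_succ (κ : F) {n l : ℕ} (hl : l + 1 ≠ n ∨ κ = 0) :
    tb F κ n (l + 1) * LP n (l + 1) = -(tb F κ n l * LQ n l) := by
  have h1 := SWZ_tb κ n (l + 1)
  have h0 := SWZ_tb κ n l
  have hs := SWZ_step hl
  refine mul_left_cancel₀ (odd_ne l n) ?_
  rw [pow_succ (-3 : F)] at h1
  unfold LP LQ
  push_cast at h1 ⊢
  linear_combination -((2 * l + 1 - 2 * n) * (l + 1 + 2 * n)) * h1 +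
    48 * n ^ 2 * (tt F n * (-3) ^ l) * hs - 3 * ((2 * l + 1 + 2 * n) * (l + 1 - n)) * h0

theorem EE_succ (κ : F) {m j : ℕ} (hj : m + 1 ≤ j) :
    EE F κ m (j + 1) * ((2 * j + 1 - 2 * m) * (j + 2 + 2 * m)) =
      -3 * (j - m) * (2 * j + 1 + 2 * m) * EE F κ m j := by
  have h1 := SWZ_EE κ m (j + 1)
  have h0 := SWZ_EE κ m j
  have hs := SWZ_step (κ := κ) (N := m + 1) (l := j) (Or.inl (by omega))
  refine mul_left_cancel₀ (mul_ne_zero (odd_ne' j m) (SWZ_ne (x := 2 * (j : F) + 3 + 2 * m)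
    (2 * j + 3 + 2 * m) (by omega) (by push_cast; rfl))) ?_
  rw [pow_succ (-3 : F)] at h1
  push_cast at h1 hs
  linear_combination (j + 2 + 2 * m) * (2 * j - 1 - 2 * m) * h1 -
    3 * (tt F m * (-3) ^ j) * (j + 2 + 2 * m) * hs + 3 * (j - m) * (2 * j + 3 + 2 * m) * h0

theorem tb_up (κ : F) (m j : ℕ) : tb F κ (m + 1) j * (2 * (m + 1) * (j + 2 * m + 2)) =
    -((2 * m + 1) * (3 * m + 1) * (3 * m + 2)) * (2 * j + 1 + 2 * m) * EE F κ m j := by
  have h1 := SWZ_tb κ (m + 1) j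
  have h0 := SWZ_EE κ m j
  have ht := tt_succ (F := F) m
  rw [← mul_div_assoc, eq_div_iff (mul_ne_zero (by norm_num)
    (pow_ne_zero _ (Nat.cast_add_one_ne_zero m)))] at ht
  refine mul_left_cancel₀ (odd_ne' j m) ?_
  push_cast at h1
  linear_combination 2 * (m + 1) * (j + 2 * m + 2) * h1 +
    (j + 2 * m + 2) * (-3) ^ j * AB F κ (m + 1) j * ht +
    (2 * m + 1) * (3 * m + 1) * (3 * m + 2) * h0

theorem SWZ_shift (κ : F) {k j : ℕ} (hj : k + 2 ≤ j) :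
    AB F κ (k + 1) j * ((2 * j + 3 + 2 * k) * (2 * j - 3 - 2 * k) * (2 * (k + 1) * (k + 2))) =
      AB F κ (k + 2) j * ((j - k - 1) * (j + 2 * k + 3) * (j + 2 * k + 4) * (2 * k + 3)) := by
  induction j, hj using Nat.le_induction with
  | base =>
    have h1 := SWZ_diag κ k
    have h2 := SWZ_step (κ := κ) (N := k + 1) (l := k + 1) (Or.inl (by omega))
    have h3 := SWZ_step (κ := κ) (N := k + 2) (l := k) (Or.inl (by omega))
    have h4 := SWZ_diag κ (k + 1)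
    have h5 := AA_shift (F := F) (k + 1) (by omega) k
    rw [← AB_lt κ (by omega), ← AB_lt κ (by omega), ← mul_div_assoc, eq_div_iff (SWZ_ne
      (3 * (4 * k + 3) * (k + 1) * (2 * k + 3) * (2 * k + 4)) (by positivity)
      (by push_cast; ring))] at h5
    refine mul_left_cancel₀ (SWZ_ne (x := 9 * ((k : F) + 1) * (3 * k + 4) * (2 * k + 3))
      (9 * (k + 1) * (3 * k + 4) * (2 * k + 3)) (by positivity) (by push_cast; rfl)) ?_
    push_cast at h1 h2 h3 h4 h5 ⊢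
    linear_combination
      9 * (k + 1) * ((4 * k + 7) * (k + 1) * (2 * k + 3) * (2 * k + 4)) * h2 +
      3 * ((4 * k + 7) * (k + 1) * (2 * k + 3) * (2 * k + 4)) * (4 * k + 5) * h1 -
      κ * (4 * k + 5) * (4 * k + 7) * h5 -
      9 * (k + 1) * (3 * k + 4) * (2 * k + 3) ^ 2 * (3 * k + 5) * h4 -
      3 * (k + 1) * (3 * k + 4) * (2 * k + 3) ^ 2 * (4 * k + 7) * κ * h3
  | succ j hj ih =>
    have h1 := SWZ_step (κ := κ) (N := k + 1) (l := j) (Or.inl (by omega))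
    have h2 := SWZ_step (κ := κ) (N := k + 2) (l := j) (Or.inl (by omega))
    refine mul_left_cancel₀ (mul_ne_zero
      (SWZ_ne (x := (j : F) + 3 + 2 * k) (j + 3 + 2 * k) (by omega) (by push_cast; rfl))
      (SWZ_ne (x := 2 * (j : F) - 3 - 2 * k) (2 * j - 3 - 2 * k) (by omega) (by push_cast; rfl))) ?_
    push_cast at h1 h2 ⊢
    linear_combination (2 * j + 5 + 2 * k) * (2 * j - 3 - 2 * k) * (2 * (k + 1) * (k + 2)) * h1 +
      (2 * j + 5 + 2 * k) * (j - k) * ih -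
      (j - k) * (j + 2 * k + 4) * (2 * k + 3) * (j + 3 + 2 * k) * h2

theorem tb_same (κ : F) {m j : ℕ} (hj : m + 1 ≤ j) :
    tb F κ m j * ((m + 1) * (2 * j + 1 - 2 * m)) =
      8 * m * (2 * m + 1) * ((j - m) * (j + 2 * m + 1)) * EE F κ m j := by
  rcases m with _ | k
  · simp [tb]
  have h1 := SWZ_tb κ (k + 1) j
  have h0 := SWZ_EE κ (k + 1) j
  have hs := SWZ_shift κ (k := k) hj
  refine mul_left_cancel₀ (mul_ne_zero
    (SWZ_ne (x := 2 * (j : F) + 3 + 2 * k) (2 * j + 3 + 2 * k) (by omega) (by push_cast; rfl))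
    (SWZ_ne (x := 2 * (j : F) - 3 - 2 * k) (2 * j - 3 - 2 * k) (by omega) (by push_cast; rfl))) ?_
  push_cast at h1 h0 ⊢
  linear_combination (k + 2) * ((2 * j + 3 + 2 * k) * (2 * j - 3 - 2 * k)) * h1 +
    8 * (k + 1) * (tt F (k + 1) * (-3) ^ j) * hs -
    8 * (k + 1) * (2 * k + 3) * ((j - k - 1) * (j + 2 * k + 3)) * h0

theorem wz_b (κ : F) {m j : ℕ} (hj : m + 1 ≤ j) :
    tb F κ (m + 1) j - tb F κ m j = GB F κ m (j + 1) - GB F κ m j := by
  have h1 := SWZ_lm (F := F) m (j + 1)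
  refine mul_left_cancel₀ (mul_ne_zero (SWZ_ne (x := 2 * ((m : F) + 1) * (j + 2 * m + 2))
    (2 * (m + 1) * (j + 2 * m + 2)) (by positivity) (by push_cast; rfl)) (odd_ne j m)) ?_
  unfold GB
  push_cast at h1
  linear_combination (2 * j + 1 - 2 * m) * tb_up κ m j - 2 * (j + 2 * m + 2) * tb_same κ hj -
    EE F κ m (j + 1) * (j + 2 * m + 2) * (2 * j + 1 - 2 * m) * h1 -
    (2 * m + 1) * (2 * m * (j + 1) + (5 * m + 1) * (2 * m + 1)) * EE_succ κ hj +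
    EE F κ m j * (j + 2 * m + 2) * (2 * j + 1 - 2 * m) * SWZ_lm (F := F) m j

theorem EE_down (κ : F) {m j : ℕ} (hj : m + 2 ≤ j) :
    EE F κ m j * ((2 * m + 1) * (3 * m + 1) * (3 * m + 2) * (m + 2) *
      ((2 * j - 1 - 2 * m) * (2 * j + 1 + 2 * m))) =
      -16 * (m + 1) ^ 2 * (2 * m + 3) * ((j - m - 1) * (j + 2 * m + 3) * (j + 2 * m + 2)) *
        EE F κ (m + 1) j := by
  have h1 := tb_same κ (m := m + 1) hj
  push_cast at h1
  linear_combination (m + 2) * (2 * j - 1 - 2 * m) * tb_up κ m j -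
    2 * (m + 1) * (j + 2 * m + 2) * h1

theorem stokes (κ : F) {m j : ℕ} (k : ℕ) (hj : m + k ≤ j) :
    ∑ s ∈ range k, tb F κ (m + k) (j + s) - ∑ s ∈ range k, tb F κ m (j + s) =
      ∑ r ∈ range k, GB F κ (m + r) (j + k) - ∑ r ∈ range k, GB F κ (m + r) j := by
  have h1 : ∀ s, tb F κ (m + k) (j + s) - tb F κ m (j + s) =
      ∑ r ∈ range k, (GB F κ (m + r) (j + (s + 1)) - GB F κ (m + r) (j + s)) := fun s => by
    refine (sum_range_sub (fun r => tb F κ (m + r) (j + s)) k).symm.trans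
      (sum_congr rfl fun r hr => wz_b κ (m := m + r) ?_)
    have := mem_range.1 hr
    omega
  rw [← sum_sub_distrib, ← sum_sub_distrib, sum_congr rfl fun s _ => h1 s, sum_comm]
  exact sum_congr rfl fun r _ => sum_range_sub (fun s => GB F κ (m + r) (j + s)) k

end

end Pool.Agent.Work.MP_096b72_nt.Hedge
end

-- merged part: Pool.Agent.Work.MP_096b72_nt.Hedge.SVert
section
/-! The vertical blocks.

PLAN. `AB_split`: as `AA_split` in `Split.lean` (`Split_ff`, `Split_gg`, `Split_blk`), with `gb (p κ) (p n) (p l + j + 1) = (if j = 2 h then gb κ n (l + 1) else 1) * ug (p n) (p l + j + 1)`: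
`p l + j + 1 = p n` holds exactly when `j = 2 h` and `l + 1 = n`, and then `ug = 1` (`iz_dvd`) and `p κ / (3 p n) = κ / (3 n)`.
`tt_split`: `tt_eq_kk`, `kk_split`, `iz 64 * ww = 1 / (-192)` (see `Fin_est` in `Fin.lean`). `vert`: trivial for `n = 0`; otherwise as `UU_split` (`sum_three`, `Split_vv`, `VV_special`, `ff_eq`), with
`vv n l * (2 n - 2 l - 1) = n` and `p l + r = l + (2 h l + r)`.
`PP_MM`: `MM_rec` and `MM_prod_one` (`Finset.prod_range_add`: `p (l + 1) + r = (p l + r) + p`; each factor is `1 + p *` a function in `MM` by `MM_iz`). `pow_MM`: `(-3) ^ (2 h) = 1 + p c` (`red_eq`, `frob3`), `MM_rec`.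
`ths_MM`: closure lemmas of `SMM.lean`. -/

set_option autoImplicit false

namespace Pool.Agent.Work.MP_096b72_nt.Hedge

open Finset

variable {p : ℕ} [hpp : Fact p.Prime] {h : ℕ} {χ : ℤ} {a q lam : ℤ_[p]} {f : ℕ → ℤ_[p]}

theorem SVert_gb (hp : p = 2 * h + 1) (κ : ℚ_[p]) (n l : ℕ) {j : ℕ} (hj : j < p) :
    gb ℚ_[p] (p * κ) (p * n) (p * l + j + 1) = (if j = 2 * h then gb ℚ_[p] κ n (l + 1) else 1) *
      (ug p (p * n) (p * l + j + 1) : ℤ_[p]) := by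
  by_cases e : p * l + j + 1 = p * n
  · have h1 : p ∣ j + 1 := (Nat.dvd_add_right (dvd_mul_right p l)).1 (by
      rw [← add_assoc, e]; exact dvd_mul_right p n)
    have h2 : j + 1 = p := le_antisymm hj (Nat.le_of_dvd (by omega) h1)
    have h3 : l + 1 = n := Nat.eq_of_mul_eq_mul_left hpp.out.pos (by rw [← e, mul_add]; omega)
    rw [if_pos (by omega), gb, if_pos e, gb, if_pos h3, ug, e,
      iz_dvd ⟨3 * n, by push_cast; ring⟩, ← mul_div_mul_left κ _ Split_p0]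
    simp [mul_left_comm]
  · rw [gb, if_neg e, Split_gg hp n l hj]
    split_ifs with h1
    · rw [gb, if_neg fun h2 => e (by rw [← h2, mul_add]; omega)]
    · rfl

theorem SVert_blk (hp : p = 2 * h + 1) (κ : ℚ_[p]) (n l : ℕ) {r : ℕ} (hr : r ≤ p) :
    ∏ j ∈ range r, (ff ℚ_[p] (p * n) (p * l + j) * gb ℚ_[p] (p * κ) (p * n) (p * l + j + 1)) =
      (if h < r then ff ℚ_[p] n l else 1) * (if 2 * h < r then gb ℚ_[p] κ n (l + 1) else 1) *
        (∏ j ∈ range r, (uf p (p * n) (p * l + j) * ug p (p * n) (p * l + j + 1)) : ℤ_[p]) := by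
  rw [prod_congr rfl fun j hj => by
    rw [Split_ff hp n l ((mem_range.1 hj).trans_le hr), SVert_gb hp κ n l
      ((mem_range.1 hj).trans_le hr), mul_mul_mul_comm, ← PadicInt.coe_mul]]
  simp only [prod_mul_distrib (f := fun j => _ * _) (g := fun j => ((_ : ℤ_[p]) : ℚ_[p])),
    prod_mul_distrib (f := fun j => if j = h then _ else _), prod_ite_eq', mem_range]
  rw [Split_prod]

theorem AB_split (hp : p = 2 * h + 1) (κ : ℚ_[p]) {n : ℕ} (hn : 1 ≤ n) (l : ℕ) {r : ℕ}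
    (hr : r < p) : AB ℚ_[p] (p * κ) (p * n) (p * l + r) =
      AB ℚ_[p] κ n l * (if h < r then ff ℚ_[p] n l else 1) *
        (PP p (p * n) (p * l + r) : ℤ_[p]) := by
  have key : AB ℚ_[p] (p * κ) (p * n) (p * l) =
      AB ℚ_[p] κ n l * (PP p (p * n) (p * l) : ℤ_[p]) := by
    induction l with
    | zero => simp [AB, PP]
    | succ l ih =>
      rw [Nat.mul_succ, AB, PP, prod_range_add, prod_range_add, SVert_blk hp κ n l le_rfl,
        if_pos (by omega), if_pos (by omega), AB, prod_range_succ, PadicInt.coe_mul]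
      unfold AB PP at ih
      rw [ih]
      ring
  rw [AB, PP, prod_range_add, prod_range_add, SVert_blk hp κ n l hr.le,
    if_neg (show ¬ 2 * h < r by omega), PadicInt.coe_mul]
  unfold AB PP at key
  rw [key, AB]
  ring

theorem tt_split (h3 : 3 < p) {n : ℕ} (hn : 1 ≤ n) :
    tt ℚ_[p] (p * n) = tt ℚ_[p] n * (cn p n : ℤ_[p]) := by
  have hle : n ≤ p * n := Nat.le_mul_of_pos_left n hpp.out.pos
  have hw : ((ww p : ℤ_[p]) : ℚ_[p]) = 1 / -3 := by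
    rw [ww, iz_coe (by rw [dvd_neg]; exact nd_lt (by norm_num) (by omega))]
    norm_num
  have h64 : ((iz p 64 : ℤ_[p]) : ℚ_[p]) = 1 / 64 := by
    have := congrArg (fun x : ℤ_[p] => (x : ℚ_[p])) (iz64 h3)
    have c2 : ((2 : ℤ_[p]) : ℚ_[p]) = 2 := rfl
    push_cast [c2] at this
    linear_combination (1 / 64) * this
  obtain ⟨m, hm⟩ : ∃ m, p * n = n + m := ⟨p * n - n, by omega⟩
  have e : ((1 : ℚ_[p]) / 64) ^ m * (1 / -3) ^ m = ((-192) ^ m)⁻¹ := by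
    rw [← mul_pow, ← inv_pow]
    norm_num
  rw [tt_eq_kk _ (hn.trans hle), tt_eq_kk _ hn, kk_split, cn, show p * n - n = m by omega]
  push_cast [hw, h64]
  rw [mul_right_comm _ _ ((1 / -3) ^ m), e]
  conv_lhs => rw [show (-192 : ℚ_[p]) ^ (p * n) = (-192) ^ n * (-192) ^ m by rw [hm, pow_add]]
  field_simp

theorem vert (hp : p = 2 * h + 1) (h3 : 3 < p) (κ : ℚ_[p]) (n l : ℕ) :
    ∑ s ∈ range p, tb ℚ_[p] (p * κ) (p * n) (p * l + s) =
      p * tb ℚ_[p] κ n l * (ths p h n l : ℤ_[p]) := by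
  rcases Nat.eq_zero_or_pos n with rfl | hn
  · simp [tb]
  have hc : ∀ (m : ℕ) (g : ℕ → ℤ_[p]), ((∑ i ∈ range m, g i : ℤ_[p]) : ℚ_[p]) =
      ∑ i ∈ range m, (g i : ℚ_[p]) := fun m g => map_sum PadicInt.Coe.ringHom _ _
  have c3 : ((-3 : ℤ_[p]) : ℚ_[p]) = -3 := rfl
  have c2 : ((2 : ℤ_[p]) : ℚ_[p]) = 2 := rfl
  have hv : vv ℚ_[p] n l * (2 * n - 2 * l - 1) = n := by
    rw [vv, show (2 * n - 2 * l - 1 : ℚ_[p]) = 2 * n - (2 * l + 1) by ring]
    exact div_mul_cancel₀ _ fun e => odd_ne (F := ℚ_[p]) l n (by linear_combination -e)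
  have pw : ∀ r, (-3 : ℚ_[p]) ^ (p * l + r) = (-3) ^ l * (-3) ^ (2 * h * l + r) := fun r => by
    rw [← pow_add]; congr 1; rw [hp]; ring
  rw [congrArg range hp, sum_three, ths]
  simp only [PadicInt.coe_mul, PadicInt.coe_add, hc, mul_add (cn p n : ℚ_[p]),
    mul_add (p * tb ℚ_[p] κ n l), mul_sum]
  rw [add_comm (∑ r ∈ range h, _)]
  refine congrArg₂ _ (congrArg₂ _ ?_ (sum_congr rfl fun r hr => ?_)) (sum_congr rfl fun r hr => ?_)
  · rw [tb, tb, AB_split hp κ hn l (by omega), if_neg (lt_irrefl h), VV_special hp, pw,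
      tt_split h3 hn]
    push_cast [c3]
    ring
  · rw [mem_range] at hr
    rw [tb, tb, AB_split hp κ hn l (by omega), if_neg (by omega),
      Split_vv hp n l (by omega) hr.ne, pw, tt_split h3 hn, tm]
    push_cast [c3, c2]
    generalize ((iz p _ : ℤ_[p]) : ℚ_[p]) = z
    linear_combination (16 * p ^ 2 * n * tt ℚ_[p] n * cn p n * (-3) ^ l * (-3) ^ (2 * h * l + r) *
      AB ℚ_[p] κ n l * PP p (p * n) (p * l + r) * z) * hv
  · rw [mem_range] at hr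
    rw [tb, tb, AB_split hp κ hn l (by omega), if_pos (by omega),
      Split_vv hp n l (by omega) (by omega), pw, tt_split h3 hn, tm, ff_eq]
    push_cast [c3, c2]
    generalize ((iz p _ : ℤ_[p]) : ℚ_[p]) = z
    linear_combination (16 * p ^ 2 * n * tt ℚ_[p] n * cn p n * (-3) ^ l *
      (-3) ^ (2 * h * l + (h + 1 + r)) * AB ℚ_[p] κ n l * PP p (p * n) (p * l + (h + 1 + r)) * z) * hv

theorem PP_MM (n r : ℕ) : MM fun l => PP p (p * n) (p * l + r) := by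
  have h1 : ∀ j : ℕ, MM fun l : ℕ => iz p (2 * ((p * l + r + j : ℕ) : ℤ) + 1 - 2 * (p * n : ℕ)) :=
    fun j => (MM_iz (2 * (r + j) + 1 - 2 * (p * n)) 2).congr fun l => by
      congr 1; push_cast; ring
  have h2 : ∀ j : ℕ, MM fun l : ℕ => iz p (((p * l + r + j + 1 : ℕ) : ℤ) + 2 * (p * n : ℕ)) :=
    fun j => (MM_iz (r + j + 1 + 2 * (p * n)) 1).congr fun l => by
      congr 1; push_cast; ring
  obtain ⟨B, hB, e⟩ := MM_prod_one p fun j _ => (((MM_const (4 * n)).mul (h1 j)).add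
    ((MM_const (-3 * n)).mul (h2 j))).add (((MM_const (-12 * p * n ^ 2)).mul (h1 j)).mul (h2 j))
  refine MM_rec hB fun l => ?_
  rw [← e, show p * (l + 1) + r = p * l + r + p by ring, PP, PP, prod_range_add]
  congr 1
  refine prod_congr rfl fun j _ => ?_
  rw [uf, ug]
  generalize iz p (2 * ((p * l + r + j : ℕ) : ℤ) + 1 - 2 * (p * n : ℕ)) = x
  generalize iz p (((p * l + r + j + 1 : ℕ) : ℤ) + 2 * (p * n : ℕ)) = y
  push_cast
  ring

theorem pow_MM (hp : p = 2 * h + 1) (h3 : 3 < p) (r : ℕ) :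
    MM fun l => (-3 : ℤ_[p]) ^ (2 * h * l + r) := by
  obtain ⟨c, hc⟩ : (p : ℤ_[p]) ∣ (-3) ^ p - (-3) := by
    rw [← red_eq]
    simpa only [map_pow, map_neg, map_ofNat] using frob3 (p := p)
  have e : (-3 : ℤ_[p]) ^ (2 * h) = 1 + p * (ww p * c) := by
    rw [show (-3 : ℤ_[p]) ^ p = -3 * (-3) ^ (2 * h) by rw [← pow_succ', ← hp]] at hc
    linear_combination ww p * hc - ((-3) ^ (2 * h) - 1) * ww_mul h3
  refine MM_rec (MM_const (ww p * c)) fun l => ?_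
  rw [← e, ← pow_add]
  congr 1
  ring

theorem ths_MM (hp : p = 2 * h + 1) (h3 : 3 < p) (n : ℕ) : MM fun l => ths p h n l := by
  have ht : ∀ r, MM fun l => tm p h n l r := fun r =>
    ((PP_MM n r).mul (pow_MM hp h3 r)).mul
      ((MM_iz (2 * (p * n) - (2 * r + 1)) (-2)).congr fun l => by congr 1; push_cast; ring)
  refine ((MM_const (cn p n)).mul ((((PP_MM n h).mul (pow_MM hp h3 h)).add
    ((MM_lin (p * (2 * n - 1)) (-2)).mul (MM_sum h fun r _ => ht r))).add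
    ((MM_lin (p * (-2 * n - 1)) (-2)).mul (MM_sum h fun k _ => ht (h + 1 + k))))).congr fun l => ?_
  rw [ths]
  ring

end Pool.Agent.Work.MP_096b72_nt.Hedge
end

-- merged part: Pool.Agent.Work.MP_096b72_nt.Hedge.SHor
section
/-! The horizontal blocks.

PLAN. `hor`: downward induction on `r` (write `r + i = 2 h`, induction on `i`). For `r = 2 h`: `p n + 2 h + 1 = p (n + 1)`, `AB_split` with `κ = 1`, `r = 0`:
`EE p (p n + 2 h) (p l) = (p * tt (p n + 2 h) / tt n) * EE 1 n l * ((2 l + 1 + 2 n) (2 l - 1 - 2 n)) * ((-3) ^ (2 h l) * PP (p (n + 1)) (p l) * iz (2 p l + 1 - 2 p (n + 1)) * iz (2 p l - 1 + 2 p (n + 1)))`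
(`iz_coe`, `tt n ≠ 0`, `pow_MM`, `PP_MM`, `MM_iz`). Step from `r + 1` to `r` by `EE_down` with `m = p n + r`, `j = p l`: the three linear factors are in `MM` (`MM_lin`); for `r ≠ h` the two factors
`2 p l - 1 - 2 m`, `2 p l + 1 + 2 m` are units (`nd_odd`), inverted by `iz`; for `r = h` they are `p (2 l - 1 - 2 n)` and `p (2 l + 1 + 2 n)` and cancel.
`hor_sum`: `GB = EE * lm`, `lm m (p l)` is linear in `l`; `MM.ca`, `CA.lin`, `CA_sum`. -/

set_option autoImplicit false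

namespace Pool.Agent.Work.MP_096b72_nt.Hedge

open Finset

variable {p : ℕ} [hpp : Fact p.Prime] {h : ℕ} {χ : ℤ} {a q lam : ℤ_[p]} {f : ℕ → ℤ_[p]}

theorem SHor_nd {d e u : ℤ} (hu : ¬ (p : ℤ) ∣ u) (hd : d = u + p * e ∨ d = -u + p * e) :
    ¬ (p : ℤ) ∣ d := fun k => hu <| by
  rcases hd with rfl | rfl
  · exact (dvd_add_left (dvd_mul_right _ _)).1 k
  · exact dvd_neg.1 ((dvd_add_left (dvd_mul_right _ _)).1 k)

theorem SHor_tt (n : ℕ) : tt ℚ_[p] n ≠ 0 := by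
  have h1 : (((2 * n).choose n : ℕ) : ℚ_[p]) ≠ 0 :=
    Nat.cast_ne_zero.2 (Nat.choose_pos (by omega)).ne'
  have h2 : (((3 * n).choose n : ℕ) : ℚ_[p]) ≠ 0 :=
    Nat.cast_ne_zero.2 (Nat.choose_pos (by omega)).ne'
  exact div_ne_zero (mul_ne_zero (pow_ne_zero _ h1) h2) (pow_ne_zero _ (by norm_num))

theorem SHor_top (hp : p = 2 * h + 1) (h3 : 3 < p) (n : ℕ) :
    ∃ (σ : ℚ_[p]) (g : ℕ → ℤ_[p]), MM g ∧ ∀ l : ℕ,
      EE ℚ_[p] p (p * n + 2 * h) (p * l) = σ * EE ℚ_[p] 1 n l *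
        ((2 * l + 1 + 2 * n : ℚ_[p]) * (2 * l - 1 - 2 * n)) * g l := by
  have h1 : ¬ (p : ℤ) ∣ 1 := nd_lt one_pos (by omega)
  refine ⟨p * tt ℚ_[p] (p * n + 2 * h) / tt ℚ_[p] n, _, (((pow_MM hp h3 0).mul (PP_MM (n + 1) 0)).mul
    (MM_iz (1 - 2 * p * (n + 1)) 2)).mul (MM_iz (-1 + 2 * p * (n + 1)) 2), fun l => ?_⟩
  have e1 : p * n + 2 * h + 1 = p * (n + 1) := by rw [mul_add, mul_one]; omega
  have e2 : (-3 : ℚ_[p]) ^ (p * l) = (-3) ^ l * (-3) ^ (2 * h * l + 0) := by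
    rw [← pow_add]; congr 1; rw [hp]; ring
  have e3 := AB_split hp 1 (n := n + 1) (by omega) l (r := 0) (by omega)
  rw [mul_one, if_neg (by omega), mul_one] at e3
  have n1 : ¬ (p : ℤ) ∣ 1 - 2 * p * (n + 1) + p * 2 * l :=
    SHor_nd (e := 2 * l - 2 * (n + 1)) h1 (.inl (by ring))
  have n2 : ¬ (p : ℤ) ∣ -1 + 2 * p * (n + 1) + p * 2 * l :=
    SHor_nd (e := 2 * l + 2 * (n + 1)) h1 (.inr (by ring))
  have hh : (h : ℚ_[p]) = (p - 1) / 2 := by
    have : (p : ℚ_[p]) = 2 * h + 1 := by exact_mod_cast congrArg (Nat.cast : ℕ → ℚ_[p]) hp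
    rw [this]; ring
  have a1 : (2 * (l : ℚ_[p]) - 1 - 2 * n) ≠ 0 := odd_ne' l n
  have a2 : (2 * (l : ℚ_[p]) + 1 + 2 * n) ≠ 0 := by exact_mod_cast (by omega : 2 * l + 1 + 2 * n ≠ 0)
  have a3 := SHor_tt (p := p) n
  simp only [PadicInt.coe_mul, PadicInt.coe_pow, PadicInt.coe_neg, iz_coe n1, iz_coe n2]
  unfold EE
  rw [add_zero (p * l)] at e3 ⊢
  rw [e1, e2, e3]
  have e4 : (2 * ((p * l : ℕ) : ℚ_[p]) - 1 - 2 * ((p * n + 2 * h : ℕ) : ℚ_[p]))
      = ((1 - 2 * p * (n + 1) + p * 2 * l : ℤ) : ℚ_[p]) := by push_cast; rw [hh]; ring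
  have e5 : (2 * ((p * l : ℕ) : ℚ_[p]) + 1 + 2 * ((p * n + 2 * h : ℕ) : ℚ_[p]))
      = ((-1 + 2 * p * (n + 1) + p * 2 * l : ℤ) : ℚ_[p]) := by push_cast; rw [hh]; ring
  have e6 : (((p * l : ℕ) : ℚ_[p]) + 2 * ((p * n + 2 * h : ℕ) : ℚ_[p]) + 2)
      = p * (l + 2 * n + 2) := by push_cast; rw [hh]; ring
  have e7 : ((3 : ℤ_[p]) : ℚ_[p]) = 3 := rfl
  rw [e4, e5, e6, e7, div_eq_mul_inv (_ * (l + 2 * n + 2 : ℚ_[p])), mul_inv]
  generalize ((1 - 2 * p * (n + 1) + p * 2 * l : ℤ) : ℚ_[p])⁻¹ = A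
  generalize ((-1 + 2 * p * (n + 1) + p * 2 * l : ℤ) : ℚ_[p])⁻¹ = B
  generalize (2 * (l : ℚ_[p]) - 1 - 2 * n) = U at a1 ⊢
  generalize (2 * (l : ℚ_[p]) + 1 + 2 * n) = V at a2 ⊢
  field_simp

theorem SHor_down (m : ℕ) : ∃ (τ : ℚ_[p]) (g : ℕ → ℤ_[p]), MM g ∧ ∀ l : ℕ, m + 2 ≤ p * l →
    EE ℚ_[p] p m (p * l) * ((2 * (p * l) - 1 - 2 * m) * (2 * (p * l) + 1 + 2 * m)) =
      τ * g l * EE ℚ_[p] p (m + 1) (p * l) := by
  refine ⟨-16 * (m + 1) ^ 2 * (2 * m + 3) / ((2 * m + 1) * (3 * m + 1) * (3 * m + 2) * (m + 2)), _,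
    ((MM_lin (-m - 1) 1).mul (MM_lin (2 * m + 3) 1)).mul (MM_lin (2 * m + 2) 1), fun l hl => ?_⟩
  have h1 := EE_down (p : ℚ_[p]) hl
  have a : ((2 * m + 1) * (3 * m + 1) * (3 * m + 2) * (m + 2) : ℚ_[p]) ≠ 0 := by
    exact_mod_cast (by positivity : (2 * m + 1) * (3 * m + 1) * (3 * m + 2) * (m + 2) ≠ 0)
  have e2 : ((2 : ℤ_[p]) : ℚ_[p]) = 2 := rfl
  have e3 : ((3 : ℤ_[p]) : ℚ_[p]) = 3 := rfl
  rw [div_mul_eq_mul_div, div_mul_eq_mul_div, eq_div_iff a]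
  push_cast [e2, e3] at h1 ⊢
  linear_combination h1

theorem hor (hp : p = 2 * h + 1) (h3 : 3 < p) (n : ℕ) {r : ℕ} (hr : r < p) :
    ∃ (σ : ℚ_[p]) (g : ℕ → ℤ_[p]), MM g ∧ ∀ l : ℕ, n + 1 ≤ l →
      EE ℚ_[p] p (p * n + r) (p * l) = σ * EE ℚ_[p] 1 n l *
        (if h < r then (2 * l + 1 + 2 * n : ℚ_[p]) * (2 * l - 1 - 2 * n) else 1) * g l := by
  obtain ⟨i, hi⟩ : ∃ i, r + i = 2 * h := ⟨2 * h - r, by omega⟩
  induction i generalizing r with
  | zero =>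
    obtain ⟨σ, g, hg, H⟩ := SHor_top hp h3 n
    refine ⟨σ, g, hg, fun l _ => ?_⟩
    rw [if_pos (by omega), show r = 2 * h by omega, H l]
  | succ i ih =>
    obtain ⟨σ, g, hg, H⟩ := ih (r := r + 1) (by omega) (by omega)
    obtain ⟨τ, g', hg', H'⟩ := SHor_down (p := p) (p * n + r)
    have hl : ∀ l, n + 1 ≤ l → p * n + r + 2 ≤ p * l := fun l hl => by
      have := Nat.mul_le_mul_left p hl
      rw [mul_add] at this
      omega
    by_cases e : r = h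
    · refine ⟨τ * σ / p ^ 2, _, hg'.mul hg, fun l hl' => ?_⟩
      have h1 := H' l (hl l hl')
      rw [add_assoc (p * n) r 1, H l hl', if_pos (by omega)] at h1
      have hh : (r : ℚ_[p]) = (p - 1) / 2 := by
        have : (p : ℚ_[p]) = 2 * h + 1 := by exact_mod_cast congrArg (Nat.cast : ℕ → ℚ_[p]) hp
        rw [this, e]; ring
      have a1 : (2 * (l : ℚ_[p]) - 1 - 2 * n) ≠ 0 := odd_ne' l n
      have a2 : (2 * (l : ℚ_[p]) + 1 + 2 * n) ≠ 0 := by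
        exact_mod_cast (by omega : 2 * l + 1 + 2 * n ≠ 0)
      have a3 := Split_p0 (p := p)
      rw [if_neg (by omega), PadicInt.coe_mul]
      apply mul_right_cancel₀ (mul_ne_zero (pow_ne_zero 2 a3) (mul_ne_zero a2 a1))
      rw [Nat.cast_add, Nat.cast_mul, hh] at h1
      have a4 := mul_inv_cancel₀ (pow_ne_zero 2 a3)
      linear_combination h1 - (τ * σ * EE ℚ_[p] 1 n l * (g' l * g l) *
        ((2 * l + 1 + 2 * n) * (2 * l - 1 - 2 * n))) * a4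
    · have n0 := nd_odd hp hr e
      refine ⟨τ * σ, _, ((hg'.mul hg).mul (MM_iz (-(2 * r + 1) - 2 * p * n) 2)).mul
        (MM_iz (2 * r + 1 + 2 * p * n) 2), fun l hl' => ?_⟩
      have h1 := H' l (hl l hl')
      have n1 : ¬ (p : ℤ) ∣ -(2 * r + 1) - 2 * p * n + p * 2 * l :=
        SHor_nd (e := 2 * l - 2 * n) n0 (.inr (by ring))
      have n2 : ¬ (p : ℤ) ∣ 2 * r + 1 + 2 * p * n + p * 2 * l :=
        SHor_nd (e := 2 * l + 2 * n) n0 (.inl (by ring))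
      have a1 : ((-(2 * r + 1) - 2 * p * n + p * 2 * l : ℤ) : ℚ_[p]) ≠ 0 :=
        Int.cast_ne_zero.2 fun k => n1 (k ▸ dvd_zero _)
      have a2 : ((2 * r + 1 + 2 * p * n + p * 2 * l : ℤ) : ℚ_[p]) ≠ 0 :=
        Int.cast_ne_zero.2 fun k => n2 (k ▸ dvd_zero _)
      rw [add_assoc (p * n) r 1, H l hl', if_congr (by omega : h < r + 1 ↔ h < r) rfl rfl] at h1
      simp only [PadicInt.coe_mul, iz_coe n1, iz_coe n2]
      rw [← mul_assoc, ← mul_assoc, eq_mul_inv_iff_mul_eq₀ a2, eq_mul_inv_iff_mul_eq₀ a1]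
      push_cast at h1 ⊢
      linear_combination h1

theorem hor_sum (hp : p = 2 * h + 1) (h3 : 3 < p) (n : ℕ) : ∃ ζ : ℕ → ℚ_[p], CA ζ ∧
    ∀ l : ℕ, n + 1 ≤ l → ∑ r ∈ range p, GB ℚ_[p] p (p * n + r) (p * l) = EE ℚ_[p] 1 n l * ζ l := by
  have key : ∀ r : ℕ, ∃ ζ : ℕ → ℚ_[p], r < p → CA ζ ∧ ∀ l : ℕ, n + 1 ≤ l →
      GB ℚ_[p] p (p * n + r) (p * l) = EE ℚ_[p] 1 n l * ζ l := by
    intro r
    by_cases hr : r < p
    swap
    · exact ⟨0, fun k => absurd k hr⟩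
    obtain ⟨σ, g, hg, H⟩ := hor hp h3 n hr
    set m : ℚ_[p] := ((p * n + r : ℕ) : ℚ_[p]) with hm
    have h1 := (hg.ca h3).lin (σ * ((2 * m + 1) * ((5 * m + 1) * (2 * m + 1) / 2) / (m + 1)))
      (σ * ((2 * m + 1) * (m * p) / (m + 1)))
    by_cases e : h < r
    · refine ⟨_, fun _ => ⟨(h1.lin (1 + 2 * n) 2).lin (-1 - 2 * n) 2, fun l hl => ?_⟩⟩
      rw [GB, H l hl, if_pos e, lm, ← hm, Nat.cast_mul]
      ring
    · refine ⟨_, fun _ => ⟨h1, fun l hl => ?_⟩⟩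
      rw [GB, H l hl, if_neg e, lm, ← hm, Nat.cast_mul]
      ring
  choose ζ hζ using key
  refine ⟨_, CA_sum p fun r hr => (hζ r hr).1, fun l hl => ?_⟩
  rw [mul_sum]
  exact sum_congr rfl fun r hr => (hζ r (mem_range.1 hr)).2 l hl

end Pool.Agent.Work.MP_096b72_nt.Hedge
end

-- merged part: Pool.Agent.Work.MP_096b72_nt.Hedge.SStep
section
/-! The remainder of the division does not depend on `n`. -/

set_option autoImplicit false

namespace Pool.Agent.Work.MP_096b72_nt.Hedge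

open Finset

variable {p : ℕ} [hpp : Fact p.Prime] {h : ℕ} {χ : ℤ} {a q lam : ℤ_[p]} {f : ℕ → ℤ_[p]}

theorem exists_dv (hp : p = 2 * h + 1) (h3 : 3 < p) (n : ℕ) : ∃ ψ c₀ c₁, Dv p h n ψ c₀ c₁ := by
  have hu : IsUnit (-2 + -6 : ℤ_[p]) :=
    IsUnit.of_mul_eq_one (-iz p 2 ^ 3) (by
      linear_combination (4 * iz p 2 ^ 2 + 2 * iz p 2 + 1) * two_iz h3)
  obtain ⟨ψ, c₀, c₁, h₁, h₂, e⟩ := div_L h3 ((2 * n - 1) * (2 * n)) (-2 * n - 1) (-2)
    (-3 * (1 + 2 * n) * (1 - n)) (-9) (-6) hu (ths_MM hp h3 n)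
  refine ⟨ψ, c₀, c₁, h₁, h₂, fun l => ?_⟩
  rw [e l, LP, LQ]
  push_cast
  ring

omit hpp in
theorem SStep_alg {F : Type*} [Field F] [CharZero F] (n : ℕ) {κ z₀ z₁ e₀ d₁ : F} (hκ : κ ≠ 0)
    (e : ∀ x : ℕ, -((2 * x + 3) * (x + 3 * n + 3)) * (z₀ + z₁ * x) +
      -3 * ((x + 1) * (2 * x + 4 * n + 3)) * (z₀ + z₁ * (x + 1)) =
        κ * ((2 * x + 4 * n + 3) * (2 * x + 3) * (e₀ + d₁ * x))) :
    d₁ = 0 ∧ (1 ≤ n → e₀ = 0) := by
  have h0 := e 0
  have h1 := e 1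
  have h2 := e 2
  have h3 := e 3
  push_cast at h0 h1 h2 h3
  have a3 : κ * d₁ = -2 * z₁ := by linear_combination (1 / 24) * (h0 - 3 * h1 + 3 * h2 - h3)
  have a2 : κ * e₀ = -2 * z₀ - (n + 3) / 2 * z₁ := by
    linear_combination (-1 / 8) * (2 * h0 - 5 * h1 + 4 * h2 - h3) - (2 * n + 3) * a3
  have b0 : n * (3 * z₀) + (6 * n ^ 2 + 21 / 2 * n + 9 / 2) * z₁ = 0 := by
    linear_combination h0 + (9 + 12 * n) * a2
  have b1 : n * (-2 * z₀) + (4 * n ^ 2 + 9 * n + 3) * z₁ = 0 := by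
    linear_combination (1 / 6) * (-11 * h0 + 18 * h1 - 9 * h2 + 2 * h3) + (9 + 12 * n) * a3 +
      (12 + 8 * n) * a2
  have n1 : (24 * (n : F) ^ 2 + 48 * n + 18) ≠ 0 := by
    exact_mod_cast (by omega : 24 * n ^ 2 + 48 * n + 18 ≠ 0)
  obtain rfl : z₁ = 0 := mul_left_cancel₀ n1 (by linear_combination 2 * b0 + 3 * b1)
  refine ⟨mul_left_cancel₀ hκ (by linear_combination a3), fun hn => ?_⟩
  obtain rfl : z₀ = 0 :=
    mul_left_cancel₀ (pos_ne (F := F) n hn) (by linear_combination (1 / 3) * b0)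
  exact mul_left_cancel₀ hκ (by linear_combination a2)

theorem step (hp : p = 2 * h + 1) (h3 : 3 < p) {n : ℕ} {ψ ψ' : ℕ → ℤ_[p]} {c₀ c₁ d₀ d₁ : ℤ_[p]}
    (H : Dv p h n ψ c₀ c₁) (H' : Dv p h (n + 1) ψ' d₀ d₁) (hc : n = 0 ∨ c₁ = 0) :
    d₁ = 0 ∧ (1 ≤ n → d₀ = c₀) := by
  obtain ⟨ζ₀, hζ₀, e₀⟩ := hor_sum hp h3 n
  have n1 : (n : ℚ_[p]) + 1 ≠ 0 := by exact_mod_cast Nat.succ_ne_zero n
  obtain ⟨i, hi⟩ : ∃ i : ℚ_[p], (n + 1) * i = 1 := ⟨_, mul_inv_cancel₀ n1⟩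
  obtain ⟨κ, hκ⟩ : ∃ κ : ℚ_[p], κ = -((2 * n + 1) * (3 * n + 1) * (3 * n + 2)) * i / 2 := ⟨_, rfl⟩
  obtain ⟨ζ, hζ⟩ : ∃ ζ : ℕ → ℚ_[p], ∀ l : ℕ, ζ l = ζ₀ l +
      (p * κ + 0 * l) * ((1 + 2 * n + 2 * l) * ((2 * n + 1 + -2 * l) * ψ' l)) +
      (p * (8 * n * (2 * n + 1) * i) + 0 * l) *
        ((-n + 1 * l) * ((2 * n + 1 + 1 * l) * ((2 * n + 1 * l) * ψ l))) +
      (-(p * c₀) * ((2 * n + 1) * ((5 * n + 1) * (2 * n + 1) / 2) * i) +
        -(p * c₀) * ((2 * n + 1) * n * i) * l) * 1 := ⟨_, fun _ => rfl⟩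
  have hca : CA ζ := (((hζ₀.add (((H'.ca.lin _ _).lin _ _).lin _ _)).add
    ((((H.ca.lin _ _).lin _ _).lin _ _).lin _ _)).add ((CA_const 1).lin _ _)).congr
      fun l => (hζ l).symm
  have hE : ∀ l : ℕ, n + 1 ≤ l → EE ℚ_[p] 1 n l * ζ l = EE ℚ_[p] 1 n l * ζ₀ l +
      p * (tb ℚ_[p] 1 (n + 1) l * LP (n + 1) l) * ψ' l - p * (tb ℚ_[p] 1 n l * LP n l) * ψ l -
        p * c₀ * GB ℚ_[p] 1 n l := fun l hl => by
    have a₁ := tb_up (1 : ℚ_[p]) n l
    have a₂ := tb_same (1 : ℚ_[p]) hl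
    have a₃ : lm ℚ_[p] n l = (2 * n + 1) * (n * l + (5 * n + 1) * (2 * n + 1) / 2) * i := by
      rw [lm, div_eq_iff n1]
      linear_combination (-((2 * n + 1) * (n * l + (5 * n + 1) * (2 * n + 1) / 2))) * hi
    rw [hζ, GB, a₃, LP, LP, hκ]
    push_cast
    linear_combination (-(p * ψ' l * (2 * n + 1 - 2 * l) * i / 2)) * a₁ +
      p * ψ' l * tb ℚ_[p] 1 (n + 1) l * ((2 * n + 1 - 2 * l) * (l + 2 * n + 2)) * hi -
      p * ψ l * (l + 2 * n) * i * a₂ +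
      p * ψ l * tb ℚ_[p] 1 n l * ((2 * l + 1 - 2 * n) * (l + 2 * n)) * hi
  have hL : ∀ l : ℕ, n + 1 ≤ l →
      -((2 * l + 1 - 2 * n) * (l + 2 + 2 * n)) * ζ l + -3 * ((l - n) * (2 * l + 1 + 2 * n)) * ζ (l + 1) =
        p * κ * ((2 * l + 1 + 2 * n) * (2 * l + 1 - 2 * n) * (d₀ - c₀ + d₁ * l)) := fun l hl => by
    have st := stokes (p : ℚ_[p]) (m := p * n) (j := p * l) p (by
      rw [← Nat.mul_succ]
      exact Nat.mul_le_mul_left p hl)
    have v₀ := vert hp h3 1 n l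
    have v₁ := vert hp h3 1 (n + 1) l
    rw [mul_one] at v₀ v₁
    rw [← Nat.mul_succ, ← Nat.mul_succ, v₀, v₁, e₀ l hl, e₀ (l + 1) (by omega), H.eq, H'.eq] at st
    have s₀ := tb_succ (1 : ℚ_[p]) (n := n) (l := l) (Or.inl (by omega))
    have s₁ := tb_succ (1 : ℚ_[p]) (n := n + 1) (l := l) (Or.inl (by omega))
    have w := wz_b (1 : ℚ_[p]) hl
    have r := EE_succ (1 : ℚ_[p]) hl
    have a₁ := tb_up (1 : ℚ_[p]) n l
    have z : tb ℚ_[p] 1 n l * c₁ = 0 := by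
      rcases hc with rfl | rfl
      · simp [tb]
      · simp
    have b₀ := hE l hl
    have b₁ := hE (l + 1) (by omega)
    push_cast at st
    have key : EE ℚ_[p] 1 n (l + 1) * ζ (l + 1) - EE ℚ_[p] 1 n l * ζ l =
        p * tb ℚ_[p] 1 (n + 1) l * (d₀ - c₀ + d₁ * l) := by
      linear_combination b₁ - b₀ - st + p * ψ' (l + 1) * s₁ - p * ψ (l + 1) * s₀ + p * c₀ * w -
        p * l * z
    apply mul_left_cancel₀ (EE_ne one_ne_zero n l)
    rw [hκ]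
    linear_combination ((2 * l + 1 - 2 * n) * (l + 2 + 2 * n)) * key - ζ (l + 1) * r +
      p * (2 * l + 1 - 2 * n) * (d₀ - c₀ + d₁ * l) * (i / 2) * a₁ -
      p * (2 * l + 1 - 2 * n) * (d₀ - c₀ + d₁ * l) * tb ℚ_[p] 1 (n + 1) l * (l + 2 + 2 * n) * hi
  have hu : ¬ (p : ℤ) ∣ -2 + -6 := fun k => by
    have k' : p ∣ 2 ^ 3 := by exact_mod_cast (dvd_neg.1 (by simpa using k) : (p : ℤ) ∣ 8)
    have := Nat.le_of_dvd two_pos (hpp.out.dvd_of_dvd_pow k')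
    omega
  obtain ⟨e, he⟩ : ∃ e : ℚ_[p], e = d₀ - c₀ + d₁ * (n + 1) := ⟨_, rfl⟩
  obtain ⟨z₀, z₁, hz⟩ := uniq_L (-(9 * n + 9)) (-(6 * n + 9)) (-2) (-3 * (4 * n + 3))
    (-3 * (4 * n + 5)) (-6) hu (hca.shift (n + 1)) (p * κ * (3 * (4 * n + 3) * e))
    (p * κ * ((8 * n + 12) * e + 3 * (4 * n + 3) * d₁)) (p * κ * (4 * e + (8 * n + 12) * d₁))
    (p * κ * (4 * d₁)) fun x => by
      have := hL (x + (n + 1)) (by omega)
      rw [add_right_comm x (n + 1) 1] at this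
      rw [he]
      push_cast at this ⊢
      linear_combination this
  have hκ0 : p * κ ≠ 0 := by
    have i0 : i ≠ 0 := right_ne_zero_of_mul_eq_one hi
    have a0 : ((2 * n + 1) * (3 * n + 1) * (3 * n + 2) : ℚ_[p]) ≠ 0 := by
      exact_mod_cast (by positivity : (2 * n + 1) * (3 * n + 1) * (3 * n + 2) ≠ 0)
    rw [hκ]
    exact mul_ne_zero p_ne (div_ne_zero (mul_ne_zero (neg_ne_zero.2 a0) i0) two_ne_zero)
  obtain ⟨k₁, k₂⟩ := SStep_alg n (z₀ := z₀) (z₁ := z₁) (e₀ := e) (d₁ := (d₁ : ℚ_[p])) hκ0 fun x => by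
    have := hL (x + (n + 1)) (by omega)
    rw [add_right_comm x (n + 1) 1, hz x, hz (x + 1)] at this
    rw [he]
    push_cast at this ⊢
    linear_combination this
  refine ⟨PadicInt.coe_eq_zero.1 k₁, fun hn => Subtype.coe_injective ?_⟩
  have := k₂ hn
  rw [he, k₁] at this
  linear_combination this

theorem exists_mu (hp : p = 2 * h + 1) (h3 : 3 < p) :
    ∃ μ : ℤ_[p], ∀ n, 1 ≤ n → ∃ ψ, Dv p h n ψ μ 0 := by
  obtain ⟨ψ₀, c₀, c₁, H₀⟩ := exists_dv hp h3 0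
  obtain ⟨ψ₁, μ, d₁, H₁⟩ := exists_dv hp h3 (0 + 1)
  obtain rfl := (step hp h3 H₀ H₁ (Or.inl rfl)).1
  refine ⟨μ, fun n hn => ?_⟩
  induction n, hn using Nat.le_induction with
  | base => exact ⟨ψ₁, H₁⟩
  | succ n hn ih =>
    obtain ⟨ψ, H⟩ := ih
    obtain ⟨ψ', d₀, d₁, H'⟩ := exists_dv hp h3 (n + 1)
    obtain ⟨rfl, e⟩ := step hp h3 H H' (Or.inr rfl)
    obtain rfl := e hn
    exact ⟨ψ', H'⟩

end Pool.Agent.Work.MP_096b72_nt.Hedge
end

-- merged part: Pool.Agent.Work.MP_096b72_nt.Hedge.SVal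
section
/-! The value of `ths` modulo `p ^ 3`.

PLAN. `N = p n`, `W = ww ^ (t + 1)`, `y = 2 t + 1 = 2 n - 2 l - 1`. `W * cn n * PP L * (-3) ^ (2 h l + r) = cc n L * (ww ^ N * (-3) ^ (p l + r))` (`N = (N - n) + l + (t + 1)`, `p l + r = l + (2 h l + r)`, `ww_pow`), so
`N W ths = N Mid + p y Hi + p (y - 4 n) Lo` with the left sides of `mid_term`, `hi_sum`, `lo_sum` (`Sums.lean`). Insert these, cancel `N ≠ 0`, use `Th_odd_eq t`, `Th_even_eq t`, `Th_even D t`, `Th_even D (t + 1)`,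
`Th_odd D t`, `id2`, `id3`, `ww ^ t = -3 * W`: `W (ths - χ + p ^ 2 gm (LP + LQ)) = p ^ 3 * e` with `LP + LQ = -(y (t + 1 - 3 n) + 3 t (y - 4 n))`; multiply by `(-3) ^ (t + 1)`. Compare `Main_term` in `Main.lean`.
`psi_val`: `ths - χ = LP ψ l + LQ ψ (l + 1) ≡ (LP + LQ) ψ 0`; `l = n - 1` gives `LP + LQ = 3 n - 1`, `l = n - 2` gives `21 n - 15`, and `7 (3 n - 1) - (21 n - 15) = 8`; for `n = 1` it is `2` (`dvd_of_two`). -/

set_option autoImplicit false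

namespace Pool.Agent.Work.MP_096b72_nt.Hedge

open Finset

variable {p : ℕ} [hpp : Fact p.Prime] {h : ℕ} {χ : ℤ} {a q lam : ℤ_[p]} {f : ℕ → ℤ_[p]}

theorem SVal_alg {R : Type*} [CommRing R]
    {P n t y W c lam q a g d x₁ x₂ fo T₀ T₁ T₂ Hi Mid Lo e₁ e₂ e₃ e₄ e₅ e₆ e₇ e₈ e₉ : R}
    (hi : Hi = T₂ - T₁ - c * W * fo - P * n * W * x₁ + P * n * P * e₁)
    (lo : Lo = T₁ - T₀ - P * n * W * x₂ + P * n * P * e₂)
    (mid : Mid = c * W * (1 + 4 * (P * n) * lam + 8 * (P * n) ^ 2 * q ^ 2) +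
      P * y * (c * W * (fo + 4 * (P * n) * q * a)) + (P * n) ^ 2 * P * e₃ + P * y * (P * n * P * e₄))
    (h₀ : T₀ = -3 * W * (P * t) * (g + P * e₅)) (h₁ : T₁ = W * (c * lam + P * y * (d + P * e₆)))
    (h₂ : T₂ = W * (P * (t + 1)) * (g + P * e₉))
    (i₂ : 3 * g - 4 * d + 4 * c * q * a - x₁ - x₂ = P * e₇) (i₃ : 8 * c * q ^ 2 + 4 * x₂ = P * e₈) :
    P ^ 3 ∣ Mid + P * y * Hi + P * (y - 4 * n) * Lo - c * W -
      P ^ 2 * g * W * (y * (t + 1 - 3 * n) + 3 * t * (y - 4 * n)) :=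
  ⟨n ^ 2 * e₃ + y * n * (e₄ + e₁) + (y - 4 * n) * n * e₂ +
    W * (y * (t + 1) * e₉ - 4 * n * y * e₆ + 3 * t * (y - 4 * n) * e₅ + n ^ 2 * e₈ + y * n * e₇), by
    rw [hi, lo, mid, h₀, h₁, h₂]
    linear_combination P ^ 2 * y * n * W * i₂ + (P * n) ^ 2 * W * i₃⟩

theorem ths_val (D : Dat p h χ a q lam f) {n l : ℕ} (hl : l < n) : (p : ℤ_[p]) ^ 3 ∣
    ths p h n l - χ + p ^ 2 * gm p h χ a * ((LP n l + LQ n l : ℤ) : ℤ_[p]) := by
  obtain ⟨t, ht⟩ : ∃ t, n = l + t + 1 := ⟨n - l - 1, by omega⟩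
  obtain ⟨e₁, hi⟩ := hi_sum D ht
  obtain ⟨e₂, lo⟩ := lo_sum D ht
  obtain ⟨e₃, e₄, mid⟩ := mid_term D ht
  obtain ⟨e₅, h₀⟩ := Th_even D t
  obtain ⟨e₆, h₁⟩ := Th_odd D t
  obtain ⟨e₇, i₂⟩ := id2 D
  obtain ⟨e₈, i₃⟩ := id3 D
  obtain ⟨e₉, h₂⟩ := Th_even D (t + 1)
  have r₁ := Th_odd_eq (p := p) (χ := χ) (f := f) t
  have r₂ := Th_even_eq (p := p) (χ := χ) (f := f) t
  have hN : (p : ℤ_[p]) * n ≠ 0 := mul_ne_zero p_ne0 (Nat.cast_ne_zero.2 (by omega))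
  have ec : ∀ r, cc p n (p * l + r) * (ww p ^ (p * n) * (-3) ^ (p * l + r)) =
      ww p ^ (t + 1) * cn p n * (PP p (p * n) (p * l + r) * (-3) ^ (2 * h * l + r)) := fun r => by
    have h1 : n ≤ p * n := Nat.le_mul_of_pos_left n hpp.out.pos
    have h2 : ww p ^ (p * n) = ww p ^ (p * n - n) * ww p ^ l * ww p ^ (t + 1) := by
      rw [← pow_add, ← pow_add]; congr 1; omega
    have h3 : (-3 : ℤ_[p]) ^ (p * l + r) = (-3) ^ l * (-3) ^ (2 * h * l + r) := by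
      rw [← pow_add]; congr 1; rw [D.hp]; ring
    rw [h2, h3, cc, cn]
    linear_combination iz p 64 ^ (p * n - n) * rho p (p * n) * PP p (p * n) (p * l + r) *
      ww p ^ (p * n - n) * ww p ^ (t + 1) * (-3) ^ (2 * h * l + r) * ww_pow D.h3 l
  have es : ∀ g : ℕ → ℕ, ∑ r ∈ range h, cc p n (p * l + g r) *
      (ww p ^ (p * n) * (-3) ^ (p * l + g r)) *
        (p * n * iz p (2 * (p * n : ℕ) - (2 * ((p * l + g r : ℕ) : ℤ) + 1))) =
      p * n * (ww p ^ (t + 1) * cn p n * ∑ r ∈ range h, tm p h n l (g r)) := fun g => by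
    rw [mul_sum, mul_sum]
    exact sum_congr rfl fun r _ => by rw [ec, tm]; ring
  rw [es fun r => r] at hi
  rw [es fun r => h + 1 + r] at lo
  rw [ec] at mid
  rw [mul_add 2 t 1, mul_one, Nat.cast_succ] at h₂
  obtain ⟨e, he⟩ := SVal_alg (e₁ := e₁) (e₂ := e₂) (e₅ := e₅) (T₀ := Th p χ f (2 * t))
    (Hi := ww p ^ (t + 1) * cn p n * ∑ r ∈ range h, tm p h n l r)
    (Lo := ww p ^ (t + 1) * cn p n * ∑ r ∈ range h, tm p h n l (h + 1 + r))
    (mul_left_cancel₀ hN (by linear_combination hi - p * n * r₂))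
    (mul_left_cancel₀ hN (by linear_combination lo - p * n * r₁)) mid
    (by linear_combination h₀ - ww p ^ t * (p * t) * (gm p h χ a + p * e₅) * ww_mul D.h3)
    h₁ h₂ i₂ i₃
  have hn : (n : ℤ_[p]) = l + t + 1 := by rw [ht]; push_cast; rfl
  have key : ww p ^ (t + 1) * (ths p h n l - χ +
      p ^ 2 * gm p h χ a * ((LP n l + LQ n l : ℤ) : ℤ_[p])) = p ^ 3 * e := by
    rw [← he, ths, LP, LQ]
    push_cast
    rw [hn]
    ring
  exact ⟨(-3) ^ (t + 1) * e, by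
    linear_combination (-3) ^ (t + 1) * key - (ths p h n l - χ +
      p ^ 2 * gm p h χ a * ((LP n l + LQ n l : ℤ) : ℤ_[p])) * ww_pow D.h3 (t + 1)⟩

theorem SVal_dv (D : Dat p h χ a q lam f) {n l : ℕ} (hl : l < n) {ψ : ℕ → ℤ_[p]}
    (H : Dv p h n ψ χ 0) :
    (p : ℤ_[p]) ^ 3 ∣ ((LP n l : ℤ_[p]) + LQ n l) * (ψ 0 + p ^ 2 * gm p h χ a) := by
  obtain ⟨e, he⟩ := ths_val D hl
  obtain ⟨u, hu⟩ := H.cong l
  obtain ⟨v, hv⟩ := H.cong (l + 1)
  rw [Int.cast_add] at he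
  exact ⟨e - LP n l * u - LQ n l * v, by
    linear_combination he - H.eq l - LP n l * hu - LQ n l * hv⟩

theorem psi_val (D : Dat p h χ a q lam f) {n : ℕ} (hn : 1 ≤ n) {ψ : ℕ → ℤ_[p]}
    (H : Dv p h n ψ χ 0) : (p : ℤ_[p]) ^ 3 ∣ ψ 0 + p ^ 2 * gm p h χ a := by
  obtain rfl | ⟨m, rfl⟩ : n = 1 ∨ ∃ m, n = m + 2 := by
    rcases n with _ | _ | m
    exacts [absurd hn (by omega), .inl rfl, .inr ⟨m, rfl⟩]
  · obtain ⟨e, he⟩ := SVal_dv D zero_lt_one H
    rw [LP, LQ] at he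
    push_cast at he
    exact dvd_of_two D.h3 ⟨e, by linear_combination he⟩
  · obtain ⟨e, he⟩ := SVal_dv D (l := m + 1) (by omega) H
    obtain ⟨e', he'⟩ := SVal_dv D (l := m) (by omega) H
    rw [LP, LQ] at he he'
    push_cast at he he'
    exact dvd_of_two D.h3 (dvd_of_two D.h3 (dvd_of_two D.h3
      ⟨7 * e - e', by linear_combination 7 * he - he'⟩))

end Pool.Agent.Work.MP_096b72_nt.Hedge
end

-- merged part: Pool.Agent.Work.MP_096b72_nt.Hedge.SMu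
section
/-! The exact formula and the eigenvalue.

PLAN. `exact_form`: `wz_sum` for `p n` and `n`, `tb_zero`, `sum_blocks`, `vert` with `κ = 0`, `H.eq`; with `Φ l = tb 0 n l * LP n l * ψ l` one has
`tb 0 n l * (LP ψ l + LQ ψ (l + 1)) = Φ l - Φ (l + 1)` (`tb_succ`), `Finset.sum_range_sub'`, `Φ n = 0` (`AA_self`), `Φ 0 = -32 n ^ 3 tt n ψ 0`.
`mu_eq`: for `n = p ^ (b + 1)` let `T = S n / n`; `phi_T`, `TR_pow`, `TR_base` (with any `s`, e.g. from `bern_val` as in `main` of `../Final.lean`) give `In T` and `psi (phi T) = χ ^ (b + 1) ≠ 0`, so `‖T‖ = 1`.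
`Fin_est` and `exact_form` give `(μ - χ) * T = n ^ 2 * e` with `In e` (`In (tt n)`, `In_bernoulli`/`bern_val`, `not_dvd_192`, `In_inv`). Hence `p ^ b ∣ μ - χ` for all `b`; `dvd_of_forall` with `d = 0`. -/

set_option autoImplicit false

namespace Pool.Agent.Work.MP_096b72_nt.Hedge

open Finset

variable {p : ℕ} [hpp : Fact p.Prime] {h : ℕ} {χ : ℤ} {a q lam : ℤ_[p]} {f : ℕ → ℤ_[p]}

theorem exact_form (hp : p = 2 * h + 1) (h3 : 3 < p) {n : ℕ} (hn : 1 ≤ n) {ψ : ℕ → ℤ_[p]}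
    {μ : ℤ_[p]} (H : Dv p h n ψ μ 0) :
    ∑ k ∈ range (p * n), (5 * (k : ℚ_[p]) + 1) * tt ℚ_[p] k -
      p * μ * ∑ k ∈ range n, (5 * (k : ℚ_[p]) + 1) * tt ℚ_[p] k =
        -32 * p * n ^ 3 * tt ℚ_[p] n * (ψ 0 : ℤ_[p]) := by
  have key : ∀ l, ∑ s ∈ range p, tau ℚ_[p] (p * n) (p * l + s) - p * μ * tau ℚ_[p] n l =
      p * (tb ℚ_[p] 0 n l * LP n l * (ψ l : ℤ_[p])) -
        p * (tb ℚ_[p] 0 n (l + 1) * LP n (l + 1) * (ψ (l + 1) : ℤ_[p])) := fun l => by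
    have v := vert hp h3 0 n l
    rw [mul_zero, H.eq] at v
    simp only [tb_zero] at v
    rw [tb_succ 0 (Or.inr rfl), v, tb_zero]
    push_cast
    ring
  have a1 : (2 * (n : ℚ_[p]) - 1) ≠ 0 := by simpa using odd_ne' (F := ℚ_[p]) n 0
  rw [wz_sum _ (Nat.mul_pos hpp.out.pos hn), wz_sum _ hn, sum_blocks, mul_sum, ← sum_sub_distrib,
    sum_congr rfl fun l _ => key l,
    sum_range_sub' fun l => (p : ℚ_[p]) * (tb ℚ_[p] 0 n l * LP n l * (ψ l : ℤ_[p])),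
    tb_zero n n, tau, AA_self n hn]
  simp only [tb, AB, vv, LP, range_zero, prod_empty]
  push_cast
  simp only [mul_zero, zero_add, div_eq_mul_inv]
  linear_combination (-32 * p * n ^ 3 * tt ℚ_[p] n * (ψ 0 : ℤ_[p])) * mul_inv_cancel₀ a1

theorem SMu_unit (D : Dat p h χ a q lam f) (b : ℕ) : ∃ t : ℤ_[p], IsUnit t ∧
    ∑ k ∈ range (p ^ (b + 1)), (5 * (k : ℚ_[p]) + 1) * tt ℚ_[p] k =
      (p ^ (b + 1) : ℕ) * (t : ℚ_[p]) := by
  obtain ⟨iT, pT⟩ := phi_T (p := p) (b + 1) D.h3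
  obtain ⟨t, ht⟩ := In_iff.1 iT
  have hs : psi p (∑ j ∈ range (2 * h), if 3 ∣ j + 1 then io p ((j : ℤ) + 1) ^ 2 else 0) =
      s0 (KK p) h := by
    simp [s0, apply_ite (psi p), psi_io]
  rw [ht, phi_coe, TR_pow D.hp D.h3 D.hχ, TR_base D.hp D.h3 D.hχ _ hs] at pT
  have h0 : ((p ^ (b + 1) : ℕ) : ℚ_[p]) ≠ 0 := Nat.cast_ne_zero.2 (pow_pos hpp.out.pos _).ne'
  refine ⟨t, ?_, by rw [← ht, ← mul_assoc, mul_one_div_cancel h0, one_mul]⟩
  rw [PadicInt.isUnit_iff]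
  refine le_antisymm (PadicInt.norm_le_one _) (not_lt.1 fun k => ?_)
  have r : psi p (PadicInt.toZModPow 3 t) = 0 :=
    red_eq_zero.2 ((PadicInt.norm_lt_one_iff_dvd t).1 k)
  rw [pT] at r
  rcases D.hχ with ⟨-, rfl⟩ | ⟨-, rfl⟩ <;> simp at r

theorem mu_eq (D : Dat p h χ a q lam f) {μ : ℤ_[p]} (H : ∀ n, 1 ≤ n → ∃ ψ, Dv p h n ψ μ 0) :
    μ = χ := by
  refine sub_eq_zero.1 (zero_dvd_iff.1 (dvd_of_forall fun b => ⟨0, ?_⟩))
  obtain ⟨t, ut, ht⟩ := SMu_unit D b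
  have hn : 1 ≤ p ^ (b + 1) := pow_pos hpp.out.pos _
  have hb : (p : ℤ_[p]) ^ b ∣ (p ^ (b + 1) : ℕ) := ⟨p, by push_cast; ring⟩
  generalize p ^ (b + 1) = n at ht hn hb
  obtain ⟨ψ, hψ⟩ := H n hn
  have x := exact_form D.hp D.h3 hn hψ
  obtain ⟨e, ie, he⟩ := Fin_est D hn
  obtain ⟨e, rfl⟩ := In_iff.1 ie
  obtain ⟨e', he'⟩ := Fin_bern D
  have hw : (-192 : ℚ_[p]) * (iz p (-192) : ℤ_[p]) = 1 := by
    rw [iz_coe (not_dvd_192 D.h3)]
    norm_num
  have e1 : (-192 : ℚ_[p]) ^ (n - 1) * (iz p (-192) ^ (n - 1) : ℤ_[p]) = 1 := by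
    rw [PadicInt.coe_pow, ← mul_pow, hw, one_pow]
  have e2 : tt ℚ_[p] n =
      (((2 * n).choose n ^ 2 * (3 * n).choose n * iz p (-192) ^ n : ℤ_[p]) : ℚ_[p]) := by
    push_cast [iz_coe (not_dvd_192 D.h3)]
    rw [tt, div_eq_mul_inv, inv_pow]
  have hC : ((2 * n - 1).choose (n - 1) : ℚ_[p]) ≠ 0 :=
    Nat.cast_ne_zero.2 (Nat.choose_pos (by omega)).ne'
  have hN : (p : ℚ_[p]) * n ≠ 0 := mul_ne_zero p_ne (Nat.cast_ne_zero.2 (by omega))
  rw [sub_eq_iff_eq_add, div_eq_iff (mul_ne_zero (pow_ne_zero 3 hN) hC), ht] at he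
  rw [ht, e2] at x
  generalize ((2 * n).choose n ^ 2 * (3 * n).choose n * iz p (-192) ^ n : ℤ_[p]) = τ at x
  generalize iz p (-192) ^ (n - 1) = y at e1
  generalize -2 * gm p h χ a = G at he'
  have c32 : ((32 : ℤ_[p]) : ℚ_[p]) = 32 := rfl
  have k : (μ - χ) * t = n * (n * (p ^ 2 * (2 * n - 1).choose (n - 1) * y *
      (p * e + KC n * (G - p * e')) + 32 * τ * ψ 0)) := by
    apply Subtype.ext
    apply mul_left_cancel₀ hN
    push_cast [c32, he']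
    linear_combination y * he - x -
      (∑ k ∈ range (p * n), (5 * (k : ℚ_[p]) + 1) * tt ℚ_[p] k - p * χ * (n * t)) * e1
  obtain ⟨c, hc⟩ := ut.dvd_mul_right.1 (hb.trans ⟨_, k⟩)
  exact ⟨c, by rw [hc, zero_mul, zero_add]⟩

end Pool.Agent.Work.MP_096b72_nt.Hedge
end

-- merged part: Pool.Agent.Work.MP_096b72_nt.Hedge.SFin
section
/-! The congruence with the full divisor. -/

set_option autoImplicit false

namespace Pool.Agent.Work.MP_096b72_nt.Hedge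

open Finset

variable {p : ℕ} [hpp : Fact p.Prime] {h : ℕ} {χ : ℤ} {a q lam : ℤ_[p]} {f : ℕ → ℤ_[p]}

theorem SFin_est (D : Dat p h χ a q lam f) {n : ℕ} (hn : 1 ≤ n) : ∃ e : ℤ_[p],
    (-192) ^ (n - 1) * (∑ k ∈ range (p * n), (5 * (k : ℚ_[p]) + 1) * tt ℚ_[p] k -
      p * χ * ∑ k ∈ range n, (5 * (k : ℚ_[p]) + 1) * tt ℚ_[p] k) /
        ((p * n) ^ 3 * (((2 * n - 1).choose (n - 1) : ℚ_[p]) * KC n)) -
      5 / 18 * (((Polynomial.bernoulli (p - 2)).eval (1 / 3 : ℚ) : ℚ) : ℚ_[p]) = p * e := by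
  obtain ⟨μ, hμ⟩ := exists_mu D.hp D.h3
  obtain rfl := mu_eq D hμ
  obtain ⟨ψ, H⟩ := hμ n hn
  have ex := exact_form D.hp D.h3 hn H
  obtain ⟨e, he⟩ := psi_val D hn H
  obtain ⟨e', he'⟩ := Fin_bern D
  refine ⟨2 * e + e', ?_⟩
  have c2 : ((2 : ℤ_[p]) : ℚ_[p]) = 2 := rfl
  replace he := congrArg (fun x : ℤ_[p] => (x : ℚ_[p])) he
  have hk : kk ℚ_[p] n ≠ 0 := by
    rw [kk_eq hn, KC]
    exact mul_ne_zero (Nat.cast_ne_zero.2 (Nat.choose_pos (by omega)).ne') (Nat.cast_ne_zero.2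
      (Nat.mul_pos (Nat.choose_pos (by omega)) (Nat.choose_pos (by omega))).ne')
  have hN : (p : ℚ_[p]) * n ≠ 0 := mul_ne_zero p_ne (Nat.cast_ne_zero.2 (by omega))
  have ht : (-192) ^ (n - 1) * tt ℚ_[p] n * -16 = kk ℚ_[p] n := by
    obtain ⟨m, rfl⟩ : ∃ m, n = m + 1 := ⟨n - 1, by omega⟩
    have h0 : (-192 : ℚ_[p]) ^ m ≠ 0 := pow_ne_zero _ (by norm_num)
    rw [tt_eq_kk _ hn, Nat.add_sub_cancel, pow_succ]
    field_simp
    ring
  push_cast [c2] at ex he he' ⊢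
  rw [ex, ← kk_eq hn, sub_eq_iff_eq_add, div_eq_iff (mul_ne_zero (pow_ne_zero 3 hN) hk)]
  linear_combination 2 * p * n ^ 3 * (ψ 0 : ℚ_[p]) * ht + 2 * p * n ^ 3 * kk ℚ_[p] n * he +
    p ^ 3 * n ^ 3 * kk ℚ_[p] n * he'

theorem full_n (p : ℕ) (hpp : p.Prime) (h3 : 3 < p) (n : ℕ) (hn : 1 ≤ n) (S : ℕ → ℚ) (X R : ℚ)
    (hS : ∀ N : ℕ, S N = ∑ k ∈ Finset.range N, (5 * (k : ℚ) + 1) / (-192 : ℚ) ^ k *
      (((Nat.choose (2 * k) k : ℕ) : ℚ) ^ 2 * ((Nat.choose (3 * k) k : ℕ) : ℚ)))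
    (hX : X = (-192 : ℚ) ^ (n - 1) *
      (S (p * n) - (p : ℚ) * ((jacobiSym (p : ℤ) 3 : ℤ) : ℚ) * S n) /
        (((p : ℚ) * (n : ℚ)) ^ 3 * ((Nat.choose (2 * n - 1) (n - 1) : ℕ) : ℚ) ^ 2 *
          ((Nat.choose (3 * n - 1) (n - 1) : ℕ) : ℚ)))
    (hR : R = (5 / 18 : ℚ) * (Polynomial.bernoulli (p - 2)).eval (1 / 3 : ℚ)) :
    X - R = 0 ∨ 1 ≤ padicValRat p (X - R) := by
  have := Fact.mk hpp
  obtain ⟨h, hp⟩ : ∃ h, p = 2 * h + 1 := hpp.odd_of_ne_two (by omega)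
  obtain ⟨a, q, lam, f, D⟩ := exists_dat hp h3 (jacobi_chi hpp h3)
  obtain ⟨e, he⟩ := SFin_est D hn
  have eS : ∀ N, (S N : ℚ_[p]) = ∑ k ∈ range N, (5 * (k : ℚ_[p]) + 1) * tt ℚ_[p] k := fun N => by
    rw [hS]
    push_cast
    exact sum_congr rfl fun k _ => by
      unfold tt
      ring
  have eX : ((X - R : ℚ) : ℚ_[p]) = p * e := by
    rw [← he, hX, hR, KC]
    push_cast [eS]
    ring
  by_cases h0 : X - R = 0
  · exact Or.inl h0
  right
  have fin : ‖((X - R : ℚ) : ℚ_[p])‖ ≤ (p : ℝ) ^ (-(1 : ℤ)) := by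
    rw [eX, norm_mul, Padic.norm_p, zpow_neg_one]
    exact mul_le_of_le_one_right (by positivity) e.2
  rw [Padic.eq_padicNorm, padicNorm.eq_zpow_of_nonzero h0] at fin
  have hp1 : (1 : ℝ) < p := by exact_mod_cast hpp.one_lt
  push_cast at fin
  have := (zpow_le_zpow_iff_right₀ hp1).1 fin
  omega

end Pool.Agent.Work.MP_096b72_nt.Hedge
end
end
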